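import Pool.Agent.Work.MP_228e0c_al.H45.Noeth
import Mathlib

-- merged part: Pool.Agent.Work.MP_228e0c_al.H45.Inj
section
/-! Injectivity criterion for algebras with a standard involution. -/

set_option autoImplicit false

namespace Pool.Agent.Work.MP_228e0c_al.H45

open MvPolynomial

abbrev P0 (K : Type) [Field K] : Type := MvPolynomial (ℕ × Bool) K

abbrev P1 (K : Type) [Field K] : Type := MvPolynomial ℕ (P0 K)

namespace StdInv

variable {K A : Type} [Field K] [Ring A] [Algebra K A] (S : StdInv K A)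

theorem key (φ : A →ₗ[K] P0 K) (hd : ∀ i x, φ (S.d i * x) = 0)
    (hv : ∀ c : Cfg, c.Ok → ∃ ε : K, ε ≠ 0 ∧ φ (S.val c) = ε • omG K c.E)
    (n : ℕ) (f : A) (hf : f ∈ S.Ale n) (h0 : φ f = 0) : f ∈ S.D n := by
  classical
  let ι := {Γ : Multiset (ℕ × ℕ) // NN Γ ∧ ∃ c : Cfg, c.Ok ∧ c.size ≤ n ∧ c.E = Γ}
  choose rep hrep using fun Γ : ι => Γ.2.2
  choose ε hε using fun Γ : ι => hv (rep Γ) (hrep Γ).1
  have hD : ∀ x ∈ S.D n, φ x = 0 := by
    intro x hx
    induction hx using Submodule.span_induction with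
    | mem x hx => obtain ⟨i, w, -, rfl⟩ := hx; exact hd _ _
    | zero => simp
    | add y z _ _ h1 h2 => rw [map_add, h1, h2, add_zero]
    | smul c y _ h1 => rw [map_smul, h1, smul_zero]
  have hN : S.Nrm n ≤ Submodule.span K (Set.range fun Γ : ι => S.val (rep Γ)) ⊔ S.D n := by
    refine Submodule.span_le.2 ?_
    rintro _ ⟨c, hok, hs, hnn, rfl⟩
    let Γ : ι := ⟨c.E, hnn, c, hok, hs, rfl⟩
    obtain ⟨e, he⟩ := S.same_graph _ c (rep Γ) hok (hrep Γ).1 rfl (hrep Γ).2.2.symm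
    have : S.val c = e • S.val (rep Γ) + (S.val c - e • S.val (rep Γ)) := by abel
    rw [SetLike.mem_coe, this]
    exact add_mem (Submodule.mem_sup_left (Submodule.smul_mem _ _
      (Submodule.subset_span ⟨Γ, rfl⟩))) (Submodule.mem_sup_right (S.D_mono hs he))
  have h1 : f ∈ Submodule.span K (Set.range fun Γ : ι => S.val (rep Γ)) ⊔ S.D n :=
    (sup_le hN le_sup_right) (S.Ale_le n hf)
  obtain ⟨y, hy, δ, hδ, rfl⟩ := Submodule.mem_sup.1 h1
  rw [map_add, hD δ hδ, add_zero] at h0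
  have hli : LinearIndependent K (φ ∘ fun Γ : ι => S.val (rep Γ)) := by
    have h2 := (omG_linearIndependent (K := K)).comp
      (fun Γ : ι => (⟨Γ.1, Γ.2.1⟩ : {Γ : Multiset (ℕ × ℕ) // NN Γ}))
      (fun a b h => Subtype.ext (by simpa using h))
    have h3 := h2.units_smul (fun Γ => Units.mk0 (ε Γ) (hε Γ).1)
    convert h3 using 1
    funext Γ
    simp only [Function.comp, Pi.smul_apply', Units.smul_mk0]
    rw [(hε Γ).2, (hrep Γ).2.2]
  obtain ⟨a, rfl⟩ := (Finsupp.mem_span_range_iff_exists_finsupp).1 hy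
  have ha : a = 0 := by
    refine linearIndependent_iff.1 hli a ?_
    rw [← h0, Finsupp.linearCombination_apply, map_finsuppSum]
    simp [Function.comp]
  simpa [ha] using hδ

def dc (i : ℕ) : Subalgebra.center K A :=
  ⟨S.d i, Subalgebra.mem_center_iff.2 fun b => (S.d_comm' i b).symm⟩

noncomputable def dm (j : ℕ →₀ ℕ) : A := (j.prod fun i n => S.dc i ^ n : Subalgebra.center K A)

lemma dm_zero : S.dm 0 = 1 := by simp [dm]

lemma dm_add_single (j : ℕ →₀ ℕ) (i : ℕ) : S.dm (j + Finsupp.single i 1) = S.dm j * S.d i := by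
  rw [dm, Finsupp.prod_add_index' (by simp) (by simp [pow_add]), Finsupp.prod_single_index (by simp)]
  simp [dm, dc]

lemma finsupp_induction {p : (ℕ →₀ ℕ) → Prop} (h0 : p 0)
    (h1 : ∀ j i, p j → p (j + Finsupp.single i 1)) (j : ℕ →₀ ℕ) : p j := by
  induction j using Finsupp.induction_linear with
  | zero => exact h0
  | add f g hf hg =>
    clear hg
    induction g using Finsupp.induction_linear generalizing f with
    | zero => simpa using hf
    | add a b ha hb => rw [← add_assoc]; exact hb _ (ha _ hf)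
    | single a n =>
      induction n with
      | zero => simpa using hf
      | succ n ih => rw [Finsupp.single_add, ← add_assoc]; exact h1 _ _ ih
  | single a n =>
    induction n with
    | zero => simpa using h0
    | succ n ih => rw [Finsupp.single_add]; exact h1 _ _ ih

theorem injective_of (Q : A →ₗ[K] P1 K) (τ : ℕ → P0 K) (hτ : ∀ i, τ i ≠ 0)
    (hd : ∀ i x, Q (S.d i * x) = X i * (C (τ i) + X i) * Q x)
    (hv : ∀ c : Cfg, c.Ok → ∃ ε : K, ε ≠ 0 ∧ coeff 0 (Q (S.val c)) = ε • omG K c.E)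
    (htop : ∀ f : A, ∃ n, f ∈ S.Ale n) (f : A) (hf : Q f = 0) : f = 0 := by
  classical
  let φ : A →ₗ[K] P0 K := ((lcoeff (P0 K) 0).restrictScalars K) ∘ₗ Q
  have hφ : ∀ x, φ x = coeff 0 (Q x) := fun x => rfl
  have hφd : ∀ i x, φ (S.d i * x) = 0 := by
    intro i x
    rw [hφ, hd, mul_assoc, ← constantCoeff_eq, map_mul, constantCoeff_X, zero_mul]
  have hkey := S.key φ hφd hv
  have hQ : ∀ j : ℕ →₀ ℕ, ∃ U : P1 K, coeff 0 U ≠ 0 ∧
      ∀ x, Q (S.dm j * x) = monomial j 1 * (U * Q x) := by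
    intro j
    induction j using finsupp_induction with
    | h0 => exact ⟨1, by simp, fun x => by simp [dm_zero]⟩
    | h1 j i ih =>
      obtain ⟨U, hU, hx⟩ := ih
      refine ⟨U * (C (τ i) + X i), ?_, fun x => ?_⟩
      · rw [← constantCoeff_eq, map_mul, map_add, constantCoeff_C, constantCoeff_X, add_zero]
        exact mul_ne_zero hU (hτ i)
      · rw [dm_add_single, mul_assoc, hx, hd, monomial_add_single]
        ring
  let E : ℕ → ℕ → Submodule K A := fun k m =>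
    ⨆ j : {j : ℕ →₀ ℕ // j.degree = k}, (S.Ale m).map (LinearMap.mulLeft K (S.dm j.1))
  have main : ∀ m k f, f ∈ E k m → Q f = 0 → f = 0 := by
    intro m
    induction m using Nat.strong_induction_on with
    | _ m ih =>
    intro k f hf h0
    obtain ⟨F, hF, hsum⟩ := (Submodule.mem_iSup_iff_exists_finsupp _ _).1 hf
    choose x hx hx' using hF
    have hxD : ∀ j ∈ F.support, x j ∈ S.D m := by
      intro j hj
      refine hkey m _ (hx j) ?_
      have h1 := congrArg (coeff j.1) h0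
      rw [← hsum, Finsupp.sum, map_sum, coeff_sum, coeff_zero, Finset.sum_eq_single j] at h1
      · obtain ⟨U, hU, hU'⟩ := hQ j.1
        rw [← hx' j, LinearMap.mulLeft_apply, hU', coeff_monomial_mul', if_pos le_rfl, tsub_self,
          one_mul, ← constantCoeff_eq, map_mul] at h1
        exact (mul_eq_zero.1 h1).resolve_left hU
      · intro b _ hbj
        obtain ⟨U, hU, hU'⟩ := hQ b.1
        rw [← hx' b, LinearMap.mulLeft_apply, hU', coeff_monomial_mul', if_neg]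
        intro hle
        apply hbj
        apply Subtype.ext
        obtain ⟨c, hc⟩ := exists_add_of_le hle
        have h2 := j.2
        rw [hc, map_add, b.2] at h2
        have h3 : c = 0 := (Finsupp.degree_eq_zero_iff c).1 (by omega)
        rw [hc, h3, add_zero]
      · intro h; exact absurd hj h
    by_cases hm : m < 2
    · rw [← hsum, Finsupp.sum]
      refine Finset.sum_eq_zero fun j hj => ?_
      have h1 : S.D m = ⊥ := by
        rw [D, Submodule.span_eq_bot]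
        rintro _ ⟨i, w, hw, -⟩
        omega
      have h2 := hxD j hj
      rw [h1, Submodule.mem_bot] at h2
      rw [← hx' j, h2, map_zero]
    · refine ih (m - 2) (by omega) (k + 1) f ?_ h0
      rw [← hsum, Finsupp.sum]
      refine Submodule.sum_mem _ fun j hj => ?_
      rw [← hx' j]
      have : ∀ y ∈ S.D m, LinearMap.mulLeft K (S.dm j.1) y ∈ E (k + 1) (m - 2) := by
        intro y hy
        induction hy using Submodule.span_induction with
        | mem y hy =>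
          obtain ⟨i, w, hw, rfl⟩ := hy
          refine Submodule.mem_iSup_of_mem
            ⟨j.1 + Finsupp.single i 1, by rw [map_add, j.2, Finsupp.degree_single]⟩ ?_
          refine ⟨S.wd w, S.wd_mem w (by omega), ?_⟩
          simp only [LinearMap.mulLeft_apply, dm_add_single, mul_assoc]
        | zero => simp
        | add y z _ _ h1 h2 => rw [map_add]; exact add_mem h1 h2
        | smul c y _ h1 => rw [map_smul]; exact Submodule.smul_mem _ _ h1
      exact this _ (hxD j hj)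
  obtain ⟨n, hn⟩ := htop f
  refine main n 0 f ?_ hf
  exact Submodule.mem_iSup_of_mem ⟨0, by simp⟩ ⟨f, hn, by simp [dm_zero]⟩

end StdInv

end Pool.Agent.Work.MP_228e0c_al.H45
end

-- merged part: Pool.Agent.Work.MP_228e0c_al.H45.SFT
section
/-! Presentation of the algebra generated by generic `2 × 2` matrices and their adjugates. -/

set_option autoImplicit false

namespace Pool.Agent.Work.MP_228e0c_al.H45

open MvPolynomial FreeAlgebra

abbrev G (K : Type) [Field K] : Type := FreeAlgebra K L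

abbrev M2 (B : Type) : Type := Matrix (Fin 2) (Fin 2) B

variable {K : Type} [Field K]

/-- Evaluation of letters at matrices and their adjugates. -/
noncomputable def evalG (K : Type) [Field K] {B : Type} [CommRing B] [Algebra K B]
    (v : ℕ → M2 B) : G K →ₐ[K] M2 B :=
  FreeAlgebra.lift K fun l : L => if l.2 then (v l.1).adjugate else v l.1

/-- The defining relations. -/
def N0set (K : Type) [Field K] : Set (G K) :=
  {x | (∃ w : List L, w.length ≤ 3 ∧ ∃ z : L,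
      x = (wdF K w + wdF K (wstar w)) * ι K z - ι K z * (wdF K w + wdF K (wstar w))) ∨
    ∃ (i : ℕ) (z : L), x = ι K (i, false) * ι K (i, true) * ι K z -
      ι K z * (ι K (i, false) * ι K (i, true))}

section mat
variable {B : Type} [CommRing B]

lemma adj_adj (M : M2 B) : M.adjugate.adjugate = M := by
  ext i j; fin_cases i <;> fin_cases j <;> simp [Matrix.adjugate_fin_two]

lemma add_adj (M : M2 B) : M + M.adjugate = M.trace • (1 : M2 B) := by
  ext i j; fin_cases i <;> fin_cases j <;> simp [Matrix.adjugate_fin_two, Matrix.trace_fin_two]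
  exact add_comm _ _

variable [Algebra K B]

lemma evalG_ι (v : ℕ → M2 B) (l : L) :
    evalG K v (ι K l) = if l.2 then (v l.1).adjugate else v l.1 := by
  simp [evalG]

lemma evalG_star (v : ℕ → M2 B) (l : L) :
    evalG K v (ι K (lstar l)) = (evalG K v (ι K l)).adjugate := by
  obtain ⟨i, b⟩ := l
  cases b <;> simp [evalG_ι, lstar, adj_adj]

lemma evalG_wstar (v : ℕ → M2 B) (w : List L) :
    evalG K v (wdF K (wstar w)) = (evalG K v (wdF K w)).adjugate := by
  induction w with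
  | nil => simp [wdF_nil]
  | cons l w ih =>
    rw [wstar_cons, wdF_append, wdF_cons, wdF_nil, mul_one, map_mul, ih, evalG_star, wdF_cons,
      map_mul, Matrix.adjugate_mul_distrib]

lemma evalG_N0 (v : ℕ → M2 B) {x : G K} (hx : x ∈ N0set K) : evalG K v x = 0 := by
  rcases hx with ⟨w, -, z, rfl⟩ | ⟨i, z, rfl⟩
  · simp only [map_sub, map_mul, map_add, evalG_wstar, add_adj]
    simp
  · have h := evalG_star (K := K) v (i, false)
    simp only [lstar, Bool.not_false] at h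
    simp only [map_sub, map_mul, h, Matrix.mul_adjugate]
    simp

lemma map_evalG {B' : Type} [CommRing B'] [Algebra K B'] (ψ : B →ₐ[K] B') (v : ℕ → M2 B)
    (f : G K) : ψ.mapMatrix (evalG K v f) = evalG K (fun i => ψ.mapMatrix (v i)) f := by
  have : ψ.mapMatrix.comp (evalG K v) = evalG K (fun i => ψ.mapMatrix (v i)) := by
    ext1
    funext l
    simp only [Function.comp, AlgHom.comp_apply, evalG_ι]
    split_ifs
    · exact ψ.map_adjugate _
    · rfl
  exact DFunLike.congr_fun this f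

end mat

lemma cyc_identity {A : Type} [Ring A] (a b z ta tb tz : A) (ha : ∀ x, ta * x = x * ta)
    (hb : ∀ x, tb * x = x * tb) (hz : ∀ x, tz * x = x * tz)
    (h1 : Commute (b * z + (tz - z) * (tb - b)) a) (h2 : Commute (z * a + (ta - a) * (tz - z)) b) :
    Commute (a * b + (tb - b) * (ta - a)) z := by
  have ha' : ∀ x y, x * (ta * y) = ta * (x * y) := fun x y => by
    rw [← mul_assoc, ← ha, mul_assoc]
  have hb' : ∀ x y, x * (tb * y) = tb * (x * y) := fun x y => by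
    rw [← mul_assoc, ← hb, mul_assoc]
  have hz' : ∀ x y, x * (tz * y) = tz * (x * y) := fun x y => by
    rw [← mul_assoc, ← hz, mul_assoc]
  unfold Commute SemiconjBy at *
  rw [← sub_eq_zero] at h1 h2 ⊢
  have : (a * b + (tb - b) * (ta - a)) * z - z * (a * b + (tb - b) * (ta - a)) =
      -((b * z + (tz - z) * (tb - b)) * a - a * (b * z + (tz - z) * (tb - b))) -
      ((z * a + (ta - a) * (tz - z)) * b - b * (z * a + (ta - a) * (tz - z))) := by
    simp only [mul_add, add_mul, mul_sub, sub_mul, mul_assoc, ← ha a, ← ha b, ← ha z, ← hb a,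
      ← hb b, ← hb z, ← hz a, ← hz b, ← hz z, ha' a, ha' b, ha' z, hb' a, hb' b, hb' z, hz' a,
      hz' b, hz' z]
    abel
  rw [this, h1, h2]; simp

abbrev A0 (K : Type) [Field K] : Type := G K ⧸ biI K (N0set K)

noncomputable def mk0 (K : Type) [Field K] : G K →ₐ[K] A0 K := Ideal.Quotient.mkₐ K _

lemma mk0_surj (x : A0 K) : ∃ y, mk0 K y = x := Ideal.Quotient.mkₐ_surjective K _ x

lemma mk0_N0 {x : G K} (hx : x ∈ N0set K) : mk0 K x = 0 := mk_eq_zero_iff.2 (subset_bi hx)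

lemma central_of_letters {t : A0 K} (h : ∀ l, Commute t (mk0 K (ι K l))) (x : A0 K) :
    t * x = x * t := by
  obtain ⟨y, rfl⟩ := mk0_surj x
  exact commute_of_letters _ h y

lemma tr_central (n : ℕ) : ∀ w : List L, w.length = n → ∀ x : A0 K,
    (mk0 K (wdF K w) + mk0 K (wdF K (wstar w))) * x =
      x * (mk0 K (wdF K w) + mk0 K (wdF K (wstar w))) := by
  induction n using Nat.strong_induction_on with
  | _ n ih =>
  intro w hw
  refine central_of_letters fun z => ?_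
  by_cases h3 : w.length ≤ 3
  · have := mk0_N0 (K := K) (Or.inl ⟨w, h3, z, rfl⟩)
    rw [map_sub, map_mul, map_mul, map_add, sub_eq_zero] at this
    exact this
  · have hsplit : w = w.take 2 ++ w.drop 2 := (List.take_append_drop 2 w).symm
    have hla : (w.take 2).length = 2 := by simp; omega
    have hlb : (w.drop 2).length = n - 2 := by simp [hw]
    generalize w.take 2 = a at hsplit hla
    generalize w.drop 2 = b at hsplit hlb
    subst hsplit
    have ha := ih _ (by omega) a hla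
    have hb := ih _ (by omega) b hlb
    have hz := ih 1 (by omega) [z] rfl
    have h1 := ih (n - 1) (by omega) (b ++ [z]) (by simp; omega) (mk0 K (wdF K a))
    have h2 := ih 3 (by omega) ([z] ++ a) (by simp; omega) (mk0 K (wdF K b))
    rw [wstar_append, wdF_append, wdF_append, map_mul, map_mul] at h1 h2 ⊢
    have hzz : mk0 K (wdF K [z]) = mk0 K (ι K z) := by rw [wdF_cons, wdF_nil, mul_one]
    rw [hzz] at hz h1 h2
    have := cyc_identity (mk0 K (wdF K a)) (mk0 K (wdF K b)) (mk0 K (ι K z)) _ _ _ ha hb hz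
      (by simpa [Commute, SemiconjBy] using h1) (by simpa [Commute, SemiconjBy] using h2)
    simpa [Commute, SemiconjBy] using this

lemma d_central (i : ℕ) (x : A0 K) :
    mk0 K (ι K (i, false)) * mk0 K (ι K (i, true)) * x =
      x * (mk0 K (ι K (i, false)) * mk0 K (ι K (i, true))) := by
  refine central_of_letters (fun z => ?_) x
  have := mk0_N0 (K := K) (Or.inr ⟨i, z, rfl⟩)
  simp only [map_sub, map_mul, sub_eq_zero] at this
  exact this

noncomputable def stOp (K : Type) [Field K] : G K →ₐ[K] (A0 K)ᵐᵒᵖ :=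
  FreeAlgebra.lift K fun l => MulOpposite.op (mk0 K (ι K (lstar l)))

lemma stOp_wd (w : List L) : stOp K (wdF K w) = MulOpposite.op (mk0 K (wdF K (wstar w))) := by
  induction w with
  | nil => simp [wdF_nil]
  | cons l w ih =>
    rw [wdF_cons, map_mul, ih, wstar_cons, wdF_append, map_mul, MulOpposite.op_mul, wdF_cons,
      wdF_nil, mul_one]
    simp [stOp]

lemma stOp_N0 {x : G K} (hx : x ∈ N0set K) : stOp K x = 0 := by
  rcases hx with ⟨w, -, z, rfl⟩ | ⟨i, z, rfl⟩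
  · have h := tr_central (K := K) _ w rfl (mk0 K (ι K (lstar z)))
    simp only [map_sub, map_mul, map_add, stOp_wd, wstar_wstar]
    rw [add_comm (MulOpposite.op _), ← MulOpposite.op_add]
    simp only [stOp, lift_ι_apply, ← MulOpposite.op_mul, h, sub_self]
  · have h := d_central (K := K) i (mk0 K (ι K (lstar z)))
    simp only [map_sub, map_mul, stOp, lift_ι_apply, ← MulOpposite.op_mul]
    simp only [lstar, Bool.not_false, Bool.not_true] at h ⊢
    rw [h, sub_self]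

noncomputable def st0 (K : Type) [Field K] : A0 K →ₗ[K] A0 K :=
  (MulOpposite.opLinearEquiv K).symm.toLinearMap ∘ₗ
    (Ideal.Quotient.liftₐ (biI K (N0set K)) (stOp K)
      (fun _ ha => map_bi_zero _ (fun _ hx => stOp_N0 hx) ha)).toLinearMap

lemma st0_mk (y : G K) : st0 K (mk0 K y) = (stOp K y).unop := rfl

lemma st0_wd (w : List L) : st0 K (mk0 K (wdF K w)) = mk0 K (wdF K (wstar w)) := by
  rw [st0_mk, stOp_wd]; rfl

noncomputable def S0 (K : Type) [Field K] : StdInv K (A0 K) where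
  g l := mk0 K (ι K l)
  st := st0 K
  st_mul a b := by
    obtain ⟨a, rfl⟩ := mk0_surj a
    obtain ⟨b, rfl⟩ := mk0_surj b
    rw [← map_mul, st0_mk, st0_mk, st0_mk, map_mul, MulOpposite.unop_mul]
  st_one := by rw [← map_one (mk0 K), st0_mk, map_one]; rfl
  st_st a := by
    obtain ⟨a, rfl⟩ := mk0_surj a
    induction a using word_induction with
    | mem w => rw [st0_wd, st0_wd, wstar_wstar]
    | zero => simp
    | add x y h1 h2 => simp only [map_add, h1, h2]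
    | smul c x h => simp only [map_smul, h]
  st_g l := by rw [st0_mk]; simp [stOp]
  tr_comm a b := by
    obtain ⟨a, rfl⟩ := mk0_surj a
    induction a using word_induction with
    | mem w => rw [st0_wd]; exact tr_central _ w rfl b
    | zero => simp
    | add x y h1 h2 =>
      simp only [map_add]
      rw [add_add_add_comm, add_mul, h1, h2, ← mul_add]
    | smul c x h =>
      simp only [map_smul]
      rw [← smul_add, smul_mul_assoc, h, mul_smul_comm]
  d_comm := d_central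

lemma S0_wd (w : List L) : (S0 K).wd w = mk0 K (wdF K w) := by
  rw [map_wdF]; rfl

noncomputable def ev {B : Type} [CommRing B] [Algebra K B] (v : ℕ → M2 B) : A0 K →ₐ[K] M2 B :=
  Ideal.Quotient.liftₐ (biI K (N0set K)) (evalG K v)
    (fun _ ha => map_bi_zero _ (fun _ hx => evalG_N0 v hx) ha)

lemma ev_mk {B : Type} [CommRing B] [Algebra K B] (v : ℕ → M2 B) (y : G K) :
    ev v (mk0 K y) = evalG K v y := rfl

section rankone
variable {B : Type} [CommRing B] (α β : ℕ → B)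

/-- The rank one matrix `y ↦ ω(v_q, y) v_p`. -/
def Rk (p q : ℕ) : M2 B := !![-(β q * α p), α q * α p; -(β q * β p), α q * β p]

/-- The pairing `ω(v_p, M v_q)`. -/
def Bf (p : ℕ) (M : M2 B) (q : ℕ) : B :=
  α p * (M 1 0 * α q + M 1 1 * β q) - (M 0 0 * α q + M 0 1 * β q) * β p

lemma adj_Rk (p q : ℕ) : (Rk α β p q).adjugate = - Rk α β q p := by
  ext i j; fin_cases i <;> fin_cases j <;> simp [Rk] <;> ring

lemma Bf_one (p q : ℕ) : Bf α β p 1 q = α p * β q - α q * β p := by simp [Bf]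

lemma Bf_Rk (s p q t : ℕ) (M : M2 B) :
    Bf α β s (Rk α β p q * M) t = (α s * β p - α p * β s) * Bf α β q M t := by
  simp [Bf, Rk, Matrix.mul_apply, Fin.sum_univ_two]; ring

lemma trace_Rk (p q : ℕ) (M : M2 B) : (Rk α β p q * M).trace = Bf α β q M p := by
  rw [Matrix.trace_fin_two]
  simp only [Matrix.mul_apply, Fin.sum_univ_two]
  simp [Rk, Bf]; ring

lemma Bf_smul (p q : ℕ) (c : B) (M : M2 B) : Bf α β p (c • M) q = c * Bf α β p M q := by
  simp [Bf]; ring

lemma Bf_add (p q : ℕ) (M N : M2 B) : Bf α β p (M + N) q = Bf α β p M q + Bf α β p N q := by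
  simp [Bf]; ring

end rankone

noncomputable def al (K : Type) [Field K] (p : ℕ) : P0 K := X (p, false)

noncomputable def be (K : Type) [Field K] (p : ℕ) : P0 K := X (p, true)

noncomputable def v0 (K : Type) [Field K] (i : ℕ) : M2 (P0 K) :=
  Rk (al K) (be K) (code (i, false)) (code (i, true))

noncomputable def v1 (K : Type) [Field K] (i : ℕ) : M2 (P1 K) :=
  (v0 K i).map C + (X i : P1 K) • (1 : M2 (P1 K))

lemma om_mke (p q : ℕ) : ∃ ε : K, ε ≠ 0 ∧
    al K p * be K q - al K q * be K p = ε • om K (mke p q).1 (mke p q).2 := by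
  rcases le_total p q with h | h
  · exact ⟨1, one_ne_zero, by simp [mke, min_eq_left h, max_eq_right h, om, al, be]⟩
  · exact ⟨-1, by simp, by simp [mke, min_eq_right h, max_eq_left h, om, al, be]⟩

lemma ev0_letter (l : L) : ∃ ε : K, ε ≠ 0 ∧
    evalG K (v0 K) (ι K l) = (C ε : P0 K) • Rk (al K) (be K) (code l) (code (lstar l)) := by
  obtain ⟨i, b⟩ := l
  cases b
  · exact ⟨1, one_ne_zero, by simp [evalG_ι, v0, lstar]⟩
  · exact ⟨-1, by simp, by simp [evalG_ι, v0, lstar, adj_Rk]⟩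

lemma Bf_word (w : List L) (t : ℕ) : ∀ s : ℕ, ∃ ε : K, ε ≠ 0 ∧
    Bf (al K) (be K) s (evalG K (v0 K) (wdF K w)) t = ε • omG K (path s w t) := by
  induction w with
  | nil =>
    intro s
    obtain ⟨ε, h1, h2⟩ := om_mke (K := K) s t
    refine ⟨ε, h1, ?_⟩
    rw [wdF_nil, map_one, Bf_one, h2]
    simp [path, pre, lstE, omG]
  | cons l w ih =>
    intro s
    obtain ⟨ε, h1, h2⟩ := om_mke (K := K) s (code l)
    obtain ⟨ε', h3, h4⟩ := ev0_letter (K := K) l
    obtain ⟨ε'', h5, h6⟩ := ih (code (lstar l))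
    refine ⟨ε' * (ε * ε''), mul_ne_zero h3 (mul_ne_zero h1 h5), ?_⟩
    rw [wdF_cons, map_mul, h4, Matrix.smul_mul, Bf_smul, Bf_Rk, h2, h6, path_cons, omG_cons]
    simp only [smul_eq_C_mul, map_mul]; ring

lemma trace_word (w : List L) (hw : w ≠ []) : ∃ ε : K, ε ≠ 0 ∧
    (evalG K (v0 K) (wdF K w)).trace = ε • omG K (cyc w) := by
  obtain ⟨l, a, rfl, -⟩ := exists_first hw
  obtain ⟨ε', h3, h4⟩ := ev0_letter (K := K) l
  obtain ⟨ε'', h5, h6⟩ := Bf_word (K := K) a (code l) (code (lstar l))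
  refine ⟨ε' * ε'', mul_ne_zero h3 h5, ?_⟩
  rw [wdF_cons, map_mul, h4, Matrix.smul_mul, Matrix.trace_smul, trace_Rk, h6, cyc_cons]
  simp only [smul_eq_C_mul, map_mul, smul_eq_mul]; ring

lemma ev0_T (cs : Multiset (List L)) (h : ∀ b ∈ cs, b ≠ []) : ∃ ε : K, ε ≠ 0 ∧
    ev (v0 K) ((S0 K).T cs) = (ε • omG K (cs.bind cyc)) • (1 : M2 (P0 K)) := by
  induction cs using Multiset.induction_on with
  | empty => exact ⟨1, one_ne_zero, by simp [omG]⟩
  | cons b cs ih =>
    obtain ⟨ε, h1, h2⟩ := ih fun c hc => h c (Multiset.mem_cons_of_mem hc)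
    obtain ⟨ε', h3, h4⟩ := trace_word (K := K) b (h b (Multiset.mem_cons_self _ _))
    refine ⟨ε' * ε, mul_ne_zero h3 h1, ?_⟩
    rw [StdInv.T_cons, map_mul, h2, StdInv.tr, StdInv.st_wd, S0_wd, S0_wd, map_add, ev_mk, ev_mk,
      evalG_wstar, add_adj, h4, Multiset.cons_bind, omG_add]
    simp only [smul_eq_C_mul, map_mul, Matrix.smul_mul, Matrix.mul_smul, mul_one, smul_smul]
    congr 1; ring

noncomputable def cc (K : Type) [Field K] : P1 K →ₐ[K] P0 K :=
  (aeval (fun _ => 0) : P1 K →ₐ[P0 K] P0 K).restrictScalars K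

lemma cc_apply (p : P1 K) : cc K p = coeff 0 p := by
  simp [cc, aeval_zero', constantCoeff_eq]

lemma cc_v1 (i : ℕ) : (cc K).mapMatrix (v1 K i) = v0 K i := by
  ext1 a b
  by_cases h : a = b <;> simp [v1, cc, h]

noncomputable def Q1 (K : Type) [Field K] : A0 K →ₗ[K] P1 K where
  toFun f := Bf (fun p => C (al K p)) (fun p => C (be K p)) 0 (ev (v1 K) f) 1
  map_add' f g := by rw [map_add, Bf_add]
  map_smul' c f := by
    rw [map_smul, ← algebraMap_smul (P1 K), Bf_smul, RingHom.id_apply, Algebra.smul_def]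

lemma Q1_apply (f : A0 K) :
    Q1 K f = Bf (fun p => C (al K p)) (fun p => C (be K p)) 0 (ev (v1 K) f) 1 := rfl

lemma cc_Q1 (f : A0 K) : coeff 0 (Q1 K f) = Bf (al K) (be K) 0 (ev (v0 K) f) 1 := by
  obtain ⟨y, rfl⟩ := mk0_surj f
  have h := map_evalG (cc K) (v1 K) y
  simp only [cc_v1] at h
  rw [← cc_apply, ev_mk, ← h]
  simp [Q1, Bf, ev_mk, cc]

theorem mem_bi_N0 [Infinite K] (f : G K) (hf : ∀ v : ℕ → M2 K, evalG K v f = 0) :
    f ∈ bi K (N0set K) := by
  rw [← mk_eq_zero_iff]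
  refine (S0 K).injective_of (Q1 K) (fun i => (v0 K i).trace) ?_ ?_ ?_ ?_ (mk0 K f) ?_
  · intro i h
    have h1 := congrArg (eval fun v : ℕ × Bool =>
      if v = (code (i, true), false) ∨ v = (code (i, false), true) then (1 : K) else 0) h
    have h2 : code (i, false) ≠ code (i, true) := fun h => by simpa using code_inj h
    simp [v0, Rk, Matrix.trace_fin_two, al, be, h2, h2.symm] at h1
  · intro i x
    have h1 : ev (v1 K) ((S0 K).d i) = (X i * (C (v0 K i).trace + X i) : P1 K) • 1 := by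
      have : (S0 K).d i = mk0 K (ι K (i, false) * ι K (i, true)) := by rw [map_mul]; rfl
      rw [this, ev_mk, map_mul, evalG_ι, evalG_ι]
      simp only [Bool.false_eq_true, if_false, if_true, Matrix.mul_adjugate]
      congr 1
      simp [v1, v0, Rk, Matrix.det_fin_two, Matrix.trace_fin_two]
      ring
    rw [Q1_apply, Q1_apply, map_mul, h1, Matrix.smul_mul, one_mul, Bf_smul]
  · intro c hc
    obtain ⟨ε, h1, h2⟩ := ev0_T (K := K) c.cs hc
    obtain ⟨ε', h3, h4⟩ := Bf_word (K := K) c.w 1 0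
    refine ⟨ε * ε', mul_ne_zero h1 h3, ?_⟩
    rw [cc_Q1, StdInv.val, map_mul, h2, Matrix.mul_smul, mul_one, Bf_smul, S0_wd, ev_mk, h4,
      Cfg.E, omG_add]
    simp only [smul_eq_C_mul, map_mul]; ring
  · intro f
    obtain ⟨y, rfl⟩ := mk0_surj f
    induction y using word_induction with
    | mem w => exact ⟨_, by rw [← S0_wd]; exact (S0 K).wd_mem w le_rfl⟩
    | zero => exact ⟨0, by simp⟩
    | add x y h1 h2 =>
      obtain ⟨n, h1⟩ := h1
      obtain ⟨m, h2⟩ := h2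
      exact ⟨max n m, by
        rw [map_add]
        exact add_mem ((S0 K).Ale_mono (le_max_left _ _) h1) ((S0 K).Ale_mono (le_max_right _ _) h2)⟩
    | smul c x h =>
      obtain ⟨n, h⟩ := h
      exact ⟨n, by rw [map_smul]; exact Submodule.smul_mem _ _ h⟩
  · have : evalG K (v1 K) f = 0 := by
      ext1 a b
      refine MvPolynomial.funext fun x => MvPolynomial.funext fun y => ?_
      let ψ : P1 K →ₐ[K] K :=
        (aeval y : P0 K →ₐ[K] K).comp ((aeval x : P1 K →ₐ[P0 K] P0 K).restrictScalars K)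
      have h := map_evalG ψ (v1 K) f
      rw [hf] at h
      have h2 := congrFun (congrFun h a) b
      simpa [ψ] using h2
    rw [Q1_apply, ev_mk, this]; simp [Bf]

end Pool.Agent.Work.MP_228e0c_al.H45
end

-- merged part: Pool.Agent.Work.MP_228e0c_al.H45.Pairs
section
/-! Pairs `(r, s)` of noncommutative polynomials, where `s` is meant to represent
`tr(x₀) r(x₁, x₂, …)`, and the operators acting on them. -/

set_option autoImplicit false

namespace Pool.Agent.Work.MP_228e0c_al.H45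

open FreeAlgebra

abbrev F (K : Type) [Field K] : Type := FreeAlgebra K ℕ

abbrev Mt (K : Type) [Field K] : Type := F K × F K

def cs {α : Type} (a : α) (f : ℕ → α) : ℕ → α
  | 0 => a
  | n + 1 => f n

variable {K : Type} [Field K]

lemma hom_ext_cs {A : Type} [Ring A] [Algebra K A] {f g : F K →ₐ[K] A}
    (h0 : f (ι K 0) = g (ι K 0)) (h1 : ∀ n, f (ι K (n + 1)) = g (ι K (n + 1))) (x : F K) :
    f x = g x := by
  have : f = g := FreeAlgebra.hom_ext (funext fun n => by cases n; exacts [h0, h1 _])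
  rw [this]

lemma hom_ext' {X A : Type} [Ring A] [Algebra K A] {f g : FreeAlgebra K X →ₐ[K] A}
    (h : ∀ n, f (ι K n) = g (ι K n)) (x : FreeAlgebra K X) : f x = g x := by
  have : f = g := FreeAlgebra.hom_ext (funext h)
  rw [this]

noncomputable def sh (K : Type) [Field K] : F K →ₐ[K] F K := lift K fun i => ι K (i + 1)

noncomputable def sub0 (b : F K) : F K →ₐ[K] F K := lift K (cs b (ι K))

noncomputable def mul0 (b : F K) : F K →ₐ[K] F K :=
  lift K (cs (ι K 0 * sh K b) fun i => ι K (i + 1))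

noncomputable def plus (φ : F K →ₐ[K] F K) : F K →ₐ[K] F K :=
  lift K (cs (ι K 0) fun i => sh K (φ (ι K i)))

lemma lift_cs_sh {A : Type} [Ring A] [Algebra K A] (z : A) (v : ℕ → A) (r : F K) :
    lift K (cs z v) (sh K r) = lift K v r :=
  hom_ext' (f := (lift K (cs z v)).comp (sh K)) (fun n => by simp [sh, cs]) r

lemma lift_id (r : F K) : lift K (ι K) r = r :=
  hom_ext' (g := AlgHom.id K _) (fun n => by simp) r

lemma plus_zero (φ : F K →ₐ[K] F K) : plus φ (ι K 0) = ι K 0 := by simp [plus, cs]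

lemma plus_sh (φ : F K →ₐ[K] F K) (r : F K) : plus φ (sh K r) = sh K (φ r) :=
  hom_ext' (f := (plus φ).comp (sh K)) (g := (sh K).comp φ) (fun n => by simp [sh, plus, cs]) r

lemma sh_ι (n : ℕ) : sh K (ι K n) = ι K (n + 1) := by simp [sh]

lemma map_sub0 (φ : F K →ₐ[K] F K) (b s : F K) : φ (sub0 b s) = sub0 (φ b) (plus φ s) :=
  hom_ext_cs (f := φ.comp (sub0 b)) (g := (sub0 (φ b)).comp (plus φ))
    (by simp [sub0, plus, cs]) (fun n => by simp [sub0, plus, cs, lift_cs_sh, lift_id]) s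

lemma plus_mul0 (φ : F K →ₐ[K] F K) (b s : F K) : plus φ (mul0 b s) = mul0 (φ b) (plus φ s) := by
  refine hom_ext_cs (f := (plus φ).comp (mul0 b)) (g := (mul0 (φ b)).comp (plus φ)) ?_
    (fun n => ?_) s
  · simp [mul0, cs, plus_zero, plus_sh]
  · simp only [AlgHom.comp_apply, mul0, lift_ι_apply, cs]
    rw [← sh_ι, plus_sh, lift_cs_sh]; rfl

lemma plus_comp (ψ φ : F K →ₐ[K] F K) (s : F K) : plus ψ (plus φ s) = plus (ψ.comp φ) s :=
  hom_ext_cs (f := (plus ψ).comp (plus φ)) (by simp [plus_zero])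
    (fun n => by rw [AlgHom.comp_apply, ← sh_ι, plus_sh, plus_sh, plus_sh]; rfl) s

lemma lift_map {A : Type} [Ring A] [Algebra K A] (v : ℕ → A) (φ : F K →ₐ[K] F K) (r : F K) :
    lift K v (φ r) = lift K (fun i => lift K v (φ (ι K i))) r :=
  hom_ext' (f := (lift K v).comp φ) (fun n => by simp) r

lemma lift_sub0 {A : Type} [Ring A] [Algebra K A] (v : ℕ → A) (b s : F K) :
    lift K v (sub0 b s) = lift K (cs (lift K v b) v) s :=
  hom_ext_cs (f := (lift K v).comp (sub0 b)) (by simp [sub0, cs]) (fun n => by simp [sub0, cs]) s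

lemma lift_mul0 {A : Type} [Ring A] [Algebra K A] (z : A) (v : ℕ → A) (b s : F K) :
    lift K (cs z v) (mul0 b s) = lift K (cs (z * lift K v b) v) s :=
  hom_ext_cs (f := (lift K (cs z v)).comp (mul0 b)) (by simp [mul0, cs, lift_cs_sh])
    (fun n => by simp [mul0, cs]) s

lemma lift_plus {A : Type} [Ring A] [Algebra K A] (z : A) (v : ℕ → A) (φ : F K →ₐ[K] F K)
    (s : F K) : lift K (cs z v) (plus φ s) = lift K (cs z fun i => lift K v (φ (ι K i))) s :=
  hom_ext_cs (f := (lift K (cs z v)).comp (plus φ)) (by simp [plus, cs])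
    (fun n => by simp [plus, cs, lift_cs_sh]) s

noncomputable def Lm (p : F K) : Module.End K (Mt K) :=
  LinearMap.prodMap (LinearMap.mulLeft K p) (LinearMap.mulLeft K (sh K p))

noncomputable def Rm (q : F K) : Module.End K (Mt K) :=
  LinearMap.prodMap (LinearMap.mulRight K q) (LinearMap.mulRight K (sh K q))

noncomputable def act (φ : F K →ₐ[K] F K) : Module.End K (Mt K) :=
  LinearMap.prodMap φ.toLinearMap (plus φ).toLinearMap

noncomputable def tau (b : F K) : Module.End K (Mt K) where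
  toFun μ := (sub0 b μ.2, mul0 b μ.2 - (ι K 0 * sh K b + sh K b * ι K 0) * sh K μ.1 +
    ι K 0 * sh K (sub0 b μ.2) + sh K b * μ.2)
  map_add' μ ν := by
    simp only [Prod.fst_add, Prod.snd_add, map_add, mul_add, Prod.mk_add_mk]
    congr 1; abel
  map_smul' c μ := by
    simp only [Prod.smul_fst, Prod.smul_snd, map_smul, mul_smul_comm, RingHom.id_apply,
      Prod.smul_mk, smul_add, smul_sub]

lemma Lm_apply (p : F K) (μ : Mt K) : Lm p μ = (p * μ.1, sh K p * μ.2) := rfl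

lemma Rm_apply (q : F K) (μ : Mt K) : Rm q μ = (μ.1 * q, μ.2 * sh K q) := rfl

lemma act_apply (φ : F K →ₐ[K] F K) (μ : Mt K) : act φ μ = (φ μ.1, plus φ μ.2) := rfl

lemma tau_apply (b : F K) (μ : Mt K) : tau b μ =
    (sub0 b μ.2, mul0 b μ.2 - (ι K 0 * sh K b + sh K b * ι K 0) * sh K μ.1 +
    ι K 0 * sh K (sub0 b μ.2) + sh K b * μ.2) := rfl

lemma act_Lm (φ : F K →ₐ[K] F K) (p : F K) (μ : Mt K) : act φ (Lm p μ) = Lm (φ p) (act φ μ) := by
  simp [act_apply, Lm_apply, plus_sh]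

lemma act_Rm (φ : F K →ₐ[K] F K) (p : F K) (μ : Mt K) : act φ (Rm p μ) = Rm (φ p) (act φ μ) := by
  simp [act_apply, Rm_apply, plus_sh]

lemma act_tau (φ : F K →ₐ[K] F K) (b : F K) (μ : Mt K) :
    act φ (tau b μ) = tau (φ b) (act φ μ) := by
  simp [act_apply, tau_apply, plus_sh, map_sub0 φ, plus_mul0, plus_zero]

lemma act_act (ψ φ : F K →ₐ[K] F K) (μ : Mt K) : act ψ (act φ μ) = act (ψ.comp φ) μ := by
  simp [act_apply, plus_comp]

lemma Lm_Lm (p q : F K) (μ : Mt K) : Lm p (Lm q μ) = Lm (p * q) μ := by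
  simp [Lm_apply, mul_assoc]

lemma Rm_Rm (p q : F K) (μ : Mt K) : Rm p (Rm q μ) = Rm (q * p) μ := by
  simp [Rm_apply, mul_assoc]

lemma Rm_Lm (p q : F K) (μ : Mt K) : Rm p (Lm q μ) = Lm q (Rm p μ) := by
  simp [Rm_apply, Lm_apply, mul_assoc]

/-- The left action of the letters. -/
noncomputable def Lt (ξ : ℕ → F K) : G K →ₐ[K] Module.End K (Mt K) :=
  lift K fun l : L => if l.2 then tau (ξ l.1) - Lm (ξ l.1) else Lm (ξ l.1)

noncomputable def Rt' (ξ : ℕ → F K) : G K →ₐ[K] (Module.End K (Mt K))ᵐᵒᵖ :=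
  lift K fun l : L => MulOpposite.op (if l.2 then tau (ξ l.1) - Rm (ξ l.1) else Rm (ξ l.1))

/-- The right action of the letters. -/
noncomputable def Rt (ξ : ℕ → F K) : G K →ₗ[K] Module.End K (Mt K) :=
  (MulOpposite.opLinearEquiv K).symm.toLinearMap ∘ₗ (Rt' ξ).toLinearMap

lemma Lt_ι (ξ : ℕ → F K) (l : L) :
    Lt ξ (ι K l) = if l.2 then tau (ξ l.1) - Lm (ξ l.1) else Lm (ξ l.1) := by simp [Lt]

lemma Rt_ι (ξ : ℕ → F K) (l : L) :
    Rt ξ (ι K l) = if l.2 then tau (ξ l.1) - Rm (ξ l.1) else Rm (ξ l.1) := by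
  simp [Rt, Rt']

lemma Rt_mul (ξ : ℕ → F K) (a b : G K) (μ : Mt K) : Rt ξ (a * b) μ = Rt ξ b (Rt ξ a μ) := by
  simp [Rt]

lemma Rt_alg (ξ : ℕ → F K) (r : K) (μ : Mt K) : Rt ξ (algebraMap K _ r) μ = r • μ := by
  simp [Rt]

lemma Lt_mul (ξ : ℕ → F K) (a b : G K) (μ : Mt K) : Lt ξ (a * b) μ = Lt ξ a (Lt ξ b μ) := by
  simp

lemma Lt_alg (ξ : ℕ → F K) (r : K) (μ : Mt K) : Lt ξ (algebraMap K _ r) μ = r • μ := by
  simp

lemma Lt_mem (ξ : ℕ → F K) {M : Submodule K (Mt K)} (h1 : ∀ b, ∀ μ ∈ M, tau b μ ∈ M)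
    (h2 : ∀ b, ∀ μ ∈ M, Lm b μ ∈ M) (g : G K) : ∀ μ ∈ M, Lt ξ g μ ∈ M := by
  induction g using FreeAlgebra.induction with
  | grade0 r => intro μ h; rw [Lt_alg]; exact M.smul_mem _ h
  | grade1 l =>
    intro μ h
    rw [Lt_ι]
    split_ifs
    · exact sub_mem (h1 _ _ h) (h2 _ _ h)
    · exact h2 _ _ h
  | add a b ha hb => intro μ h; rw [map_add]; exact add_mem (ha μ h) (hb μ h)
  | mul a b ha hb => intro μ h; rw [Lt_mul]; exact ha _ (hb μ h)

lemma Rt_mem (ξ : ℕ → F K) {M : Submodule K (Mt K)} (h1 : ∀ b, ∀ μ ∈ M, tau b μ ∈ M)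
    (h2 : ∀ b, ∀ μ ∈ M, Rm b μ ∈ M) (g : G K) : ∀ μ ∈ M, Rt ξ g μ ∈ M := by
  induction g using FreeAlgebra.induction with
  | grade0 r => intro μ h; rw [Rt_alg]; exact M.smul_mem _ h
  | grade1 l =>
    intro μ h
    rw [Rt_ι]
    split_ifs
    · exact sub_mem (h1 _ _ h) (h2 _ _ h)
    · exact h2 _ _ h
  | add a b ha hb => intro μ h; rw [map_add]; exact add_mem (ha μ h) (hb μ h)
  | mul a b ha hb => intro μ h; rw [Rt_mul]; exact hb _ (ha μ h)

lemma act_Lt (φ : F K →ₐ[K] F K) (ξ : ℕ → F K) (g : G K) :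
    ∀ μ, act φ (Lt ξ g μ) = Lt (fun i => φ (ξ i)) g (act φ μ) := by
  induction g using FreeAlgebra.induction with
  | grade0 r => intro μ; simp
  | grade1 l =>
    intro μ
    rw [Lt_ι, Lt_ι]
    split_ifs
    · simp [act_tau, act_Lm]
    · exact act_Lm _ _ _
  | add a b ha hb => intro μ; simp [ha, hb]
  | mul a b ha hb => intro μ; rw [Lt_mul, Lt_mul, ha, hb]

lemma act_Rt (φ : F K →ₐ[K] F K) (ξ : ℕ → F K) (g : G K) :
    ∀ μ, act φ (Rt ξ g μ) = Rt (fun i => φ (ξ i)) g (act φ μ) := by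
  induction g using FreeAlgebra.induction with
  | grade0 r => intro μ; rw [Rt_alg, Rt_alg, map_smul]
  | grade1 l =>
    intro μ
    rw [Rt_ι, Rt_ι]
    split_ifs
    · simp [act_tau, act_Rm]
    · exact act_Rm _ _ _
  | add a b ha hb => intro μ; simp [ha, hb]
  | mul a b ha hb => intro μ; rw [Rt_mul, Rt_mul, hb, ha]

lemma Lt_ren (ξ : ℕ → F K) (σ : ℕ → ℕ) (g : G K) :
    Lt ξ (renG K σ g) = Lt (fun i => ξ (σ i)) g :=
  hom_ext' (f := (Lt ξ).comp (renG K σ)) (fun l => by simp [renG_ι, Lt_ι, rl]) g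

lemma Rt_ren (ξ : ℕ → F K) (σ : ℕ → ℕ) (g : G K) :
    Rt ξ (renG K σ g) = Rt (fun i => ξ (σ i)) g :=
  congrArg MulOpposite.unop (hom_ext' (f := (Rt' ξ).comp (renG K σ)) (g := Rt' fun i => ξ (σ i))
    (fun l => by simp [renG_ι, Rt', rl]) g)

noncomputable def incl (K : Type) [Field K] : F K →ₐ[K] G K := lift K fun i => ι K (i, false)

lemma Lt_incl (a : F K) : Lt (ι K) (incl K a) = Lm a := by
  induction a using FreeAlgebra.induction with
  | grade0 r =>
    refine LinearMap.ext fun μ => ?_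
    simp [Lm_apply, Algebra.algebraMap_eq_smul_one, Prod.ext_iff]
  | grade1 l => simp [incl, Lt_ι]
  | add a b ha hb =>
    refine LinearMap.ext fun μ => ?_
    simp [ha, hb, Lm_apply, add_mul]
  | mul a b ha hb =>
    refine LinearMap.ext fun μ => ?_
    rw [map_mul, Lt_mul, ha, hb, Lm_Lm]

lemma Rt_incl (a : F K) : Rt (ι K) (incl K a) = Rm a := by
  induction a using FreeAlgebra.induction with
  | grade0 r =>
    refine LinearMap.ext fun μ => ?_
    rw [AlgHom.commutes, Rt_alg]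
    simp [Rm_apply, Algebra.algebraMap_eq_smul_one, Prod.ext_iff]
  | grade1 l => simp [incl, Rt_ι]
  | add a b ha hb =>
    refine LinearMap.ext fun μ => ?_
    simp [ha, hb, Rm_apply, mul_add]
  | mul a b ha hb =>
    refine LinearMap.ext fun μ => ?_
    rw [map_mul, Rt_mul, ha, hb, Rm_Rm]

lemma evalG_incl (v : ℕ → M2 K) (a : F K) : evalG K v (incl K a) = lift K v a :=
  hom_ext' (f := (evalG K v).comp (incl K)) (fun l => by simp [incl, evalG_ι]) a

lemma evalG_ren (v : ℕ → M2 K) (σ : ℕ → ℕ) (g : G K) :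
    evalG K v (renG K σ g) = evalG K (fun i => v (σ i)) g :=
  hom_ext' (f := (evalG K v).comp (renG K σ)) (fun l => by simp [renG_ι, evalG_ι, rl]) g

/-- Consistent pairs. -/
noncomputable def Cons (K : Type) [Field K] : Submodule K (Mt K) where
  carrier := {μ | ∀ (z : M2 K) (v : ℕ → M2 K), lift K (cs z v) μ.2 = z.trace • lift K v μ.1}
  add_mem' := fun ha hb z v => by simp [ha z v, hb z v]
  zero_mem' := fun z v => by simp
  smul_mem' := fun c x hx z v => by simp [hx z v, smul_comm c]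

lemma Lm_cons (p : F K) : ∀ μ ∈ Cons K, Lm p μ ∈ Cons K := fun μ h z v => by
  simp [Lm_apply, lift_cs_sh, h z v]

lemma Rm_cons (p : F K) : ∀ μ ∈ Cons K, Rm p μ ∈ Cons K := fun μ h z v => by
  simp [Rm_apply, lift_cs_sh, h z v]

lemma act_cons (φ : F K →ₐ[K] F K) : ∀ μ ∈ Cons K, act φ μ ∈ Cons K := fun μ h z v => by
  simp only [act_apply]
  rw [lift_plus, h, lift_map v φ]

lemma lift_tau (b : F K) {μ : Mt K} (h : μ ∈ Cons K) (v : ℕ → M2 K) :
    lift K v (tau b μ).1 = (lift K v b).trace • lift K v μ.1 := by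
  simp only [tau_apply]
  rw [lift_sub0, h]

lemma trace_identity (z b r : M2 K) :
    (z * b).trace • r - (z * b + b * z) * r + z * (b.trace • r) + b * (z.trace • r) =
      z.trace • b.trace • r := by
  ext i j
  fin_cases i <;> fin_cases j <;>
    simp [Matrix.trace_fin_two, Matrix.mul_apply, Fin.sum_univ_two] <;> ring

lemma tau_cons (b : F K) : ∀ μ ∈ Cons K, tau b μ ∈ Cons K := fun μ h z v => by
  rw [lift_tau b h]
  simp only [tau_apply, map_add, map_sub, map_mul, lift_cs_sh, lift_mul0, lift_sub0, lift_ι_apply,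
    cs, h _ v]
  exact trace_identity _ _ _

lemma adj_eq (M : M2 K) : M.adjugate = M.trace • (1 : M2 K) - M := by
  rw [← add_adj, add_sub_cancel_left]

lemma lift_Lt (ξ : ℕ → F K) (v : ℕ → M2 K) (g : G K) : ∀ μ ∈ Cons K,
    lift K v (Lt ξ g μ).1 = evalG K (fun i => lift K v (ξ i)) g * lift K v μ.1 := by
  induction g using FreeAlgebra.induction with
  | grade0 r => intro μ _; simp [Algebra.algebraMap_eq_smul_one]
  | grade1 l =>
    intro μ h
    rw [Lt_ι, evalG_ι]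
    split_ifs
    · simp [lift_tau _ h, Lm_apply, adj_eq, sub_mul]
    · simp [Lm_apply]
  | add a b ha hb => intro μ h; simp [ha μ h, hb μ h, add_mul]
  | mul a b ha hb =>
    intro μ h
    rw [Lt_mul, ha _ (Lt_mem ξ tau_cons Lm_cons _ _ h), hb μ h, map_mul, mul_assoc]

lemma lift_Rt (ξ : ℕ → F K) (v : ℕ → M2 K) (g : G K) : ∀ μ ∈ Cons K,
    lift K v (Rt ξ g μ).1 = lift K v μ.1 * evalG K (fun i => lift K v (ξ i)) g := by
  induction g using FreeAlgebra.induction with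
  | grade0 r => intro μ _; rw [Rt_alg]; simp [Algebra.algebraMap_eq_smul_one]
  | grade1 l =>
    intro μ h
    rw [Rt_ι, evalG_ι]
    split_ifs
    · simp [lift_tau _ h, Rm_apply, adj_eq, mul_sub]
    · simp [Rm_apply]
  | add a b ha hb => intro μ h; simp [ha μ h, hb μ h, mul_add]
  | mul a b ha hb =>
    intro μ h
    rw [Rt_mul, hb _ (Rt_mem ξ tau_cons Rm_cons _ _ h), ha μ h, map_mul, mul_assoc]

end Pool.Agent.Work.MP_228e0c_al.H45
end

-- merged part: Pool.Agent.Work.MP_228e0c_al.H45.Cond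
section
/-! The conductor and its finite generation up to renaming of variables. -/

set_option autoImplicit false

namespace Pool.Agent.Work.MP_228e0c_al.H45

open FreeAlgebra

variable {K : Type} [Field K]

noncomputable def ren (K : Type) [Field K] (ρ : ℕ → ℕ) : F K →ₐ[K] F K :=
  lift K fun i => ι K (ρ i)

lemma ren_ι (ρ : ℕ → ℕ) (i : ℕ) : ren K ρ (ι K i) = ι K (ρ i) := by simp [ren]

noncomputable def ret (K : Type) [Field K] : G K →ₐ[K] F K :=
  lift K fun l : L => if l.2 then - ι K l.1 else ι K l.1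

lemma ret_incl (a : F K) : ret K (incl K a) = a :=
  hom_ext' (f := (ret K).comp (incl K)) (g := AlgHom.id K _) (fun l => by simp [ret, incl]) a

lemma ret_ren (ρ : ℕ → ℕ) (g : G K) : ret K (renG K ρ g) = ren K ρ (ret K g) :=
  hom_ext' (f := (ret K).comp (renG K ρ)) (g := (ren K ρ).comp (ret K))
    (fun l => by obtain ⟨i, b⟩ := l; cases b <;> simp [ret, renG_ι, rl, ren_ι]) g

lemma ren_incl (ρ : ℕ → ℕ) (a : F K) : renG K ρ (incl K a) = incl K (ren K ρ a) :=
  hom_ext' (f := (renG K ρ).comp (incl K)) (g := (incl K).comp (ren K ρ))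
    (fun l => by simp [incl, renG_ι, rl, ren_ι]) a

lemma renG_renG (σ ρ : ℕ → ℕ) (g : G K) : renG K σ (renG K ρ g) = renG K (σ ∘ ρ) g :=
  hom_ext' (f := (renG K σ).comp (renG K ρ)) (fun l => by simp [renG_ι, rl]) g

lemma ren_comp (σ ρ : ℕ → ℕ) : (ren K σ).comp (ren K ρ) = ren K (σ ∘ ρ) :=
  AlgHom.ext (hom_ext' fun l => by simp [ren_ι])

lemma I0_patterns : ∃ P : Set (G K), P.Finite ∧ P ⊆ I0set K ∧
    ∀ x ∈ I0set K, ∃ ρ, ∃ p ∈ P, x = renG K ρ p := by
  refine ⟨Set.range (fun t : Bool × Bool × Bool => cm K (0, t.1) (1, t.2.1) * ι K (2, t.2.2) -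
      ι K (2, t.2.2) * cm K (0, t.1) (1, t.2.1)) ∪
    Set.range (fun t : Bool × Bool × Bool × Bool =>
      cm K (0, t.1) (1, t.2.1) * cm K (2, t.2.2.1) (3, t.2.2.2) +
      cm K (0, t.1) (2, t.2.2.1) * cm K (1, t.2.1) (3, t.2.2.2)),
    (Set.finite_range _).union (Set.finite_range _), ?_, ?_⟩
  · rintro _ (⟨t, rfl⟩ | ⟨t, rfl⟩)
    · exact Or.inl ⟨_, _, _, rfl⟩
    · exact Or.inr ⟨_, _, _, _, rfl⟩
  · rintro _ (⟨a, b, c, rfl⟩ | ⟨u, a, b, y, rfl⟩)
    · exact ⟨cs a.1 (cs b.1 fun _ => c.1), _, Or.inl ⟨(a.2, b.2, c.2), rfl⟩,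
        by simp [renG_cm, renG_ι, rl, cs]⟩
    · exact ⟨cs u.1 (cs a.1 (cs b.1 fun _ => y.1)), _, Or.inr ⟨(u.2, a.2, b.2, y.2), rfl⟩,
        by simp [renG_cm, rl, cs]⟩

lemma wstar_map (ρ : ℕ → ℕ) (w : List L) : (wstar w).map (rl ρ) = wstar (w.map (rl ρ)) := by
  simp [wstar, Function.comp_def, rl, lstar]

lemma N0_patterns : ∃ P : Set (G K), P.Finite ∧ P ⊆ N0set K ∧
    ∀ x ∈ N0set K, ∃ ρ, ∃ p ∈ P, x = renG K ρ p := by
  let r1 : List L → L → G K := fun w z =>
    (wdF K w + wdF K (wstar w)) * ι K z - ι K z * (wdF K w + wdF K (wstar w))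
  have hr : ∀ ρ w z, renG K ρ (r1 w z) = r1 (w.map (rl ρ)) (rl ρ z) := by
    intro ρ w z
    simp [r1, renG_wdF, renG_ι, wstar_map]
  refine ⟨Set.range (fun t : Fin 4 × Bool × Bool × Bool × Bool =>
      r1 (List.take t.1 [(1, t.2.1), (2, t.2.2.1), (3, t.2.2.2.1)]) (0, t.2.2.2.2)) ∪
    Set.range (fun b : Bool => ι K (0, false) * ι K (0, true) * ι K (1, b) -
      ι K (1, b) * (ι K (0, false) * ι K (0, true))),
    (Set.finite_range _).union (Set.finite_range _), ?_, ?_⟩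
  · rintro _ (⟨t, rfl⟩ | ⟨t, rfl⟩)
    · exact Or.inl ⟨_, by simp, _, rfl⟩
    · exact Or.inr ⟨_, _, rfl⟩
  · rintro _ (⟨w, hw, z, rfl⟩ | ⟨i, z, rfl⟩)
    · show ∃ ρ, ∃ p ∈ _, r1 w z = _
      match w, hw with
      | [], _ =>
        exact ⟨fun _ => z.1, _, Or.inl ⟨(0, false, false, false, z.2), rfl⟩,
          by rw [hr]; rfl⟩
      | [a], _ =>
        exact ⟨cs z.1 fun _ => a.1, _, Or.inl ⟨(1, a.2, false, false, z.2), rfl⟩,
          by rw [hr]; rfl⟩
      | [a, b], _ =>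
        exact ⟨cs z.1 (cs a.1 fun _ => b.1), _, Or.inl ⟨(2, a.2, b.2, false, z.2), rfl⟩,
          by rw [hr]; rfl⟩
      | [a, b, c], _ =>
        exact ⟨cs z.1 (cs a.1 (cs b.1 fun _ => c.1)), _, Or.inl ⟨(3, a.2, b.2, c.2, z.2), rfl⟩,
          by rw [hr]; rfl⟩
      | _ :: _ :: _ :: _ :: _, h => simp at h; omega
    · exact ⟨cs i fun _ => z.1, _, Or.inr ⟨z.2, rfl⟩, by simp [renG_ι, rl, cs]⟩

lemma ren_bound (g : G K) : ∃ n, ∀ ρ ρ' : ℕ → ℕ, (∀ i, i < n → ρ i = ρ' i) →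
    renG K ρ g = renG K ρ' g := by
  induction g using FreeAlgebra.induction with
  | grade0 r => exact ⟨0, fun ρ ρ' _ => by simp⟩
  | grade1 l => exact ⟨l.1 + 1, fun ρ ρ' h => by simp [renG_ι, rl, h]⟩
  | add a b ha hb =>
    obtain ⟨n, ha⟩ := ha
    obtain ⟨m, hb⟩ := hb
    exact ⟨n + m, fun ρ ρ' h => by
      rw [map_add, map_add, ha ρ ρ' fun i hi => h i (by omega), hb ρ ρ' fun i hi => h i (by omega)]⟩
  | mul a b ha hb =>
    obtain ⟨n, ha⟩ := ha
    obtain ⟨m, hb⟩ := hb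
    exact ⟨n + m, fun ρ ρ' h => by
      rw [map_mul, map_mul, ha ρ ρ' fun i hi => h i (by omega), hb ρ ρ' fun i hi => h i (by omega)]⟩

/-- The first coordinates of consistent pairs. -/
noncomputable def I1 (K : Type) [Field K] : Submodule K (F K) :=
  (Cons K).map (LinearMap.fst K _ _)

lemma I1_mul {r : F K} (h : r ∈ I1 K) (a b : F K) : a * r * b ∈ I1 K := by
  obtain ⟨μ, hμ, rfl⟩ := h
  exact ⟨Rm b (Lm a μ), Rm_cons _ _ (Lm_cons _ _ hμ), rfl⟩

lemma I1_map {r : F K} (h : r ∈ I1 K) (φ : F K →ₐ[K] F K) : φ r ∈ I1 K := by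
  obtain ⟨μ, hμ, rfl⟩ := h
  exact ⟨act φ μ, act_cons _ _ hμ, rfl⟩

lemma comm_identity (z u d : M2 K) (hu : u.trace = 0) :
    (z * u + u * z) * d - d * (z * u + u * z) = z.trace • (u * d - d * u) := by
  have h : u 1 1 = - u 0 0 := by
    rw [Matrix.trace_fin_two] at hu
    exact eq_neg_of_add_eq_zero_right hu
  ext i j
  fin_cases i <;> fin_cases j <;>
    simp [Matrix.trace_fin_two, Matrix.mul_apply, Fin.sum_univ_two, h] <;> ring

lemma I1_comm (b c d : F K) : (b * c - c * b) * d - d * (b * c - c * b) ∈ I1 K := by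
  refine ⟨((b * c - c * b) * d - d * (b * c - c * b), (ι K 0 * sh K (b * c - c * b) + sh K (b * c - c * b) * ι K 0) * sh K d -
    sh K d * (ι K 0 * sh K (b * c - c * b) + sh K (b * c - c * b) * ι K 0)), fun z v => ?_, rfl⟩
  simp only [map_sub, map_mul, map_add, lift_cs_sh, lift_ι_apply, cs]
  exact comm_identity z (lift K v b * lift K v c - lift K v c * lift K v b) (lift K v d)
    (by rw [Matrix.trace_sub, Matrix.trace_mul_comm, sub_self])

lemma ret_I0 {x : G K} (hx : x ∈ I0set K) : ret K x ∈ I1 K := by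
  rcases hx with ⟨a, b, c, rfl⟩ | ⟨u, a, b, y, rfl⟩
  · simp only [cm, map_sub, map_mul]
    exact I1_comm _ _ _
  · simp only [cm, map_sub, map_mul, map_add]
    generalize ret K (ι K u) = u
    generalize ret K (ι K a) = a
    generalize ret K (ι K b) = b
    generalize ret K (ι K y) = y
    have := sub_mem (add_mem (I1_mul (I1_comm y b a) u 1) (I1_mul (I1_comm u b a) 1 y))
      (I1_comm (u * y) b a)
    convert this using 1
    noncomm_ring

lemma evalG_letter (v : ℕ → M2 K) (l : L) :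
    ∃ c : K, evalG K v (ι K l) = c • (1 : M2 K) + lift K v (ret K (ι K l)) := by
  obtain ⟨i, b⟩ := l
  cases b
  · exact ⟨0, by simp [evalG_ι, ret]⟩
  · exact ⟨(v i).trace, by simp [evalG_ι, ret, adj_eq, sub_eq_add_neg]⟩

lemma evalG_cm (v : ℕ → M2 K) (a b : L) : evalG K v (cm K a b) = lift K v (ret K (cm K a b)) := by
  obtain ⟨c, hc⟩ := evalG_letter v a
  obtain ⟨d, hd⟩ := evalG_letter v b
  simp only [cm, map_sub, map_mul, hc, hd, mul_add, add_mul, smul_mul_assoc, mul_smul_comm,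
    one_mul, mul_one, smul_add, smul_comm c d]
  abel

lemma evalG_I0 (v : ℕ → M2 K) {x : G K} (hx : x ∈ I0set K) :
    evalG K v x = lift K v (ret K x) := by
  rcases hx with ⟨a, b, c, rfl⟩ | ⟨u, a, b, y, rfl⟩
  · obtain ⟨d, hd⟩ := evalG_letter v c
    simp only [map_sub, map_mul, evalG_cm, hd, mul_add, add_mul, smul_mul_assoc, mul_smul_comm,
      one_mul, mul_one]
    abel
  · simp only [map_add, map_mul, evalG_cm]

/-- The elements whose values lie in the conductor. -/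
noncomputable def Hc (K : Type) [Field K] : Submodule K (G K) where
  carrier := {g | ∃ μ ∈ Cons K, ∀ v : ℕ → M2 K, lift K v μ.1 = evalG K v g}
  add_mem' := fun ⟨μ, h1, h2⟩ ⟨ν, h3, h4⟩ => ⟨μ + ν, add_mem h1 h3, fun v => by simp [h2, h4]⟩
  zero_mem' := ⟨0, zero_mem _, fun v => by simp⟩
  smul_mem' := fun c _ ⟨μ, h1, h2⟩ => ⟨c • μ, Submodule.smul_mem _ _ h1, fun v => by simp [h2]⟩

lemma Hc_left (g : G K) : ∀ h ∈ Hc K, g * h ∈ Hc K := fun _ ⟨μ, h1, h2⟩ =>
  ⟨Lt (ι K) g μ, Lt_mem _ tau_cons Lm_cons _ _ h1, fun v => by simp [lift_Lt _ _ _ _ h1, h2]⟩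

lemma Hc_right (g : G K) : ∀ h ∈ Hc K, h * g ∈ Hc K := fun _ ⟨μ, h1, h2⟩ =>
  ⟨Rt (ι K) g μ, Rt_mem _ tau_cons Rm_cons _ _ h1, fun v => by simp [lift_Rt _ _ _ _ h1, h2]⟩

lemma I0_le_Hc : I0 K ≤ Hc K := by
  refine bi_le fun a x b hx => Hc_right _ _ (Hc_left _ _ ?_)
  obtain ⟨μ, h1, h2⟩ := ret_I0 hx
  exact ⟨μ, h1, fun v => by rw [evalG_I0 v hx, ← h2]; rfl⟩

lemma FB_ext {S W : Type} [AddCommGroup W] [Module K W] {f g : FB K S →ₗ[K] W}
    (h : ∀ s p q, f (tm K s p q) = g (tm K s p q)) (x : FB K S) : f x = g x := by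
  induction x using FB_induction with
  | h s p q => exact h s p q
  | zero => simp
  | add x y h1 h2 => rw [map_add, map_add, h1, h2]

theorem cond_fg : ∃ W : Set (Mt K), W.Finite ∧ W ⊆ Cons K ∧ ∀ μ ∈ Cons K,
    μ.1 ∈ Submodule.span K {x | ∃ a b ρ, ∃ w ∈ W, x = a * ren K ρ w.1 * b} := by
  let ε : FB K (Sy Unit 0) →ₗ[K] F K :=
    mkV fun _ => (LinearMap.mul K (F K)).compl₁₂ (ret K).toLinearMap (ret K).toLinearMap
  have hε : ∀ s p q, ε (tm K s p q) = ret K p * ret K q := fun s p q => by simp [ε, mkV_tm]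
  have hop : ∀ g σ g' z, ε (opV g σ g' z) = ret K g * ren K σ (ε z) * ret K g' := by
    intro g σ g' z
    refine FB_ext (f := ε ∘ₗ opV g σ g') (g := LinearMap.mulRight K (ret K g') ∘ₗ
      LinearMap.mulLeft K (ret K g) ∘ₗ (ren K σ).toLinearMap ∘ₗ ε) (fun s p q => ?_) z
    simp [opV_tm, hε, ret_ren, mul_assoc]
  obtain ⟨G0, h1, h2, h3⟩ := noeth ((I1 K).comap ε) (fun g σ g' z hz => by
    rw [Submodule.mem_comap, hop]; exact I1_mul (I1_map hz _) _ _)
  obtain ⟨P, p1, p2, p3⟩ := I0_patterns (K := K)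
  have hch : ∀ r ∈ ret K '' P ∪ ε '' G0, ∃ μ ∈ Cons K, μ.1 = r := by
    rintro _ (⟨x, hx, rfl⟩ | ⟨z, hz, rfl⟩)
    · exact ret_I0 (p2 hx)
    · exact h2 hz
  choose! m hm1 hm2 using hch
  refine ⟨m '' (ret K '' P ∪ ε '' G0), ((p1.image _).union (h1.image _)).image _, ?_, ?_⟩
  · rintro _ ⟨r, hr, rfl⟩; exact hm1 r hr
  intro μ hμ
  set S := Submodule.span K
    {x | ∃ a b ρ, ∃ w ∈ m '' (ret K '' P ∪ ε '' G0), x = a * ren K ρ w.1 * b} with hS
  have gen : ∀ r ∈ ret K '' P ∪ ε '' G0, ∀ a b ρ, a * ren K ρ r * b ∈ S := fun r hr a b ρ =>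
    Submodule.subset_span ⟨a, b, ρ, _, ⟨r, hr, rfl⟩, by rw [hm2 r hr]⟩
  have hI : ∀ x ∈ I0 K, ∀ a b, a * ret K x * b ∈ S := by
    intro x hx
    refine bi_induction (p := fun x => ∀ a b, a * ret K x * b ∈ S) ?_ (by simp) ?_ ?_ hx
    · intro a' x b' hx a b
      obtain ⟨ρ, p, hp, rfl⟩ := p3 x hx
      have := gen _ (Or.inl ⟨p, hp, rfl⟩) (a * ret K a') (ret K b' * b) ρ
      simpa [ret_ren, mul_assoc] using this
    · intro x y h h' a b
      rw [map_add, mul_add, add_mul]; exact add_mem (h a b) (h' a b)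
    · intro c x h a b
      rw [map_smul, mul_smul_comm, smul_mul_assoc]; exact S.smul_mem _ (h a b)
  have hle : Q0 K _ ⊔ Submodule.span K {y | ∃ g σ g', ∃ z ∈ G0, y = opV g σ g' z} ≤
      S.comap ε := by
    refine sup_le (Submodule.span_le.2 ?_) (Submodule.span_le.2 ?_)
    · rintro _ ⟨s, p, q, h | h, rfl⟩
      · simpa [hε] using hI p h 1 (ret K q)
      · simpa [hε] using hI q h (ret K p) 1
    · rintro _ ⟨g, σ, g', z, hz, rfl⟩
      simpa [hop] using gen _ (Or.inr ⟨z, hz, rfl⟩) (ret K g) (ret K g') σ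
  have e : ε (tm K ((), Fin.elim0) (incl K μ.1) 1) = μ.1 := by simp [hε, ret_incl]
  rw [← e]
  exact hle (h3 (by rw [Submodule.mem_comap, e]; exact ⟨μ, hμ, rfl⟩))

end Pool.Agent.Work.MP_228e0c_al.H45
end

-- merged part: Pool.Agent.Work.MP_228e0c_al.H45.Proj
section
/-! Left ideals of a free algebra are projective, in the form of a lifting statement. -/

set_option autoImplicit false

namespace Pool.Agent.Work.MP_228e0c_al.H45

open FreeAlgebra

theorem exists_left_lift {K X M A : Type} [Field K] [AddCommGroup M] [Module K M] [Ring A]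
    [Algebra K A] (H : Submodule K (FreeAlgebra K X)) (hH : ∀ g, ∀ h ∈ H, g * h ∈ H)
    (Lt : FreeAlgebra K X →ₐ[K] Module.End K M) (M1 : Submodule K M)
    (hM : ∀ g, ∀ μ ∈ M1, Lt g μ ∈ M1) (pm : M →ₗ[K] A) (π : FreeAlgebra K X →ₐ[K] A)
    (hp : ∀ g, ∀ μ ∈ M1, pm (Lt g μ) = π g * pm μ) (hs : ∀ h ∈ H, ∃ μ ∈ M1, pm μ = π h) :
    ∃ Λ : FreeAlgebra K X →ₗ[K] M, (∀ g, Λ g ∈ M1) ∧ (∀ g, ∀ h ∈ H, Λ (g * h) = Lt g (Λ h)) ∧
      ∀ h ∈ H, pm (Λ h) = π h := by
  obtain ⟨C, hC⟩ := H.exists_isCompl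
  let η : FreeAlgebra K X →ₗ[K] FreeAlgebra K X := H.subtype ∘ₗ H.projectionOnto C hC
  have hη1 : ∀ g, η g ∈ H := fun g => (H.projectionOnto C hC g).2
  have hη2 : ∀ h ∈ H, η h = h := fun h hh =>
    congrArg Subtype.val (Submodule.projectionOnto_apply_left hC ⟨h, hh⟩)
  let b := Module.Basis.ofVectorSpace K (FreeAlgebra K X)
  choose μ hμ1 hμ2 using fun i => hs _ (hη1 (b i))
  let κ : FreeAlgebra K X →ₗ[K] M := b.constr K μ
  have hκ : ∀ g, κ g ∈ M1 ∧ pm (κ g) = π (η g) := by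
    intro g
    have hg : g ∈ Submodule.span K (Set.range b) := by rw [b.span_eq]; trivial
    induction hg using Submodule.span_induction with
    | mem x hx =>
      obtain ⟨i, rfl⟩ := hx
      rw [show κ (b i) = μ i from b.constr_basis K μ i]
      exact ⟨hμ1 i, hμ2 i⟩
    | zero => simp
    | add x y _ _ h1 h2 => simp only [map_add]; exact ⟨add_mem h1.1 h2.1, by rw [h1.2, h2.2]⟩
    | smul c x _ h => simp only [map_smul]; exact ⟨M1.smul_mem _ h.1, by rw [h.2]⟩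
  let Ψ : FreeAlgebra K X →ₐ[K] Module.End K (M × FreeAlgebra K X) := FreeAlgebra.lift K fun l =>
    LinearMap.prod
      (LinearMap.coprod (Lt (ι K l)) (κ ∘ₗ LinearMap.mulLeft K (ι K l) ∘ₗ (LinearMap.id - η)))
      (LinearMap.mulLeft K (ι K l) ∘ₗ LinearMap.snd K _ _)
  have hΨ : ∀ l m a, Ψ (ι K l) (m, a) = (Lt (ι K l) m + κ (ι K l * (a - η a)), ι K l * a) := by
    intro l m a
    simp [Ψ]
  have h1 : ∀ g m, ∀ h ∈ H, Ψ g (m, h) = (Lt g m, g * h) := by
    intro g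
    induction g using FreeAlgebra.induction with
    | grade0 r => intro m h _; simp [Algebra.algebraMap_eq_smul_one]
    | grade1 l => intro m h hh; rw [hΨ, hη2 h hh]; simp
    | add a b ha hb => intro m h hh; simp [ha m h hh, hb m h hh, add_mul]
    | mul a b ha hb =>
      intro m h hh
      rw [map_mul, Module.End.mul_apply, hb m h hh, ha _ _ (hH _ _ hh), map_mul,
        Module.End.mul_apply, mul_assoc]
  have h2 : ∀ g m a, m ∈ M1 → pm m = π (η a) →
      (Ψ g (m, a)).1 ∈ M1 ∧ (Ψ g (m, a)).2 = g * a ∧ pm (Ψ g (m, a)).1 = π (η (g * a)) := by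
    intro g
    induction g using FreeAlgebra.induction with
    | grade0 r =>
      intro m a h h'
      simp [Algebra.algebraMap_eq_smul_one, M1.smul_mem _ h, h']
    | grade1 l =>
      intro m a h h'
      rw [hΨ]
      refine ⟨add_mem (hM _ _ h) (hκ _).1, rfl, ?_⟩
      rw [map_add, hp _ _ h, (hκ _).2, h', ← map_mul, ← map_add, ← hη2 _ (hH (ι K l) _ (hη1 a)),
        ← map_add, ← mul_add, add_sub_cancel]
    | add x y hx hy =>
      intro m a h h'
      obtain ⟨a1, a2, a3⟩ := hx m a h h'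
      obtain ⟨b1, b2, b3⟩ := hy m a h h'
      simp [add_mul, add_mem a1 b1, a2, a3, b2, b3]
    | mul x y hx hy =>
      intro m a h h'
      obtain ⟨b1, b2, b3⟩ := hy m a h h'
      have := hx _ (y * a) b1 b3
      rw [← b2] at this
      rw [map_mul, Module.End.mul_apply, mul_assoc, ← b2]
      exact this
  let Λ : FreeAlgebra K X →ₗ[K] M :=
    LinearMap.fst K _ _ ∘ₗ LinearMap.applyₗ (κ 1, (1 : FreeAlgebra K X)) ∘ₗ Ψ.toLinearMap
  have hΛ : ∀ g, Λ g = (Ψ g (κ 1, 1)).1 := fun g => rfl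
  refine ⟨Λ, fun g => (h2 g _ _ (hκ 1).1 (hκ 1).2).1, fun g h hh => ?_, fun h hh => ?_⟩
  · have e : Ψ h (κ 1, 1) = (Λ h, h) :=
      Prod.ext rfl (by rw [(h2 h _ _ (hκ 1).1 (hκ 1).2).2.1, mul_one])
    rw [hΛ, map_mul, Module.End.mul_apply, e, h1 g _ h hh]
  · rw [hΛ, (h2 h _ _ (hκ 1).1 (hκ 1).2).2.2, mul_one, hη2 h hh]

end Pool.Agent.Work.MP_228e0c_al.H45
end

-- merged part: Pool.Agent.Work.MP_228e0c_al.H45.Glue
section
/-! The bimodule spanned by lifts of the generators of the conductor, modulo a T-ideal. -/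

set_option autoImplicit false

namespace Pool.Agent.Work.MP_228e0c_al.H45

open FreeAlgebra

variable {K : Type} [Field K]

/-- The T-ideal generated by a set. -/
noncomputable def TI (S : Set (F K)) : Submodule K (F K) :=
  Submodule.span K {x | ∃ (a b : F K) (φ : F K →ₐ[K] F K) (s : F K), s ∈ S ∧ x = a * φ s * b}

lemma TI_mul {S : Set (F K)} {x : F K} (hx : x ∈ TI S) (a b : F K) (φ : F K →ₐ[K] F K) :
    a * φ x * b ∈ TI S := by
  induction hx using Submodule.span_induction with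
  | mem x hx =>
    obtain ⟨a', b', ψ, s, hs, rfl⟩ := hx
    exact Submodule.subset_span ⟨a * φ a', φ b' * b, φ.comp ψ, s, hs, by simp [mul_assoc]⟩
  | zero => simp
  | add x y _ _ h1 h2 => rw [map_add, mul_add, add_mul]; exact add_mem h1 h2
  | smul c x _ h => rw [map_smul, mul_smul_comm, smul_mul_assoc]; exact Submodule.smul_mem _ _ h

lemma TI_map {S : Set (F K)} {x : F K} (hx : x ∈ TI S) (φ : F K →ₐ[K] F K) : φ x ∈ TI S := by
  simpa using TI_mul hx 1 1 φ

lemma TI_left {S : Set (F K)} {x : F K} (hx : x ∈ TI S) (a : F K) : a * x ∈ TI S := by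
  simpa using TI_mul hx a 1 (AlgHom.id K _)

lemma TI_right {S : Set (F K)} {x : F K} (hx : x ∈ TI S) (a : F K) : x * a ∈ TI S := by
  simpa using TI_mul hx 1 a (AlgHom.id K _)

lemma TI_subset {S : Set (F K)} {x : F K} (hx : x ∈ S) : x ∈ TI S :=
  Submodule.subset_span ⟨1, 1, AlgHom.id K _, x, hx, by simp⟩

lemma TI_eval {S : Set (F K)} (hS : ∀ s ∈ S, ∀ v : ℕ → M2 K, lift K v s = 0) {x : F K}
    (hx : x ∈ TI S) (v : ℕ → M2 K) : lift K v x = 0 := by
  induction hx using Submodule.span_induction with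
  | mem x hx =>
    obtain ⟨a', b', ψ, s, hs, rfl⟩ := hx
    rw [map_mul, map_mul, lift_map v ψ, hS s hs, mul_zero, zero_mul]
  | zero => simp
  | add x y _ _ h1 h2 => rw [map_add, h1, h2, add_zero]
  | smul c x _ h => rw [map_smul, h, smul_zero]

noncomputable def UU (S : Set (F K)) : Submodule K (Mt K) := (TI S).prod (TI S)

section
variable {S : Set (F K)}

lemma UU_act (φ : F K →ₐ[K] F K) : ∀ μ ∈ UU S, act φ μ ∈ UU S := fun _ h =>
  ⟨TI_map h.1 _, TI_map h.2 _⟩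

lemma UU_Lm (p : F K) : ∀ μ ∈ UU S, Lm p μ ∈ UU S := fun _ h => ⟨TI_left h.1 _, TI_left h.2 _⟩

lemma UU_Rm (p : F K) : ∀ μ ∈ UU S, Rm p μ ∈ UU S := fun _ h => ⟨TI_right h.1 _, TI_right h.2 _⟩

lemma UU_tau (p : F K) : ∀ μ ∈ UU S, tau p μ ∈ UU S := fun _ h =>
  ⟨TI_map h.2 _, add_mem (add_mem (sub_mem (TI_map h.2 _) (TI_left (TI_map h.1 _) _))
    (TI_left (TI_map (TI_map h.2 _) _) _)) (TI_left h.2 _)⟩

lemma UU_Lt (ξ : ℕ → F K) (g : G K) : ∀ μ ∈ UU S, Lt ξ g μ ∈ UU S := Lt_mem ξ UU_tau UU_Lm g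

lemma UU_Rt (ξ : ℕ → F K) (g : G K) : ∀ μ ∈ UU S, Rt ξ g μ ∈ UU S := Rt_mem ξ UU_tau UU_Rm g

end

section
variable {J : Type} (m : J → Mt K)

/-- The span of the substitution instances. -/
noncomputable def BB : Submodule K (Mt K) :=
  Submodule.span K {ν | ∃ j p q φ, ν = Lm p (Rm q (act φ (m j)))}

/-- The generic instance, in the odd variables. -/
noncomputable def gen (j : J) : Mt K :=
  Lm (ι K 1) (Rm (ι K 3) (act (ren K fun i => 2 * i + 5) (m j)))

lemma gen_mem (j : J) : gen m j ∈ BB m := Submodule.subset_span ⟨j, _, _, _, rfl⟩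

lemma exists_inst (j : J) (p q : F K) (φ : F K →ₐ[K] F K) (ξ : ℕ → F K) :
    ∃ ψ : F K →ₐ[K] F K, (∀ i, ψ (ι K (2 * i)) = ξ i) ∧
      act ψ (gen m j) = Lm p (Rm q (act φ (m j))) := by
  refine ⟨lift K fun n => if n % 2 = 0 then ξ (n / 2) else cs p (cs q fun i => φ (ι K i)) (n / 2),
    fun i => by simp, ?_⟩
  rw [gen, act_Lm, act_Rm, act_act]
  congr 3
  · simp [cs]
  · simp [cs]
  · congr 1
    refine AlgHom.ext (hom_ext' fun i => ?_)
    have h1 : ¬ (2 * i + 5) % 2 = 0 := by omega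
    have h2 : (2 * i + 5) / 2 = i + 1 + 1 := by omega
    simp only [AlgHom.comp_apply, ren_ι, lift_ι_apply, if_neg h1, h2, cs]

lemma BB_map {A : Module.End K (Mt K)} {M : Submodule K (Mt K)}
    (h : ∀ j p q φ, A (Lm p (Rm q (act φ (m j)))) ∈ M) : ∀ μ ∈ BB m, A μ ∈ M := by
  have : BB m ≤ M.comap A := Submodule.span_le.2 (by rintro _ ⟨j, p, q, φ, rfl⟩; exact h j p q φ)
  exact this

lemma BB_act (ψ : F K →ₐ[K] F K) : ∀ μ ∈ BB m, act ψ μ ∈ BB m :=
  BB_map m fun j p q φ => Submodule.subset_span ⟨j, _, _, _, by rw [act_Lm, act_Rm, act_act]⟩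

lemma BB_Lm (a : F K) : ∀ μ ∈ BB m, Lm a μ ∈ BB m :=
  BB_map m fun j p q φ => Submodule.subset_span ⟨j, _, _, _, by rw [Lm_Lm]⟩

lemma BB_Rm (a : F K) : ∀ μ ∈ BB m, Rm a μ ∈ BB m :=
  BB_map m fun j p q φ => Submodule.subset_span ⟨j, _, _, _, by rw [Rm_Lm, Rm_Rm]⟩

lemma BB_cons (hm : ∀ j, m j ∈ Cons K) : BB m ≤ Cons K :=
  Submodule.span_le.2 (by
    rintro _ ⟨j, p, q, φ, rfl⟩
    exact Lm_cons _ _ (Rm_cons _ _ (act_cons _ _ (hm j))))

lemma act_mem_BB (φ : F K →ₐ[K] F K) (j : J) : act φ (m j) ∈ BB m :=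
  Submodule.subset_span ⟨j, 1, 1, φ, by simp [Lm_apply, Rm_apply]⟩

variable (S : Set (F K))

noncomputable def M1 : Submodule K (Mt K) := UU S ⊔ BB m

variable {m S}

lemma M1_map {A : Module.End K (Mt K)} {M : Submodule K (Mt K)} (h1 : ∀ μ ∈ UU S, A μ ∈ M)
    (h2 : ∀ μ ∈ BB m, A μ ∈ M) : ∀ μ ∈ M1 m S, A μ ∈ M := by
  have : M1 m S ≤ M.comap A := sup_le h1 h2
  exact this

lemma M1_Lm (a : F K) : ∀ μ ∈ M1 m S, Lm a μ ∈ M1 m S :=
  M1_map (fun _ h => Submodule.mem_sup_left (UU_Lm _ _ h))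
    (fun _ h => Submodule.mem_sup_right (BB_Lm _ _ _ h))

lemma M1_Rm (a : F K) : ∀ μ ∈ M1 m S, Rm a μ ∈ M1 m S :=
  M1_map (fun _ h => Submodule.mem_sup_left (UU_Rm _ _ h))
    (fun _ h => Submodule.mem_sup_right (BB_Rm _ _ _ h))

lemma M1_act (φ : F K →ₐ[K] F K) : ∀ μ ∈ M1 m S, act φ μ ∈ M1 m S :=
  M1_map (fun _ h => Submodule.mem_sup_left (UU_act _ _ h))
    (fun _ h => Submodule.mem_sup_right (BB_act _ _ _ h))

lemma kill (O : (ℕ → F K) → Module.End K (Mt K)) {M : Submodule K (Mt K)}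
    (hM : ∀ φ, ∀ μ ∈ M, act φ μ ∈ M)
    (nat : ∀ ψ ξ μ, act ψ (O ξ μ) = O (fun i => ψ (ξ i)) (act ψ μ))
    (st : ∀ ξ, ∀ μ ∈ UU S, O ξ μ ∈ M) (hg : ∀ j, O (fun i => ι K (2 * i)) (gen m j) ∈ M)
    (ξ : ℕ → F K) : ∀ μ ∈ M1 m S, O ξ μ ∈ M := by
  refine M1_map (st ξ) (BB_map m fun j p q φ => ?_)
  obtain ⟨ψ, h1, h2⟩ := exists_inst m j p q φ ξ
  have := hM ψ _ (hg j)
  rw [nat, h2] at this
  simpa only [h1] using this

/-- The finitely many generic conditions. -/
structure Good (m : J → Mt K) (S : Set (F K)) (P : Set (G K)) : Prop where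
  ev : ∀ s ∈ S, ∀ v : ℕ → M2 K, lift K v s = 0
  cons : ∀ j, m j ∈ Cons K
  pat : ∀ x ∈ N0set K, ∃ ρ, ∃ p ∈ P, x = renG K ρ p
  g1 : ∀ j, tau (ι K 0) (gen m j) ∈ M1 m S
  g2 : ∀ j (b b' : Bool),
    Lt (fun i => ι K (2 * i)) (ι K (0, b)) (Rt (fun i => ι K (2 * i)) (ι K (1, b')) (gen m j)) -
    Rt (fun i => ι K (2 * i)) (ι K (1, b')) (Lt (fun i => ι K (2 * i)) (ι K (0, b)) (gen m j)) ∈
      UU S
  g3 : ∀ j, ∀ p ∈ P, Lt (fun i => ι K (2 * i)) p (gen m j) ∈ UU S
  g4 : ∀ j, ∀ p ∈ P, Rt (fun i => ι K (2 * i)) p (gen m j) ∈ UU S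
  g5 : ∀ j j', Lm (act (ren K fun i => 2 * i) (gen m j')).1 (gen m j) -
    Rm (gen m j).1 (act (ren K fun i => 2 * i) (gen m j')) ∈ UU S

namespace Good

variable {P : Set (G K)} (h : Good m S P)
include h

lemma le_cons : M1 m S ≤ Cons K :=
  sup_le (fun μ hμ z v => by rw [TI_eval h.ev hμ.1, TI_eval h.ev hμ.2, smul_zero])
    (BB_cons m h.cons)

lemma tau_mem (b : F K) : ∀ μ ∈ M1 m S, tau b μ ∈ M1 m S :=
  kill (fun ξ => tau (ξ 0)) M1_act (fun _ _ _ => act_tau _ _ _)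
    (fun _ _ hμ => Submodule.mem_sup_left (UU_tau _ _ hμ)) h.g1 (fun _ => b)

lemma Lt_mem (g : G K) : ∀ μ ∈ M1 m S, Lt (ι K) g μ ∈ M1 m S :=
  H45.Lt_mem _ h.tau_mem M1_Lm g

lemma Rt_mem (g : G K) : ∀ μ ∈ M1 m S, Rt (ι K) g μ ∈ M1 m S :=
  H45.Rt_mem _ h.tau_mem M1_Rm g

lemma comm_letter (l l' : L) : ∀ μ ∈ M1 m S,
    Lt (ι K) (ι K l) (Rt (ι K) (ι K l') μ) - Rt (ι K) (ι K l') (Lt (ι K) (ι K l) μ) ∈ UU S := by
  have := kill (fun ξ => Lt ξ (ι K (0, l.2)) * Rt ξ (ι K (1, l'.2)) -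
      Rt ξ (ι K (1, l'.2)) * Lt ξ (ι K (0, l.2))) UU_act
    (fun ψ ξ μ => by
      simp only [LinearMap.sub_apply, Module.End.mul_apply, map_sub, act_Lt, act_Rt])
    (fun ξ μ hμ => sub_mem (UU_Lt _ _ _ (UU_Rt _ _ _ hμ)) (UU_Rt _ _ _ (UU_Lt _ _ _ hμ)))
    (fun j => h.g2 j _ _) (cs (ι K l.1) fun _ => ι K l'.1)
  intro μ hμ
  have h1 := this μ hμ
  simp only [LinearMap.sub_apply, Module.End.mul_apply, Lt_ι, Rt_ι, cs] at h1 ⊢
  exact h1

lemma comm_left (a : G K) (l' : L) : ∀ μ ∈ M1 m S,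
    Lt (ι K) a (Rt (ι K) (ι K l') μ) - Rt (ι K) (ι K l') (Lt (ι K) a μ) ∈ UU S := by
  induction a using FreeAlgebra.induction with
  | grade0 r => intro μ _; simp
  | grade1 l => exact h.comm_letter l l'
  | add a b ha hb =>
    intro μ hμ
    simp only [map_add, LinearMap.add_apply]
    rw [add_sub_add_comm]
    exact add_mem (ha μ hμ) (hb μ hμ)
  | mul a b ha hb =>
    intro μ hμ
    have := add_mem (UU_Lt (ι K) a _ (hb μ hμ)) (ha _ (h.Lt_mem b μ hμ))
    rw [map_sub, sub_add_sub_cancel] at this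
    rw [Lt_mul, Lt_mul]; exact this

lemma comm (a b : G K) : ∀ μ ∈ M1 m S,
    Lt (ι K) a (Rt (ι K) b μ) - Rt (ι K) b (Lt (ι K) a μ) ∈ UU S := by
  induction b using FreeAlgebra.induction with
  | grade0 r => intro μ _; rw [Rt_alg, Rt_alg]; simp
  | grade1 l => exact h.comm_left a l
  | add b c hb hc =>
    intro μ hμ
    simp only [map_add, LinearMap.add_apply]
    rw [add_sub_add_comm]
    exact add_mem (hb μ hμ) (hc μ hμ)
  | mul b c hb hc =>
    intro μ hμ
    have := add_mem (hc _ (h.Rt_mem b μ hμ)) (UU_Rt (ι K) c _ (hb μ hμ))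
    rw [map_sub, sub_add_sub_cancel] at this
    rw [Rt_mul, Rt_mul]; exact this

lemma killL [Infinite K] {x : G K} (hx : ∀ v : ℕ → M2 K, evalG K v x = 0) :
    ∀ μ ∈ M1 m S, Lt (ι K) x μ ∈ UU S := by
  refine bi_induction (p := fun x => ∀ μ ∈ M1 m S, Lt (ι K) x μ ∈ UU S) ?_ (by simp) ?_ ?_
    (mem_bi_N0 x hx)
  · intro a x b hx μ hμ
    obtain ⟨ρ, p, hp, rfl⟩ := h.pat x hx
    rw [Lt_mul, Lt_mul, Lt_ren]
    exact UU_Lt _ _ _ (kill (fun ξ => Lt ξ p) UU_act (fun _ _ _ => act_Lt _ _ _ _)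
      (fun ξ => UU_Lt ξ p) (fun j => h.g3 j p hp) _ _ (h.Lt_mem b μ hμ))
  · intro x y h1 h2 μ hμ
    rw [map_add]; exact add_mem (h1 μ hμ) (h2 μ hμ)
  · intro c x h1 μ hμ
    rw [map_smul]; exact Submodule.smul_mem _ _ (h1 μ hμ)

lemma killR [Infinite K] {x : G K} (hx : ∀ v : ℕ → M2 K, evalG K v x = 0) :
    ∀ μ ∈ M1 m S, Rt (ι K) x μ ∈ UU S := by
  refine bi_induction (p := fun x => ∀ μ ∈ M1 m S, Rt (ι K) x μ ∈ UU S) ?_ (by simp) ?_ ?_
    (mem_bi_N0 x hx)
  · intro a x b hx μ hμ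
    obtain ⟨ρ, p, hp, rfl⟩ := h.pat x hx
    rw [Rt_mul, Rt_mul, Rt_ren]
    exact UU_Rt _ _ _ (kill (fun ξ => Rt ξ p) UU_act (fun _ _ _ => act_Rt _ _ _ _)
      (fun ξ => UU_Rt ξ p) (fun j => h.g4 j p hp) _ _ (h.Rt_mem a μ hμ))
  · intro x y h1 h2 μ hμ
    rw [map_add]; exact add_mem (h1 μ hμ) (h2 μ hμ)
  · intro c x h1 μ hμ
    rw [map_smul]; exact Submodule.smul_mem _ _ (h1 μ hμ)

lemma peiffer0 {μ ν : Mt K} (hμ : μ ∈ M1 m S) (hν : ν ∈ M1 m S) :
    Lm μ.1 ν - Rm ν.1 μ ∈ UU S := by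
  have hU : ∀ μ ν : Mt K, μ ∈ UU S ∨ ν ∈ UU S → Lm μ.1 ν - Rm ν.1 μ ∈ UU S := by
    rintro μ ν (h | h)
    · exact sub_mem ⟨TI_right h.1 _, TI_right (TI_map h.1 _) _⟩ (UU_Rm _ _ h)
    · exact sub_mem (UU_Lm _ _ h) ⟨TI_left h.1 _, TI_left (TI_map h.1 _) _⟩
  let D : Mt K →ₗ[K] Mt K →ₗ[K] Mt K := LinearMap.mk₂ K (fun μ ν => Lm μ.1 ν - Rm ν.1 μ)
    (fun a b c => by simp [Lm_apply, Rm_apply, add_mul]; abel)
    (fun c a b => by simp [Lm_apply, Rm_apply, smul_sub])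
    (fun a b c => by simp [Lm_apply, Rm_apply, mul_add]; abel)
    (fun c a b => by simp [Lm_apply, Rm_apply, smul_sub])
  refine M1_map (A := D μ) (fun ν hν => hU _ _ (Or.inr hν)) (BB_map m fun j p q φ => ?_) ν hν
  refine M1_map (A := D.flip _) (fun μ hμ => hU _ _ (Or.inl hμ))
    (BB_map m fun j' p' q' φ' => ?_) μ hμ
  obtain ⟨ψ', -, h2'⟩ := exists_inst m j' p' q' φ' (fun _ => 0)
  obtain ⟨ψ, h1, h2⟩ := exists_inst m j p q φ (fun i => ψ' (ι K i))
  have e : ψ.comp (ren K fun i => 2 * i) = ψ' :=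
    AlgHom.ext (hom_ext' fun i => by rw [AlgHom.comp_apply, ren_ι, h1])
  have := UU_act ψ _ (h.g5 j j')
  rw [map_sub, act_Lm, act_Rm, act_act, e, h2, h2'] at this
  have e1 : ψ (act (ren K fun i => 2 * i) (gen m j')).1 = (Lm p' (Rm q' (act φ' (m j')))).1 := by
    rw [← h2', ← e]; rfl
  have e2 : ψ (gen m j).1 = (Lm p (Rm q (act φ (m j)))).1 := by rw [← h2]; rfl
  rw [e1, e2] at this
  exact this

lemma peiffer [Infinite K] {μ ν : Mt K} (hμ : μ ∈ M1 m S) (hν : ν ∈ M1 m S) {g g' : G K}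
    (hg : ∀ v : ℕ → M2 K, lift K v μ.1 = evalG K v g)
    (hg' : ∀ v : ℕ → M2 K, lift K v ν.1 = evalG K v g') :
    Lt (ι K) g ν - Rt (ι K) g' μ ∈ UU S := by
  have h1 := h.killL (x := g - incl K μ.1) (fun v => by rw [map_sub, evalG_incl, hg, sub_self]) ν hν
  have h2 := h.killR (x := g' - incl K ν.1) (fun v => by rw [map_sub, evalG_incl, hg', sub_self])
    μ hμ
  rw [map_sub, Lt_incl] at h1
  rw [map_sub, Rt_incl] at h2
  have := sub_mem (add_mem h1 (h.peiffer0 hμ hν)) h2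
  simp only [LinearMap.sub_apply] at this
  convert this using 1
  abel

end Good

end

end Pool.Agent.Work.MP_228e0c_al.H45
end

-- merged part: Pool.Agent.Work.MP_228e0c_al.H45.Final
section
/-! The finite basis theorem for the identities of `2 × 2` matrices over an infinite field. -/

set_option autoImplicit false

namespace Pool.Agent.Work.MP_228e0c_al.H45

open FreeAlgebra

variable {K : Type} [Field K] {J : Type} {N : ℕ}

def ex (a : Fin (N + 1) → ℕ) (i : ℕ) : ℕ := a ⟨min i N, by omega⟩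

noncomputable def th (m : J → Mt K) : FB K (Sy J (N + 1)) →ₗ[K] Mt K :=
  mkV fun s => (Lt (ι K)).toLinearMap.compl₂ ((Rt (ι K)).flip (act (ren K (ex s.2)) (m s.1)))

noncomputable def ep (e : J → G K) : FB K (Sy J (N + 1)) →ₗ[K] G K :=
  mkV fun s => (LinearMap.mul K (G K)).compl₁₂ (LinearMap.mulRight K (renG K (ex s.2) (e s.1)))
    LinearMap.id

lemma th_tm (m : J → Mt K) (s : Sy J (N + 1)) (p q : G K) :
    th m (tm K s p q) = Lt (ι K) p (Rt (ι K) q (act (ren K (ex s.2)) (m s.1))) := by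
  rw [th, mkV_tm]; rfl

lemma ep_tm (e : J → G K) (s : Sy J (N + 1)) (p q : G K) :
    ep e (tm K s p q) = p * renG K (ex s.2) (e s.1) * q := by
  rw [ep, mkV_tm]; rfl

lemma ep_opV (e : J → G K) (g : G K) (σ : ℕ → ℕ) (g' : G K) (z : FB K (Sy J (N + 1))) :
    ep e (opV g σ g' z) = g * renG K σ (ep e z) * g' := by
  refine FB_ext (f := ep e ∘ₗ opV g σ g') (g := LinearMap.mulRight K g' ∘ₗ
    LinearMap.mulLeft K g ∘ₗ (renG K σ).toLinearMap ∘ₗ ep e) (fun s p q => ?_) z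
  have : ex (σ ∘ s.2) = σ ∘ ex s.2 := rfl
  simp [opV_tm, ep_tm, renG_renG, mul_assoc, this]

lemma lift_act_ren (v : ℕ → M2 K) (ρ : ℕ → ℕ) {μ : Mt K} {x : G K}
    (h : ∀ v : ℕ → M2 K, lift K v μ.1 = evalG K v x) :
    lift K v (act (ren K ρ) μ).1 = evalG K v (renG K ρ x) := by
  rw [evalG_ren, ← h, act_apply, lift_map v]
  simp [ren_ι]

lemma th_cons {m : J → Mt K} {e : J → G K} (hm : ∀ j, m j ∈ Cons K)
    (he : ∀ j (v : ℕ → M2 K), lift K v (m j).1 = evalG K v (e j)) (z : FB K (Sy J (N + 1))) :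
    th m z ∈ Cons K ∧ ∀ v : ℕ → M2 K, lift K v (th m z).1 = evalG K v (ep e z) := by
  induction z using FB_induction with
  | h s p q =>
    have h1 := act_cons (ren K (ex s.2)) _ (hm s.1)
    have h2 := Rt_mem (ι K) tau_cons Rm_cons q _ h1
    rw [th_tm, ep_tm]
    refine ⟨Lt_mem _ tau_cons Lm_cons _ _ h2, fun v => ?_⟩
    rw [lift_Lt _ _ _ _ h2, lift_Rt _ _ _ _ h1, lift_act_ren v _ (he s.1)]
    simp [mul_assoc]
  | zero => simp
  | add x y h1 h2 => exact ⟨by rw [map_add]; exact add_mem h1.1 h2.1, fun v => by simp [h1.2, h2.2]⟩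

lemma Good.th_opV {m : J → Mt K} {S : Set (F K)} {P : Set (G K)} (h : Good m S P)
    (g : G K) (σ : ℕ → ℕ) (g' : G K) (z : FB K (Sy J (N + 1))) :
    th m (opV g σ g' z) - Lt (ι K) g (Rt (ι K) g' (act (ren K σ) (th m z))) ∈ UU S := by
  induction z using FB_induction with
  | h s p q =>
    have e : ren K (ex (σ ∘ s.2)) = (ren K σ).comp (ren K (ex s.2)) := (ren_comp _ _).symm
    rw [opV_tm, th_tm, th_tm, act_Lt, act_Rt, act_act, Lt_mul, Rt_mul, ← map_sub, e]
    simp only [ren_ι]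
    rw [← Lt_ren (ι K) σ p, ← Rt_ren (ι K) σ q]
    exact UU_Lt _ _ _ (h.comm _ _ _ (h.Rt_mem _ _ (Submodule.mem_sup_right (act_mem_BB m _ _))))
  | zero => simp
  | add x y h1 h2 =>
    simp only [map_add]
    rw [add_sub_add_comm]
    exact add_mem h1 h2

theorem Good.th_ker [Infinite K] {m : J → Mt K} {S : Set (F K)} {P : Set (G K)} (h : Good m S P)
    {e : J → G K} (he : ∀ j (v : ℕ → M2 K), lift K v (m j).1 = evalG K v (e j))
    (hB : ∀ μ ∈ Cons K, ∃ ν ∈ BB m, ν.1 = μ.1) {G0 : Set (FB K (Sy J (N + 1)))}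
    (h0 : ∀ z ∈ G0, ep e z = 0 ∧ th m z ∈ UU S) {z : FB K (Sy J (N + 1))}
    (hz : z ∈ Q0 K _ ⊔ Submodule.span K {y | ∃ g σ g', ∃ z ∈ G0, y = opV g σ g' z})
    (hz0 : ep e z = 0) : th m z ∈ UU S := by
  obtain ⟨Λ, l1, l2, l3⟩ := exists_left_lift (Hc K) Hc_left (Lt (ι K)) (M1 m S) h.Lt_mem
    ((AlgHom.pi fun v : ℕ → M2 K => lift K v).toLinearMap ∘ₗ LinearMap.fst K _ _)
    (AlgHom.pi fun v : ℕ → M2 K => evalG K v)
    (fun g μ hμ => funext fun v => by
      have := lift_Lt (ι K) v g μ (h.le_cons hμ)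
      simpa using this)
    (fun x ⟨μ, h1, h2⟩ => by
      obtain ⟨ν, h3, h4⟩ := hB μ h1
      exact ⟨ν, Submodule.mem_sup_right h3, funext fun v => by simpa [h4] using h2 v⟩)
  have l4 : ∀ x ∈ Hc K, ∀ v : ℕ → M2 K, lift K v (Λ x).1 = evalG K v x := fun x hx v =>
    congrFun (l3 x hx) v
  have hle : Q0 K _ ⊔ Submodule.span K {y | ∃ g σ g', ∃ z ∈ G0, y = opV g σ g' z} ≤
      (UU S).comap (th m - Λ ∘ₗ ep e) := by
    refine sup_le (Submodule.span_le.2 ?_) (Submodule.span_le.2 ?_)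
    · rintro _ ⟨s, p, q, hpq, rfl⟩
      show th m (tm K s p q) - Λ (ep e (tm K s p q)) ∈ UU S
      rw [th_tm, ep_tm]
      have hμ : act (ren K (ex s.2)) (m s.1) ∈ M1 m S :=
        Submodule.mem_sup_right (act_mem_BB m _ _)
      have hev := fun v => lift_act_ren v (ex s.2) (he s.1)
      generalize act (ren K (ex s.2)) (m s.1) = μ at hμ hev
      generalize renG K (ex s.2) (e s.1) = x at hev
      have hx : x ∈ Hc K := ⟨μ, h.le_cons hμ, hev⟩
      rcases hpq with hp | hq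
      · have hp' := I0_le_Hc hp
        have hxq := Hc_right q _ hx
        have h1 := h.peiffer (l1 p) (h.Rt_mem q μ hμ) (l4 p hp') (g' := x * q) (fun v => by
          rw [lift_Rt _ _ _ _ (h.le_cons hμ), hev, map_mul]; simp)
        have h2 := h.peiffer (l1 p) (l1 (x * q)) (l4 p hp') (l4 _ hxq)
        rw [mul_assoc, l2 p _ hxq]
        simpa using sub_mem h1 h2
      · have hq' := I0_le_Hc hq
        have h1 := UU_Lt (ι K) p _ (h.peiffer hμ (l1 q) hev (l4 q hq'))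
        rw [l2 _ _ hq', Lt_mul]
        simpa using neg_mem h1
    · rintro _ ⟨g, σ, g', z, hz, rfl⟩
      show th m (opV g σ g' z) - Λ (ep e (opV g σ g' z)) ∈ UU S
      rw [ep_opV, (h0 z hz).1]
      simpa using add_mem (h.th_opV g σ g' z)
        (UU_Lt (ι K) g _ (UU_Rt (ι K) g' _ (UU_act (ren K σ) _ (h0 z hz).2)))
  simpa [hz0] using hle hz

lemma cons_snd {μ : Mt K} (h : μ ∈ Cons K) (h0 : ∀ v : ℕ → M2 K, lift K v μ.1 = 0)
    (v : ℕ → M2 K) : lift K v μ.2 = 0 := by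
  have e : v = cs (v 0) fun i => v (i + 1) := funext fun n => by cases n <;> rfl
  rw [e, h, h0, smul_zero]

theorem finite_basis [Infinite K] : ∃ S : Set (F K), S.Finite ∧
    ∀ f : F K, f ∈ TI S ↔ ∀ v : ℕ → M2 K, lift K v f = 0 := by
  obtain ⟨W, w1, w2, w3⟩ := cond_fg (K := K)
  obtain ⟨P, p1, p2, p3⟩ := N0_patterns (K := K)
  have := w1.to_subtype
  have := p1.to_subtype
  let m : W ⊕ P → Mt K := Sum.elim (fun w => w.1) fun _ => 0
  let e : W ⊕ P → G K := Sum.elim (fun w => incl K w.1.1) fun p => p.1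
  have hm : ∀ j, m j ∈ Cons K := by
    rintro (w | p)
    · exact w2 w.2
    · exact zero_mem _
  have he : ∀ j (v : ℕ → M2 K), lift K v (m j).1 = evalG K v (e j) := by
    rintro (w | p) v
    · exact (evalG_incl v _).symm
    · exact (map_zero _).trans (evalG_N0 v (p2 p.2)).symm
  have hB : ∀ μ ∈ Cons K, ∃ ν ∈ BB m, ν.1 = μ.1 := by
    intro μ hμ
    have : Submodule.span K {x | ∃ a b ρ, ∃ w ∈ W, x = a * ren K ρ w.1 * b} ≤
        (BB m).map (LinearMap.fst K _ _) := by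
      refine Submodule.span_le.2 ?_
      rintro _ ⟨a, b, ρ, w, hw, rfl⟩
      exact ⟨_, Submodule.subset_span ⟨Sum.inl ⟨w, hw⟩, a, b, ren K ρ, rfl⟩, (mul_assoc _ _ _).symm⟩
    exact this (w3 μ hμ)
  obtain ⟨N, hN⟩ : ∃ N : ℕ, ∀ j (ρ : ℕ → ℕ),
      renG K (ex (N := N) fun i => ρ i) (e j) = renG K ρ (e j) := by
    choose n hn using fun j => ren_bound (e j)
    obtain ⟨N, hN⟩ := (Set.finite_range n).bddAbove
    refine ⟨N, fun j ρ => hn j _ _ fun i hi => ?_⟩
    have : n j ≤ N := hN ⟨j, rfl⟩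
    simp only [ex]
    rw [min_eq_left (by omega)]
  obtain ⟨G0, g1, g2, g3⟩ := noeth (LinearMap.ker (ep (N := N) e)) (fun g σ g' z hz => by
    rw [LinearMap.mem_ker] at hz ⊢
    rw [ep_opV, hz]; simp)
  have hgen : ∀ j, gen m j ∈ Cons K := fun j => BB_cons m hm (gen_mem m j)
  choose ν hν1 hν2 using fun j => hB _ (tau_cons (ι K 0) _ (hgen j))
  let x2 : ℕ → F K := fun i => ι K (2 * i)
  let A : Set (Mt K) := Set.range (fun j => tau (ι K 0) (gen m j) - ν j) ∪
    Set.range (fun t : (W ⊕ P) × Bool × Bool =>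
      Lt x2 (ι K (0, t.2.1)) (Rt x2 (ι K (1, t.2.2)) (gen m t.1)) -
      Rt x2 (ι K (1, t.2.2)) (Lt x2 (ι K (0, t.2.1)) (gen m t.1))) ∪
    Set.range (fun t : (W ⊕ P) × P => Lt x2 t.2.1 (gen m t.1)) ∪
    Set.range (fun t : (W ⊕ P) × P => Rt x2 t.2.1 (gen m t.1)) ∪
    Set.range (fun t : (W ⊕ P) × (W ⊕ P) =>
      Lm (act (ren K fun i => 2 * i) (gen m t.2)).1 (gen m t.1) -
      Rm (gen m t.1).1 (act (ren K fun i => 2 * i) (gen m t.2))) ∪ th m '' G0
  have hA : A.Finite := (((((Set.finite_range _).union (Set.finite_range _)).union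
    (Set.finite_range _)).union (Set.finite_range _)).union (Set.finite_range _)).union
    (g1.image _)
  have hL := fun g => Lt_mem x2 (tau_cons (K := K)) Lm_cons g
  have hR := fun g => Rt_mem x2 (tau_cons (K := K)) Rm_cons g
  have hA2 : ∀ a ∈ A, a ∈ Cons K ∧ ∀ v : ℕ → M2 K, lift K v a.1 = 0 := by
    rintro _ (((((⟨j, rfl⟩ | ⟨t, rfl⟩) | ⟨t, rfl⟩) | ⟨t, rfl⟩) | ⟨t, rfl⟩) | ⟨z, hz, rfl⟩)
    · exact ⟨sub_mem (tau_cons _ _ (hgen j)) (BB_cons m hm (hν1 j)), fun v => by simp [hν2]⟩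
    · refine ⟨sub_mem (hL _ _ (hR _ _ (hgen _))) (hR _ _ (hL _ _ (hgen _))), fun v => ?_⟩
      rw [Prod.fst_sub, map_sub, lift_Lt _ _ _ _ (hR _ _ (hgen _)),
        lift_Rt _ _ _ _ (hL _ _ (hgen _)), lift_Lt _ _ _ _ (hgen _), lift_Rt _ _ _ _ (hgen _),
        mul_assoc, sub_self]
    · exact ⟨hL _ _ (hgen _), fun v => by
        rw [lift_Lt _ _ _ _ (hgen _), evalG_N0 _ (p2 t.2.2), zero_mul]⟩
    · exact ⟨hR _ _ (hgen _), fun v => by
        rw [lift_Rt _ _ _ _ (hgen _), evalG_N0 _ (p2 t.2.2), mul_zero]⟩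
    · exact ⟨sub_mem (Lm_cons _ _ (hgen _)) (Rm_cons _ _ (act_cons _ _ (hgen _))),
        fun v => by simp [Lm_apply, Rm_apply]⟩
    · exact ⟨(th_cons hm he z).1, fun v => by
        rw [(th_cons hm he z).2, LinearMap.mem_ker.1 (g2 hz), map_zero]⟩
  let S : Set (F K) := Prod.fst '' A ∪ Prod.snd '' A
  have hS : ∀ s ∈ S, ∀ v : ℕ → M2 K, lift K v s = 0 := by
    rintro _ (⟨a, ha, rfl⟩ | ⟨a, ha, rfl⟩)
    · exact (hA2 a ha).2
    · exact cons_snd (hA2 a ha).1 (hA2 a ha).2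
  have hU : ∀ a ∈ A, a ∈ UU S := fun a ha =>
    ⟨TI_subset (Or.inl ⟨a, ha, rfl⟩), TI_subset (Or.inr ⟨a, ha, rfl⟩)⟩
  have good : Good m S P :=
    { ev := hS
      cons := hm
      pat := p3
      g1 := fun j => by
        rw [← sub_add_cancel (tau (ι K 0) (gen m j)) (ν j)]
        exact add_mem (Submodule.mem_sup_left
          (hU _ (Or.inl (Or.inl (Or.inl (Or.inl (Or.inl ⟨j, rfl⟩))))))) (Submodule.mem_sup_right (hν1 j))
      g2 := fun j b b' => hU _ (Or.inl (Or.inl (Or.inl (Or.inl (Or.inr ⟨(j, b, b'), rfl⟩)))))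
      g3 := fun j p hp => hU _ (Or.inl (Or.inl (Or.inl (Or.inr ⟨(j, ⟨p, hp⟩), rfl⟩))))
      g4 := fun j p hp => hU _ (Or.inl (Or.inl (Or.inr ⟨(j, ⟨p, hp⟩), rfl⟩)))
      g5 := fun j j' => hU _ (Or.inl (Or.inr ⟨(j, j'), rfl⟩)) }
  refine ⟨S, (hA.image _).union (hA.image _), fun f => ⟨fun hf => TI_eval hS hf, fun hf => ?_⟩⟩
  have h1 : ∃ p : FB K (Sy (W ⊕ P) (N + 1)), ep e p = incl K f ∧ (th m p).1 = f := by
    have hf' : f ∈ Submodule.span K {x | ∃ a b ρ, ∃ w ∈ W, x = a * ren K ρ w.1 * b} :=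
      w3 (f, 0) fun z v => by simp [hf]
    clear hf
    induction hf' using Submodule.span_induction with
    | mem x hx =>
      obtain ⟨a, b, ρ, w, hw, rfl⟩ := hx
      have h2 : renG K (ex (N := N) fun i => ρ i) (incl K w.1) = renG K ρ (incl K w.1) :=
        hN (Sum.inl ⟨w, hw⟩) ρ
      refine ⟨tm K (S := Sy (W ⊕ P) (N + 1)) (Sum.inl ⟨w, hw⟩, fun i => ρ i) (incl K a) (incl K b), ?_, ?_⟩
      · rw [ep_tm, map_mul, map_mul, ← ren_incl, ← h2]; rfl
      · have h3 := congrArg (ret K) h2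
        rw [ren_incl, ren_incl, ret_incl, ret_incl] at h3
        rw [th_tm, Lt_incl, Rt_incl, ← h3, mul_assoc]; rfl
    | zero => exact ⟨0, by simp, by simp⟩
    | add x y _ _ h1 h2 =>
      obtain ⟨p, h1, h1'⟩ := h1
      obtain ⟨q, h2, h2'⟩ := h2
      exact ⟨p + q, by simp [h1, h2], by simp [h1', h2']⟩
    | smul c x _ h =>
      obtain ⟨p, h1, h1'⟩ := h
      exact ⟨c • p, by simp [h1], by simp [h1']⟩
  have h2 : ∃ n : FB K (Sy (W ⊕ P) (N + 1)), ep e n = incl K f ∧ th m n = 0 := by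
    refine bi_induction (p := fun x => ∃ n : FB K (Sy (W ⊕ P) (N + 1)), ep e n = x ∧ th m n = 0)
      ?_ ⟨0, by simp, by simp⟩ ?_ ?_ (mem_bi_N0 (incl K f) fun v => by rw [evalG_incl, hf])
    · intro a x b hx
      obtain ⟨ρ, p, hp, rfl⟩ := p3 x hx
      refine ⟨tm K (S := Sy (W ⊕ P) (N + 1)) (Sum.inr ⟨p, hp⟩, fun i => ρ i) a b, ?_, ?_⟩
      · rw [ep_tm, hN]; rfl
      · rw [th_tm]; simp [m]
    · rintro x y ⟨p, h1, h1'⟩ ⟨q, h2, h2'⟩
      exact ⟨p + q, by simp [h1, h2], by simp [h1', h2']⟩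
    · rintro c x ⟨p, h1, h1'⟩
      exact ⟨c • p, by simp [h1], by simp [h1']⟩
  obtain ⟨p, hp1, hp2⟩ := h1
  obtain ⟨n, hn1, hn2⟩ := h2
  have h0 : ep e (p - n) = 0 := by rw [map_sub, hp1, hn1, sub_self]
  have := good.th_ker he hB (G0 := G0)
    (fun z hz => ⟨g2 hz, hU _ (Or.inr ⟨z, hz, rfl⟩)⟩) (g3 h0) h0
  rw [map_sub, hn2, sub_zero] at this
  rw [← hp2]
  exact this.1

end Pool.Agent.Work.MP_228e0c_al.H45
end
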