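import Mathlib

-- merged part: Pool.Agent.Work.MP_228e0c_al.H45.Words
section
/-! Words in letters with an involution, and the graphs attached to them. -/

set_option autoImplicit false

namespace Pool.Agent.Work.MP_228e0c_al.H45

abbrev L : Type := ℕ × Bool

def lstar (l : L) : L := (l.1, !l.2)

@[simp] lemma lstar_lstar (l : L) : lstar (lstar l) = l := by simp [lstar]

def code (l : L) : ℕ := 2 * l.1 + 2 + (if l.2 then 1 else 0)

lemma code_inj {l l' : L} (h : code l = code l') : l = l' := by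
  obtain ⟨a, b⟩ := l
  obtain ⟨a', b'⟩ := l'
  cases b <;> cases b' <;> simp [code] at h ⊢ <;> omega

lemma two_le_code (l : L) : 2 ≤ code l := by simp [code]; omega

lemma lstar_ne (l : L) : lstar l ≠ l := by
  obtain ⟨a, b⟩ := l
  cases b <;> simp [lstar]

def mke (p q : ℕ) : ℕ × ℕ := (min p q, max p q)

lemma mke_comm (p q : ℕ) : mke p q = mke q p := by simp [mke, min_comm, max_comm]

lemma mke_eq {p q p' q' : ℕ} (h : mke p q = mke p' q') :
    (p = p' ∧ q = q') ∨ (p = q' ∧ q = p') := by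
  simp only [mke, Prod.mk.injEq] at h
  omega

def wstar (w : List L) : List L := (w.map lstar).reverse

@[simp] lemma wstar_nil : wstar [] = [] := rfl

lemma wstar_cons (l : L) (w : List L) : wstar (l :: w) = wstar w ++ [lstar l] := by
  simp [wstar]

lemma wstar_append (a b : List L) : wstar (a ++ b) = wstar b ++ wstar a := by
  simp [wstar]

@[simp] lemma length_wstar (w : List L) : (wstar w).length = w.length := by simp [wstar]

lemma wstar_ne_nil {w : List L} (h : w ≠ []) : wstar w ≠ [] := by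
  intro h'
  have := congrArg List.length h'
  rw [length_wstar] at this
  exact h (List.length_eq_zero_iff.1 this)

@[simp] lemma wstar_wstar (w : List L) : wstar (wstar w) = w := by
  simp [wstar, List.map_reverse, Function.comp_def]

def fstE : List L → ℕ → ℕ
  | [], t => t
  | l :: _, _ => code l

def lstE : ℕ → List L → ℕ
  | s, [] => s
  | _, l :: w => lstE (code (lstar l)) w

def pre : ℕ → List L → Multiset (ℕ × ℕ)
  | _, [] => 0
  | s, l :: w => mke s (code l) ::ₘ pre (code (lstar l)) w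

def path (s : ℕ) (w : List L) (t : ℕ) : Multiset (ℕ × ℕ) := mke (lstE s w) t ::ₘ pre s w

def suf : List L → ℕ → Multiset (ℕ × ℕ)
  | [], _ => 0
  | l :: w, t => path (code (lstar l)) w t

def inner : List L → Multiset (ℕ × ℕ)
  | [] => 0
  | l :: w => pre (code (lstar l)) w

def first (w : List L) : ℕ := fstE w 0

def fin (w : List L) : ℕ := lstE 0 w

def cyc (w : List L) : Multiset (ℕ × ℕ) := mke (fin w) (first w) ::ₘ inner w

lemma lstE_append (s : ℕ) (a b : List L) : lstE s (a ++ b) = lstE (lstE s a) b := by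
  induction a generalizing s with
  | nil => rfl
  | cons l a ih => simp [lstE, ih]

lemma fstE_append (a b : List L) (t : ℕ) : fstE (a ++ b) t = fstE a (fstE b t) := by
  cases a <;> rfl

lemma pre_append (s : ℕ) (a b : List L) : pre s (a ++ b) = pre s a + pre (lstE s a) b := by
  induction a generalizing s with
  | nil => simp [pre, lstE]
  | cons l a ih => simp [pre, lstE, ih]

lemma fstE_eq {w : List L} (h : w ≠ []) (t : ℕ) : fstE w t = first w := by
  cases w with
  | nil => exact absurd rfl h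
  | cons l w => rfl

lemma lstE_eq {w : List L} (h : w ≠ []) (s : ℕ) : lstE s w = fin w := by
  cases w with
  | nil => exact absurd rfl h
  | cons l w => rfl

lemma pre_eq {w : List L} (h : w ≠ []) (s : ℕ) : pre s w = mke s (first w) ::ₘ inner w := by
  cases w with
  | nil => exact absurd rfl h
  | cons l w => rfl

lemma suf_eq {w : List L} (h : w ≠ []) (t : ℕ) : suf w t = mke (fin w) t ::ₘ inner w := by
  cases w with
  | nil => exact absurd rfl h
  | cons l w => rfl

lemma path_eq_suf (s : ℕ) (w : List L) (t : ℕ) : path s w t = mke s (fstE w t) ::ₘ suf w t := by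
  cases w with
  | nil => rfl
  | cons l w => simp only [path, pre, lstE, fstE, suf]; rw [Multiset.cons_swap]

lemma path_cons (s : ℕ) (l : L) (w : List L) (t : ℕ) :
    path s (l :: w) t = mke s (code l) ::ₘ path (code (lstar l)) w t := path_eq_suf _ _ _

lemma path_append (s : ℕ) (a b : List L) (t : ℕ) :
    path s (a ++ b) t = pre s a + path (lstE s a) b t := by
  simp [path, pre_append, lstE_append]

lemma path_cut (s : ℕ) (a b : List L) (t : ℕ) :
    path s (a ++ b) t = mke (lstE s a) (fstE b t) ::ₘ (pre s a + suf b t) := by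
  rw [path_append, path_eq_suf]; simp

lemma path_append_cons (s : ℕ) (a : List L) (l : L) (b : List L) (t : ℕ) :
    path s (a ++ l :: b) t = path s a (code l) + path (code (lstar l)) b t := by
  rw [path_append, path_cons, path, path, Multiset.add_cons, Multiset.cons_add]

lemma path_ne {w : List L} (h : w ≠ []) (s t : ℕ) :
    path s w t = mke s (first w) ::ₘ mke (fin w) t ::ₘ inner w := by
  rw [path_eq_suf, suf_eq h, fstE_eq h]

lemma path_wstar (s : ℕ) (w : List L) (t : ℕ) : path s (wstar w) t = path t w s := by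
  induction w generalizing t with
  | nil => simp [path, pre, lstE, mke_comm s t]
  | cons l w ih =>
    rw [wstar_cons, path_append_cons, ih, path_cons, lstar_lstar]
    simp only [path, pre, lstE]
    rw [mke_comm (code l) t, add_comm]
    rfl

lemma first_append {a : List L} (h : a ≠ []) (b : List L) : first (a ++ b) = first a := by
  rw [first, fstE_append, fstE_eq h]

lemma fin_append (a : List L) {b : List L} (h : b ≠ []) : fin (a ++ b) = fin b := by
  rw [fin, lstE_append, lstE_eq h]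

lemma fin_concat (a : List L) (l : L) : fin (a ++ [l]) = code (lstar l) := by
  rw [fin_append _ (by simp)]; rfl

lemma first_cons (l : L) (a : List L) : first (l :: a) = code l := rfl

lemma fin_wstar {w : List L} (h : w ≠ []) : fin (wstar w) = first w := by
  cases w with
  | nil => exact absurd rfl h
  | cons l w => rw [wstar_cons, fin_concat, lstar_lstar]; rfl

lemma first_wstar {w : List L} (h : w ≠ []) : first (wstar w) = fin w := by
  have := fin_wstar (wstar_ne_nil h)
  rw [wstar_wstar] at this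
  exact this.symm

lemma inner_wstar {w : List L} (h : w ≠ []) : inner (wstar w) = inner w := by
  have := path_wstar 0 w 0
  rw [path_ne (wstar_ne_nil h), path_ne h, fin_wstar h, first_wstar h, mke_comm 0 (fin w),
    mke_comm (first w) 0, Multiset.cons_swap, Multiset.cons_inj_right,
    Multiset.cons_inj_right] at this
  exact this

lemma inner_append {a b : List L} (ha : a ≠ []) (hb : b ≠ []) :
    inner (a ++ b) = mke (fin a) (first b) ::ₘ (inner a + inner b) := by
  cases a with
  | nil => exact absurd rfl ha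
  | cons l a =>
    show pre _ (a ++ b) = _
    rw [pre_append, pre_eq hb]
    simp [inner, fin, lstE]

lemma cyc_append {a b : List L} (ha : a ≠ []) (hb : b ≠ []) :
    cyc (a ++ b) = mke (fin b) (first a) ::ₘ mke (fin a) (first b) ::ₘ (inner a + inner b) := by
  rw [cyc, inner_append ha hb, fin_append _ hb, first_append ha]

lemma cyc_rot (a b : List L) : cyc (a ++ b) = cyc (b ++ a) := by
  by_cases ha : a = []
  · simp [ha]
  by_cases hb : b = []
  · simp [hb]
  rw [cyc_append ha hb, cyc_append hb ha, Multiset.cons_swap, add_comm]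

lemma cyc_wstar {w : List L} (h : w ≠ []) : cyc (wstar w) = cyc w := by
  rw [cyc, cyc, inner_wstar h, fin_wstar h, first_wstar h, mke_comm]

lemma cyc_cons (l : L) (a : List L) : cyc (l :: a) = path (code (lstar l)) a (code l) := rfl

lemma mem_pre {e : ℕ × ℕ} {s : ℕ} {w : List L} (h : e ∈ pre s w) :
    ∃ a b, b ≠ [] ∧ w = a ++ b ∧ e = mke (lstE s a) (first b) := by
  induction w generalizing s with
  | nil => simp [pre] at h
  | cons l w ih =>
    rw [pre, Multiset.mem_cons] at h
    rcases h with h | h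
    · exact ⟨[], l :: w, by simp, rfl, h⟩
    · obtain ⟨a, b, hb, rfl, he⟩ := ih h
      exact ⟨l :: a, b, hb, rfl, he⟩

lemma mem_path {e : ℕ × ℕ} {s t : ℕ} {w : List L} (h : e ∈ path s w t) :
    ∃ a b, w = a ++ b ∧ e = mke (lstE s a) (fstE b t) := by
  rw [path, Multiset.mem_cons] at h
  rcases h with h | h
  · exact ⟨w, [], by simp, h⟩
  · obtain ⟨a, b, hb, rfl, he⟩ := mem_pre h
    exact ⟨a, b, rfl, by rw [he, fstE_eq hb]⟩

lemma mem_suf {e : ℕ × ℕ} {t : ℕ} {w : List L} (h : e ∈ suf w t) :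
    ∃ a b, a ≠ [] ∧ w = a ++ b ∧ e = mke (fin a) (fstE b t) := by
  cases w with
  | nil => simp [suf] at h
  | cons l w =>
    obtain ⟨a, b, rfl, he⟩ := mem_path (show e ∈ path _ w t from h)
    exact ⟨l :: a, b, by simp, rfl, he⟩

lemma mem_inner {e : ℕ × ℕ} {w : List L} (h : e ∈ inner w) :
    ∃ a b, a ≠ [] ∧ b ≠ [] ∧ w = a ++ b ∧ e = mke (fin a) (first b) := by
  cases w with
  | nil => simp [inner] at h
  | cons l w =>
    obtain ⟨a, b, hb, rfl, he⟩ := mem_pre (show e ∈ pre _ w from h)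
    exact ⟨l :: a, b, by simp, hb, rfl, he⟩

lemma mem_cyc {e : ℕ × ℕ} {w : List L} (h : e ∈ cyc w) :
    ∃ a b, w = a ++ b ∧ e = mke (fin (b ++ a)) (first (b ++ a)) := by
  rw [cyc, Multiset.mem_cons] at h
  rcases h with h | h
  · exact ⟨w, [], by simp, by simpa using h⟩
  · obtain ⟨a, b, ha, hb, rfl, he⟩ := mem_inner h
    exact ⟨a, b, rfl, by rw [he, fin_append _ ha, first_append hb]⟩

lemma card_pre (s : ℕ) (w : List L) : Multiset.card (pre s w) = w.length := by
  induction w generalizing s with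
  | nil => rfl
  | cons l w ih => simp [pre, ih]

lemma card_path (s : ℕ) (w : List L) (t : ℕ) : Multiset.card (path s w t) = w.length + 1 := by
  simp [path, card_pre]

lemma card_cyc {w : List L} (h : w ≠ []) : Multiset.card (cyc w) = w.length := by
  cases w with
  | nil => exact absurd rfl h
  | cons l w => rw [cyc_cons, card_path]; rfl

lemma exists_fin {w : List L} (h : w ≠ []) : ∃ a l, w = a ++ [l] ∧ fin w = code (lstar l) := by
  obtain ⟨a, l, rfl⟩ := List.eq_nil_or_concat' w |>.resolve_left h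
  exact ⟨a, l, rfl, fin_concat a l⟩

lemma exists_first {w : List L} (h : w ≠ []) : ∃ l a, w = l :: a ∧ first w = code l := by
  cases w with
  | nil => exact absurd rfl h
  | cons l w => exact ⟨l, w, rfl, rfl⟩

lemma two_le_fin {w : List L} (h : w ≠ []) : 2 ≤ fin w := by
  obtain ⟨a, l, -, e⟩ := exists_fin h
  rw [e]; exact two_le_code _

lemma two_le_first {w : List L} (h : w ≠ []) : 2 ≤ first w := by
  obtain ⟨l, a, -, e⟩ := exists_first h
  rw [e]; exact two_le_code _

lemma one_le_fstE (w : List L) : 1 ≤ fstE w 1 := by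
  by_cases h : w = []
  · simp [h, fstE]
  · rw [fstE_eq h]; have := two_le_first h; omega

lemma suf_pos {e : ℕ × ℕ} {w : List L} (h : e ∈ suf w 1) : 1 ≤ e.1 := by
  obtain ⟨a, b, ha, -, rfl⟩ := mem_suf h
  have := two_le_fin ha
  have := one_le_fstE b
  simp only [mke]; omega

lemma cyc_pos {e : ℕ × ℕ} {w : List L} (hw : w ≠ []) (h : e ∈ cyc w) : 1 ≤ e.1 := by
  obtain ⟨a, b, rfl, rfl⟩ := mem_cyc h
  have hne : b ++ a ≠ [] := by
    intro h'; apply hw; simp at h' ⊢; tauto
  have := two_le_fin hne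
  have := two_le_first hne
  simp only [mke]; omega

/-- A configuration: an open word and a multiset of closed words. -/
structure Cfg where
  w : List L
  cs : Multiset (List L)

def Cfg.Ok (c : Cfg) : Prop := ∀ b ∈ c.cs, b ≠ []

def Cfg.E (c : Cfg) : Multiset (ℕ × ℕ) := path 0 c.w 1 + c.cs.bind cyc

def Cfg.size (c : Cfg) : ℕ := c.w.length + (c.cs.map List.length).sum

lemma card_bind_cyc (cs : Multiset (List L)) (h : ∀ b ∈ cs, b ≠ []) :
    Multiset.card (cs.bind cyc) = (cs.map List.length).sum := by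
  rw [Multiset.card_bind]
  congr 1
  exact Multiset.map_congr rfl fun b hb => card_cyc (h b hb)

lemma Cfg.card_E {c : Cfg} (h : c.Ok) : Multiset.card c.E = c.size + 1 := by
  rw [Cfg.E, Multiset.card_add, card_path, card_bind_cyc _ h, Cfg.size]; omega

lemma Cfg.size_eq {c c' : Cfg} (h : c.Ok) (h' : c'.Ok) (he : c.E = c'.E) : c.size = c'.size := by
  have := Cfg.card_E h
  rw [he, Cfg.card_E h'] at this
  omega

lemma Cfg.fstE_eq {c c' : Cfg} (h' : c'.Ok) (he : c.E = c'.E) : fstE c.w 1 = fstE c'.w 1 := by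
  have h1 : mke 0 (fstE c.w 1) ∈ c'.E := by
    rw [← he, Cfg.E, path_eq_suf]; simp
  rw [Cfg.E, path_eq_suf, Multiset.mem_add, Multiset.mem_cons] at h1
  have h2 := one_le_fstE c.w
  rcases h1 with (h1 | h1) | h1
  · rcases mke_eq h1 with h | h <;> omega
  · have := suf_pos h1
    simp [mke] at this
  · obtain ⟨b, hb, hm⟩ := Multiset.mem_bind.1 h1
    have := cyc_pos (h' b hb) hm
    simp [mke] at this

end Pool.Agent.Work.MP_228e0c_al.H45
end

-- merged part: Pool.Agent.Work.MP_228e0c_al.H45.Moves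
section
/-! Algebras with a standard involution: configurations with the same graph agree modulo norms. -/

set_option autoImplicit false

namespace Pool.Agent.Work.MP_228e0c_al.H45

/-- Letters in an algebra with an involution whose traces and norms are central. -/
structure StdInv (K A : Type) [Field K] [Ring A] [Algebra K A] where
  g : L → A
  st : A →ₗ[K] A
  st_mul : ∀ a b, st (a * b) = st b * st a
  st_one : st 1 = 1
  st_st : ∀ a, st (st a) = a
  st_g : ∀ l, st (g l) = g (lstar l)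
  tr_comm : ∀ a b, (a + st a) * b = b * (a + st a)
  d_comm : ∀ i b, (g (i, false) * g (i, true)) * b = b * (g (i, false) * g (i, true))

namespace StdInv

variable {K A : Type} [Field K] [Ring A] [Algebra K A] (S : StdInv K A)

def wd (w : List L) : A := (w.map S.g).prod

def tr (a : A) : A := a + S.st a

def d (i : ℕ) : A := S.g (i, false) * S.g (i, true)

def trc (w : List L) : Subalgebra.center K A :=
  ⟨S.tr (S.wd w), Subalgebra.mem_center_iff.2 fun b => (S.tr_comm _ b).symm⟩

noncomputable def T (cs : Multiset (List L)) : A := ((cs.map S.trc).prod : Subalgebra.center K A)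

noncomputable def val (c : Cfg) : A := S.wd c.w * S.T c.cs

@[simp] lemma wd_nil : S.wd [] = 1 := rfl

lemma wd_cons (l : L) (w : List L) : S.wd (l :: w) = S.g l * S.wd w := by simp [wd]

lemma wd_append (a b : List L) : S.wd (a ++ b) = S.wd a * S.wd b := by simp [wd]

lemma wd_single (l : L) : S.wd [l] = S.g l := by simp [wd]

lemma st_wd (w : List L) : S.st (S.wd w) = S.wd (wstar w) := by
  induction w with
  | nil => exact S.st_one
  | cons l w ih => rw [wd_cons, S.st_mul, ih, S.st_g, wstar_cons, wd_append, wd_single]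

lemma tr_comm' (a b : A) : S.tr a * b = b * S.tr a := S.tr_comm a b

lemma d_comm' (i : ℕ) (b : A) : S.d i * b = b * S.d i := S.d_comm i b

lemma st_eq (a : A) : S.st a = S.tr a - a := by simp [tr]

lemma g_mul_star (l : L) : S.g l * S.g (lstar l) = S.d l.1 := by
  obtain ⟨i, b⟩ := l
  cases b
  · rfl
  · have h := S.tr_comm (S.g (i, false)) (S.g (i, false))
    rw [S.st_g, add_mul, mul_add] at h
    exact add_left_cancel h

lemma tr_mul_comm (a b : A) : S.tr (a * b) = S.tr (b * a) := by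
  have h1 := S.tr_comm' a b
  have h2 := S.tr_comm' b a
  have h3 := S.tr_comm' a (S.tr b)
  have e1 : S.tr (a * b) = a * b + (S.tr b - b) * (S.tr a - a) := by
    rw [tr, S.st_mul, S.st_eq a, S.st_eq b]
  have e2 : S.tr (b * a) = b * a + (S.tr a - a) * (S.tr b - b) := by
    rw [tr, S.st_mul, S.st_eq a, S.st_eq b]
  rw [e1, e2]
  simp only [mul_sub, sub_mul]
  rw [h1, h2, h3]
  abel

lemma st_tr (a : A) : S.st (S.tr a) = S.tr a := by
  rw [tr, map_add, S.st_st, add_comm]

lemma tr_st (a : A) : S.tr (S.st a) = S.tr a := by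
  rw [tr, S.st_st, add_comm]; rfl

lemma st_d (i : ℕ) : S.st (S.d i) = S.d i := by
  rw [d, S.st_mul, S.st_g, S.st_g]; rfl

lemma tr_add (a b : A) : S.tr (a + b) = S.tr a + S.tr b := by
  simp only [tr, map_add]; abel

lemma tr_sub (a b : A) : S.tr (a - b) = S.tr a - S.tr b := by
  simp only [tr, map_sub]; abel

lemma tr_smul (c : K) (a : A) : S.tr (c • a) = c • S.tr a := by
  simp only [tr, map_smul, smul_add]

lemma tr_mul_central (a z : A) (hz : ∀ b, z * b = b * z) (hs : S.st z = z) :
    S.tr (a * z) = S.tr a * z := by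
  rw [tr, S.st_mul, hs, hz, tr, add_mul]

@[simp] lemma T_zero : S.T 0 = 1 := by simp [T]

lemma T_cons (b : List L) (cs : Multiset (List L)) :
    S.T (b ::ₘ cs) = S.tr (S.wd b) * S.T cs := by
  simp [T, trc]

lemma T_comm (cs : Multiset (List L)) (b : A) : S.T cs * b = b * S.T cs :=
  (Subalgebra.mem_center_iff.1 ((cs.map S.trc).prod).2 b).symm

lemma st_T (cs : Multiset (List L)) : S.st (S.T cs) = S.T cs := by
  induction cs using Multiset.induction_on with
  | empty => simpa using S.st_one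
  | cons b cs ih => rw [T_cons, S.st_mul, ih, st_tr, T_comm]

lemma tr_wd_rot (a b : List L) : S.tr (S.wd (a ++ b)) = S.tr (S.wd (b ++ a)) := by
  rw [wd_append, wd_append, tr_mul_comm]

lemma tr_wd_wstar (a : List L) : S.tr (S.wd (wstar a)) = S.tr (S.wd a) := by
  rw [← st_wd, tr_st]

/-- Span of words of length at most `n`. -/
def Ale (n : ℕ) : Submodule K A := Submodule.span K {x | ∃ w : List L, w.length ≤ n ∧ x = S.wd w}

/-- Multiples of norms, of length at most `n`. -/
def D (n : ℕ) : Submodule K A :=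
  Submodule.span K {x | ∃ (i : ℕ) (w : List L), w.length + 2 ≤ n ∧ x = S.d i * S.wd w}

lemma wd_mem (w : List L) {n : ℕ} (h : w.length ≤ n) : S.wd w ∈ S.Ale n :=
  Submodule.subset_span ⟨w, h, rfl⟩

lemma Ale_mono {m n : ℕ} (h : m ≤ n) : S.Ale m ≤ S.Ale n :=
  Submodule.span_mono fun _ ⟨w, hw, e⟩ => ⟨w, hw.trans h, e⟩

lemma D_mono {m n : ℕ} (h : m ≤ n) : S.D m ≤ S.D n :=
  Submodule.span_mono fun _ ⟨i, w, hw, e⟩ => ⟨i, w, hw.trans h, e⟩

lemma Ale_mul {m n : ℕ} {x y : A} (hx : x ∈ S.Ale m) (hy : y ∈ S.Ale n) :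
    x * y ∈ S.Ale (m + n) := by
  induction hx using Submodule.span_induction with
  | mem x hx =>
    obtain ⟨w, hw, rfl⟩ := hx
    induction hy using Submodule.span_induction with
    | mem y hy =>
      obtain ⟨w', hw', rfl⟩ := hy
      rw [← wd_append]
      exact S.wd_mem _ (by rw [List.length_append]; omega)
    | zero => simp
    | add y z _ _ h1 h2 => rw [mul_add]; exact add_mem h1 h2
    | smul c y _ h1 => rw [mul_smul_comm]; exact Submodule.smul_mem _ _ h1
  | zero => simp
  | add y z _ _ h1 h2 => rw [add_mul]; exact add_mem h1 h2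
  | smul c y _ h1 => rw [smul_mul_assoc]; exact Submodule.smul_mem _ _ h1

lemma st_mem_Ale {n : ℕ} {x : A} (hx : x ∈ S.Ale n) : S.st x ∈ S.Ale n := by
  induction hx using Submodule.span_induction with
  | mem x hx =>
    obtain ⟨w, hw, rfl⟩ := hx
    rw [st_wd]; exact S.wd_mem _ (by simpa using hw)
  | zero => simp
  | add y z _ _ h1 h2 => rw [map_add]; exact add_mem h1 h2
  | smul c y _ h1 => rw [map_smul]; exact Submodule.smul_mem _ _ h1

lemma tr_mem_Ale {n : ℕ} {x : A} (hx : x ∈ S.Ale n) : S.tr x ∈ S.Ale n :=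
  add_mem hx (S.st_mem_Ale hx)

lemma d_mul_mem {m n : ℕ} {x : A} (i : ℕ) (hx : x ∈ S.Ale m) (h : m + 2 ≤ n) :
    S.d i * x ∈ S.D n := by
  induction hx using Submodule.span_induction with
  | mem x hx =>
    obtain ⟨w, hw, rfl⟩ := hx
    exact Submodule.subset_span ⟨i, w, by omega, rfl⟩
  | zero => simp
  | add y z _ _ h1 h2 => rw [mul_add]; exact add_mem h1 h2
  | smul c y _ h1 => rw [mul_smul_comm]; exact Submodule.smul_mem _ _ h1

lemma mul_mem_D {m n : ℕ} {x y : A} (hy : y ∈ S.Ale m) (hx : x ∈ S.D n) :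
    y * x ∈ S.D (m + n) := by
  induction hx using Submodule.span_induction with
  | mem x hx =>
    obtain ⟨i, w, hw, rfl⟩ := hx
    rw [← mul_assoc, ← S.d_comm', mul_assoc]
    exact S.d_mul_mem i (S.Ale_mul hy (S.wd_mem w le_rfl)) (by omega)
  | zero => simp
  | add y z _ _ h1 h2 => rw [mul_add]; exact add_mem h1 h2
  | smul c y _ h1 => rw [mul_smul_comm]; exact Submodule.smul_mem _ _ h1

lemma tr_mem_D {n : ℕ} {x : A} (hx : x ∈ S.D n) : S.tr x ∈ S.D n := by
  induction hx using Submodule.span_induction with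
  | mem x hx =>
    obtain ⟨i, w, hw, rfl⟩ := hx
    rw [S.d_comm', S.tr_mul_central _ _ (S.d_comm' i) (S.st_d i), ← S.d_comm']
    exact S.d_mul_mem i (S.tr_mem_Ale (S.wd_mem w le_rfl)) hw
  | zero => simp [tr]
  | add y z _ _ h1 h2 => rw [tr_add]; exact add_mem h1 h2
  | smul c y _ h1 => rw [tr_smul]; exact Submodule.smul_mem _ _ h1

lemma T_mem (cs : Multiset (List L)) : S.T cs ∈ S.Ale (cs.map List.length).sum := by
  induction cs using Multiset.induction_on with
  | empty => simpa using S.wd_mem [] le_rfl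
  | cons b cs ih =>
    rw [T_cons, Multiset.map_cons, Multiset.sum_cons]
    exact S.Ale_mul (S.tr_mem_Ale (S.wd_mem b le_rfl)) ih

lemma val_mem (c : Cfg) : S.val c ∈ S.Ale c.size := S.Ale_mul (S.wd_mem _ le_rfl) (S.T_mem _)

lemma R1 (l : L) (a : A) :
    S.g l * a * S.g l = S.tr (S.g l * a) * S.g l - S.d l.1 * S.st a := by
  have h := S.g_mul_star (lstar l)
  rw [lstar_lstar] at h
  rw [tr, S.st_mul, S.st_g, add_mul, mul_assoc (S.st a), h, S.d_comm']
  simp [lstar]

lemma R2 (l : L) (a : A) :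
    S.g l * a * S.g (lstar l) = - (S.g l * S.st a * S.g (lstar l)) + S.d l.1 * S.tr a := by
  have h : S.g l * S.tr a * S.g (lstar l) = S.d l.1 * S.tr a := by
    rw [← S.tr_comm', mul_assoc, S.g_mul_star, S.d_comm']
  rw [← h, tr, mul_add, add_mul]; abel

/-- Proportional modulo norms. -/
def Rel (n : ℕ) (x y : A) : Prop := ∃ ε : K, x - ε • y ∈ S.D n

lemma Rel.refl (n : ℕ) (x : A) : S.Rel n x x := ⟨1, by simp⟩

lemma Rel.trans {S : StdInv K A} {n : ℕ} {x y z : A} (h : S.Rel n x y) (h' : S.Rel n y z) :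
    S.Rel n x z := by
  obtain ⟨ε, h⟩ := h
  obtain ⟨ε', h'⟩ := h'
  refine ⟨ε * ε', ?_⟩
  have := add_mem h (Submodule.smul_mem _ ε h')
  convert this using 1
  rw [smul_sub, mul_smul]; abel

lemma normalize_cyc {e : ℕ × ℕ} {w : List L} (hw : w ≠ []) (h : e ∈ cyc w) {p q : ℕ}
    (he : e = mke p q) :
    ∃ w', w' ≠ [] ∧ S.tr (S.wd w') = S.tr (S.wd w) ∧ cyc w' = cyc w ∧ w'.length = w.length ∧
      fin w' = p ∧ first w' = q := by
  obtain ⟨a, b, rfl, h2⟩ := mem_cyc h
  have hne : b ++ a ≠ [] := by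
    intro h'; apply hw; simp at h' ⊢; tauto
  rcases mke_eq (h2.symm.trans he) with h3 | h3
  · exact ⟨b ++ a, hne, S.tr_wd_rot _ _, cyc_rot _ _, by simp [add_comm], h3.1, h3.2⟩
  · refine ⟨wstar (b ++ a), wstar_ne_nil hne, ?_, ?_, by simp [add_comm], ?_, ?_⟩
    · rw [tr_wd_wstar, tr_wd_rot]
    · rw [cyc_wstar hne, cyc_rot]
    · rw [fin_wstar hne, h3.2]
    · rw [first_wstar hne, h3.1]

lemma arrange (l : L) (r : List L) (cs : Multiset (List L)) (hok : ∀ b ∈ cs, b ≠ []) (f : ℕ)
    (h : mke (code (lstar l)) f ∈ path (code (lstar l)) r 1 + cs.bind cyc) :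
    ∃ (r' : List L) (cs' : Multiset (List L)), (∀ b ∈ cs', b ≠ []) ∧ fstE r' 1 = f ∧
      path (code (lstar l)) r' 1 + cs'.bind cyc = path (code (lstar l)) r 1 + cs.bind cyc ∧
      S.Rel (r.length + 1 + (cs.map List.length).sum) (S.val ⟨l :: r', cs'⟩)
        (S.val ⟨l :: r, cs⟩) := by
  rw [Multiset.mem_add] at h
  rcases h with h | h
  · obtain ⟨a, b, rfl, he⟩ := mem_path h
    by_cases ha : a = []
    · subst ha
      refine ⟨b, cs, hok, ?_, rfl, Rel.refl _ _ _⟩
      rcases mke_eq he with h1 | h1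
      · exact h1.2.symm
      · rw [← h1.1, h1.2]; rfl
    rw [lstE_eq ha] at he
    rcases mke_eq he with h1 | h1
    · obtain ⟨a', m, rfl, hm⟩ := exists_fin ha
      have hml : m = l := by
        have := code_inj (h1.1.trans hm)
        rw [← lstar_lstar m, ← this, lstar_lstar]
      subst hml
      refine ⟨b, (m :: a') ::ₘ cs, ?_, h1.2.symm, ?_, 1, ?_⟩
      · intro c hc
        rcases Multiset.mem_cons.1 hc with rfl | hc
        · simp
        · exact hok c hc
      · rw [Multiset.cons_bind, cyc_cons, List.append_assoc, List.singleton_append,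
          path_append_cons]
        abel
      · have : S.val ⟨m :: b, (m :: a') ::ₘ cs⟩ - (1 : K) • S.val ⟨m :: (a' ++ [m] ++ b), cs⟩ =
            S.d m.1 * (S.st (S.wd a') * S.wd b * S.T cs) := by
          simp only [val, T_cons, wd_cons, wd_append, wd_nil, one_smul, mul_one]
          have h2 := S.R1 m (S.wd a')
          have h3 : S.g m * (S.wd a' * S.g m * S.wd b) * S.T cs =
              (S.g m * S.wd a' * S.g m) * S.wd b * S.T cs := by noncomm_ring
          rw [h3, h2, ← mul_assoc, ← S.tr_comm']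
          noncomm_ring
        rw [this]
        refine S.d_mul_mem _ (S.Ale_mul (S.Ale_mul (S.st_mem_Ale (S.wd_mem a' le_rfl))
          (S.wd_mem b le_rfl)) (S.T_mem cs)) ?_
        simp only [List.length_append, List.length_singleton]; omega
    · have hb : b ≠ [] := by
        rintro rfl
        have := two_le_code (lstar l)
        simp [fstE] at h1; omega
      obtain ⟨m, b', rfl, -⟩ := exists_first hb
      have hml : m = lstar l := (code_inj h1.1).symm
      subst hml
      refine ⟨wstar a ++ lstar l :: b', cs, hok, ?_, ?_, -1, ?_⟩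
      · rw [fstE_append, fstE_eq (wstar_ne_nil ha), first_wstar ha, h1.2]
      · rw [path_append_cons, path_append_cons, path_wstar]
      · have : S.val ⟨l :: (wstar a ++ lstar l :: b'), cs⟩ -
            (-1 : K) • S.val ⟨l :: (a ++ lstar l :: b'), cs⟩ =
            S.d l.1 * (S.tr (S.wd a) * S.wd b' * S.T cs) := by
          simp only [val, wd_cons, wd_append, neg_smul, one_smul, ← st_wd]
          have h2 := S.R2 l (S.wd a)
          have h3 : S.g l * (S.wd a * (S.g (lstar l) * S.wd b')) * S.T cs =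
              (S.g l * S.wd a * S.g (lstar l)) * S.wd b' * S.T cs := by noncomm_ring
          rw [h3, h2]
          noncomm_ring
        rw [this]
        refine S.d_mul_mem _ (S.Ale_mul (S.Ale_mul (S.tr_mem_Ale (S.wd_mem a le_rfl))
          (S.wd_mem b' le_rfl)) (S.T_mem cs)) ?_
        simp only [List.length_append, List.length_cons]; omega
  · obtain ⟨w, hw, hm⟩ := Multiset.mem_bind.1 h
    obtain ⟨cs', rfl⟩ := Multiset.exists_cons_of_mem hw
    obtain ⟨w', hne, htr, hcyc, hlen, hfin, hfirst⟩ := S.normalize_cyc (hok w hw) hm rfl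
    obtain ⟨a', m, rfl, hm'⟩ := exists_fin hne
    have hml : m = l := by
      have := code_inj (hm'.symm.trans hfin)
      rw [← lstar_lstar m, this, lstar_lstar]
    subst hml
    refine ⟨a' ++ m :: r, cs', fun c hc => hok c (Multiset.mem_cons_of_mem hc), ?_, ?_, 1, ?_⟩
    · rw [← hfirst, first, fstE_append, fstE_append]; rfl
    · rw [Multiset.cons_bind, ← hcyc, cyc_rot, List.singleton_append, cyc_cons, path_append_cons]
      abel
    · have : S.val ⟨m :: (a' ++ m :: r), cs'⟩ - (1 : K) • S.val ⟨m :: r, w ::ₘ cs'⟩ =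
          S.d m.1 * (-(S.st (S.wd a') * S.wd r * S.T cs')) := by
        simp only [val, T_cons, ← htr, one_smul]
        rw [S.tr_wd_rot, List.singleton_append]
        simp only [wd_cons, wd_append]
        have h2 := S.R1 m (S.wd a')
        have h3 : S.g m * (S.wd a' * (S.g m * S.wd r)) * S.T cs' =
            (S.g m * S.wd a' * S.g m) * S.wd r * S.T cs' := by noncomm_ring
        rw [h3, h2, ← mul_assoc (S.g m * S.wd r), ← S.tr_comm' _ (S.g m * S.wd r)]
        noncomm_ring
      rw [this]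
      refine S.d_mul_mem _ (neg_mem (S.Ale_mul (S.Ale_mul (S.st_mem_Ale (S.wd_mem a' le_rfl))
        (S.wd_mem r le_rfl)) (S.T_mem cs'))) ?_
      rw [Multiset.map_cons, Multiset.sum_cons, ← hlen]
      simp only [List.length_append, List.length_singleton]; omega

lemma same_graph_ne (n : ℕ)
    (ih : ∀ c c' : Cfg, c.Ok → c'.Ok → c.size < n → c.E = c'.E → S.Rel c.size (S.val c) (S.val c'))
    (c c' : Cfg) (h : c.Ok) (h' : c'.Ok) (hn : c.size = n) (he : c.E = c'.E) (hw : c.w ≠ []) :
    S.Rel c.size (S.val c) (S.val c') := by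
  have hsz := Cfg.size_eq h h' he
  have hf := Cfg.fstE_eq h' he
  obtain ⟨w, cs⟩ := c
  obtain ⟨w', cs'⟩ := c'
  obtain ⟨l, r, rfl, -⟩ := exists_first hw
  have hw' : w' ≠ [] := by
    rintro rfl
    have := two_le_code l
    simp [fstE] at hf; omega
  obtain ⟨l', r', rfl, -⟩ := exists_first hw'
  have hl : l = l' := code_inj hf
  subst hl
  simp only [Cfg.E, path_cons, Multiset.cons_add, Multiset.cons_inj_right] at he
  have hmem : mke (code (lstar l)) (fstE r 1) ∈ path (code (lstar l)) r' 1 + cs'.bind cyc := by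
    rw [← he, path_eq_suf]; simp
  obtain ⟨r'', cs'', hok, hf', he', hrel⟩ := S.arrange l r' cs' h' _ hmem
  have he2 : (⟨r, cs⟩ : Cfg).E = (⟨r'', cs''⟩ : Cfg).E := by
    have := he.trans he'.symm
    rw [path_eq_suf, path_eq_suf, hf', Multiset.cons_add, Multiset.cons_add,
      Multiset.cons_inj_right] at this
    simp only [Cfg.E]
    rw [path_eq_suf, path_eq_suf, hf', Multiset.cons_add, Multiset.cons_add, this]
  have hlt : (⟨r, cs⟩ : Cfg).size < n := by
    rw [← hn]; simp [Cfg.size]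
  obtain ⟨ε, hε⟩ := ih ⟨r, cs⟩ ⟨r'', cs''⟩ h hok hlt he2
  have h1 : S.Rel (⟨l :: r, cs⟩ : Cfg).size (S.val ⟨l :: r, cs⟩) (S.val ⟨l :: r'', cs''⟩) := by
    refine ⟨ε, ?_⟩
    have := S.mul_mem_D (S.wd_mem [l] le_rfl) hε
    rw [wd_single] at this
    convert this using 2
    · simp [Cfg.size]; omega
    · simp only [val, wd_cons, mul_sub, mul_smul_comm, mul_assoc]
  refine h1.trans ?_
  convert hrel using 1
  rw [hsz]; simp [Cfg.size]

theorem same_graph (n : ℕ) : ∀ c c' : Cfg, c.Ok → c'.Ok → c.size = n → c.E = c'.E →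
    S.Rel c.size (S.val c) (S.val c') := by
  induction n using Nat.strong_induction_on with
  | _ n ih =>
  intro c c' h h' hn he
  have ih' : ∀ c c' : Cfg, c.Ok → c'.Ok → c.size < n → c.E = c'.E →
      S.Rel c.size (S.val c) (S.val c') := fun c c' h h' hlt he => ih _ hlt c c' h h' rfl he
  by_cases hw : c.w ≠ []
  · exact S.same_graph_ne n ih' c c' h h' hn he hw
  have hf := Cfg.fstE_eq h' he
  have hsz := Cfg.size_eq h h' he
  obtain ⟨w, cs⟩ := c
  obtain ⟨w', cs'⟩ := c'
  obtain rfl : w = [] := by simpa using hw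
  obtain rfl : w' = [] := by
    by_contra hne
    have := two_le_first hne
    simp only at hf
    rw [fstE_eq hne] at hf
    simp [fstE] at hf; omega
  simp only [Cfg.E, add_right_inj] at he
  rcases Multiset.empty_or_exists_mem cs with rfl | ⟨w, hwm⟩
  · rcases Multiset.empty_or_exists_mem cs' with rfl | ⟨w', hwm'⟩
    · exact Rel.refl _ _ _
    · exfalso
      have : mke (fin w') (first w') ∈ cs'.bind cyc :=
        Multiset.mem_bind.2 ⟨w', hwm', by simp [cyc]⟩
      rw [← he] at this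
      simp at this
  · have hmem : mke (fin w) (first w) ∈ cs'.bind cyc := by
      rw [← he]; exact Multiset.mem_bind.2 ⟨w, hwm, by simp [cyc]⟩
    obtain ⟨w', hwm', hm⟩ := Multiset.mem_bind.1 hmem
    obtain ⟨ds, rfl⟩ := Multiset.exists_cons_of_mem hwm
    obtain ⟨ds', rfl⟩ := Multiset.exists_cons_of_mem hwm'
    have hne := h w hwm
    obtain ⟨v, hv, htr, hcyc, hlen, hfin, hfirst⟩ := S.normalize_cyc (h' w' hwm') hm rfl
    have he2 : (⟨w, ds⟩ : Cfg).E = (⟨v, ds'⟩ : Cfg).E := by
      rw [Multiset.cons_bind, Multiset.cons_bind, ← hcyc, cyc, cyc, hfin, hfirst,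
        Multiset.cons_add, Multiset.cons_add, Multiset.cons_inj_right] at he
      simp only [Cfg.E]
      rw [path_ne hne, path_ne hv, hfin, hfirst]
      simp only [Multiset.cons_add, he]
    have hsz2 : (⟨w, ds⟩ : Cfg).size = (⟨[], w ::ₘ ds⟩ : Cfg).size := by simp [Cfg.size]
    obtain ⟨ε, hε⟩ := S.same_graph_ne n ih' ⟨w, ds⟩ ⟨v, ds'⟩
      (fun b hb => h b (Multiset.mem_cons_of_mem hb))
      (fun b hb => h' b (Multiset.mem_cons_of_mem hb)) (hsz2.trans hn) he2 hne
    refine ⟨ε, ?_⟩
    have := S.tr_mem_D hε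
    rw [hsz2, tr_sub, tr_smul] at this
    convert this using 2
    · simp only [val, T_cons, wd_nil, one_mul]
      rw [S.tr_mul_central _ _ (S.T_comm _) (S.st_T _)]
    · simp only [val, T_cons, wd_nil, one_mul]
      rw [S.tr_mul_central _ _ (S.T_comm _) (S.st_T _), htr]

end StdInv

end Pool.Agent.Work.MP_228e0c_al.H45
end

-- merged part: Pool.Agent.Work.MP_228e0c_al.H45.Pluecker
section
/-! Linear independence of non-nesting products of Pluecker coordinates. -/

set_option autoImplicit false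

namespace Pool.Agent.Work.MP_228e0c_al.H45

open MvPolynomial

/-- The Pluecker coordinate of the plane vectors with indices `p` and `q`. -/
noncomputable def om (K : Type) [Field K] (p q : ℕ) : MvPolynomial (ℕ × Bool) K :=
  X (p, false) * X (q, true) - X (q, false) * X (p, true)

/-- Product of Pluecker coordinates over a multiset of edges. -/
noncomputable def omG (K : Type) [Field K] (Γ : Multiset (ℕ × ℕ)) : MvPolynomial (ℕ × Bool) K :=
  (Γ.map fun e => om K e.1 e.2).prod

/-- Loop-free and non-nesting multisets of edges. -/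
def NN (Γ : Multiset (ℕ × ℕ)) : Prop :=
  (∀ e ∈ Γ, e.1 < e.2) ∧ ∀ e ∈ Γ, ∀ e' ∈ Γ, e.1 < e'.1 → e.2 ≤ e'.2

noncomputable def mexp (Γ : Multiset (ℕ × ℕ)) : (ℕ × Bool) →₀ ℕ :=
  (Γ.map fun e => Finsupp.single (e.1, false) 1 + Finsupp.single (e.2, true) 1).sum

def wtv (v : ℕ × Bool) : ℕ := if v.2 then v.1 else 0

noncomputable def wt (m : (ℕ × Bool) →₀ ℕ) : ℕ := Finsupp.weight wtv m

lemma wt_add (m m' : (ℕ × Bool) →₀ ℕ) : wt (m + m') = wt m + wt m' := map_add _ _ _

lemma wt_single (v : ℕ × Bool) : wt (Finsupp.single v 1) = wtv v := by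
  simp [wt, Finsupp.weight_single]

variable {K : Type} [Field K]

def SLT (k : ℕ) (f : MvPolynomial (ℕ × Bool) K) : Prop := ∀ m ∈ f.support, wt m < k

lemma SLT.sub {k : ℕ} {f g : MvPolynomial (ℕ × Bool) K} (hf : SLT k f) (hg : SLT k g) :
    SLT k (f - g) := by
  intro m hm
  rcases Finset.mem_union.1 (support_sub _ f g hm) with h | h
  · exact hf m h
  · exact hg m h

lemma SLT.add {k : ℕ} {f g : MvPolynomial (ℕ × Bool) K} (hf : SLT k f) (hg : SLT k g) :
    SLT k (f + g) := by
  intro m hm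
  rcases Finset.mem_union.1 (support_add hm) with h | h
  · exact hf m h
  · exact hg m h

lemma SLT.mul {k l : ℕ} {f g : MvPolynomial (ℕ × Bool) K} (hf : SLT (k + 1) f) (hg : SLT l g) :
    SLT (k + l) (f * g) := by
  classical
  intro m hm
  obtain ⟨a, ha, b, hb, rfl⟩ := Finset.mem_add.1 (support_mul f g hm)
  have := hf a ha
  have := hg b hb
  rw [wt_add]; omega

lemma SLT.mono {k l : ℕ} {f : MvPolynomial (ℕ × Bool) K} (hf : SLT k f) (h : k ≤ l) : SLT l f :=
  fun m hm => (hf m hm).trans_le h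

lemma SLT_monomial (m : (ℕ × Bool) →₀ ℕ) (c : K) {k : ℕ} (h : wt m < k) :
    SLT k (monomial m c) := by
  classical
  intro m' hm'
  have := support_monomial_subset hm'
  rw [Finset.mem_singleton] at this
  rwa [this]

lemma X_mul_X (u v : ℕ × Bool) :
    (X u * X v : MvPolynomial (ℕ × Bool) K) =
      monomial (Finsupp.single u 1 + Finsupp.single v 1) 1 := by
  simp [X, monomial_mul]

lemma mexp_cons (e : ℕ × ℕ) (Γ : Multiset (ℕ × ℕ)) :
    mexp (e ::ₘ Γ) = (Finsupp.single (e.1, false) 1 + Finsupp.single (e.2, true) 1) + mexp Γ := by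
  simp [mexp]

lemma omG_cons (e : ℕ × ℕ) (Γ : Multiset (ℕ × ℕ)) :
    omG K (e ::ₘ Γ) = om K e.1 e.2 * omG K Γ := by
  simp [omG]

lemma omG_add (Γ Γ' : Multiset (ℕ × ℕ)) : omG K (Γ + Γ') = omG K Γ * omG K Γ' := by
  simp [omG]

lemma omG_lower (Γ : Multiset (ℕ × ℕ)) (h : ∀ e ∈ Γ, e.1 < e.2) :
    SLT (wt (mexp Γ)) (omG K Γ - monomial (mexp Γ) 1) := by
  induction Γ using Multiset.induction_on with
  | empty =>
    intro m hm
    simp [omG, mexp] at hm
  | cons e Γ ih =>
    have ih' := ih (fun e' he' => h e' (Multiset.mem_cons_of_mem he'))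
    have he := h e (Multiset.mem_cons_self _ _)
    set a : (ℕ × Bool) →₀ ℕ := Finsupp.single (e.1, false) 1 + Finsupp.single (e.2, true) 1
    set b : (ℕ × Bool) →₀ ℕ := Finsupp.single (e.2, false) 1 + Finsupp.single (e.1, true) 1
    have ha : wt a = e.2 := by simp [a, wt_add, wt_single, wtv]
    have hb : wt b = e.1 := by simp [b, wt_add, wt_single, wtv]
    have hom : om K e.1 e.2 = monomial a 1 - monomial b 1 := by
      rw [om, X_mul_X, X_mul_X]
    have key : omG K (e ::ₘ Γ) - monomial (mexp (e ::ₘ Γ)) 1 =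
        monomial a 1 * (omG K Γ - monomial (mexp Γ) 1) -
          (monomial b 1 * (omG K Γ - monomial (mexp Γ) 1) + monomial (b + mexp Γ) 1) := by
      rw [omG_cons, mexp_cons, hom]
      have h1 : (monomial (a + mexp Γ) 1 : MvPolynomial (ℕ × Bool) K) =
          monomial a 1 * monomial (mexp Γ) 1 := by simp [monomial_mul]
      have h2 : (monomial (b + mexp Γ) 1 : MvPolynomial (ℕ × Bool) K) =
          monomial b 1 * monomial (mexp Γ) 1 := by simp [monomial_mul]
      rw [h1, h2]; ring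
    rw [key, mexp_cons, wt_add, ha]
    refine SLT.sub (SLT.mul (SLT_monomial _ _ (by omega)) ih') (SLT.add ?_ ?_)
    · exact (SLT.mul (k := e.1) (SLT_monomial _ _ (by omega)) ih').mono (by omega)
    · exact SLT_monomial _ _ (by rw [wt_add, hb]; omega)

lemma mexp_false (Γ : Multiset (ℕ × ℕ)) (p : ℕ) :
    mexp Γ (p, false) = (Γ.map Prod.fst).count p := by
  induction Γ using Multiset.induction_on with
  | empty => simp [mexp]
  | cons e Γ ih =>
    rw [mexp_cons, Multiset.map_cons, Multiset.count_cons]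
    simp only [Finsupp.add_apply, ih, Finsupp.single_apply, Prod.mk.injEq]
    by_cases h : p = e.1
    · simp [h]; omega
    · simp [h, Ne.symm h]

lemma mexp_true (Γ : Multiset (ℕ × ℕ)) (p : ℕ) :
    mexp Γ (p, true) = (Γ.map Prod.snd).count p := by
  induction Γ using Multiset.induction_on with
  | empty => simp [mexp]
  | cons e Γ ih =>
    rw [mexp_cons, Multiset.map_cons, Multiset.count_cons]
    simp only [Finsupp.add_apply, ih, Finsupp.single_apply, Prod.mk.injEq]
    by_cases h : p = e.2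
    · simp [h]; omega
    · simp [h, Ne.symm h]

lemma NN.exists_min {Γ : Multiset (ℕ × ℕ)} (h : NN Γ) (h0 : Γ ≠ 0) :
    ∃ e ∈ Γ, ∀ e' ∈ Γ, e.1 ≤ e'.1 ∧ e.2 ≤ e'.2 := by
  classical
  obtain ⟨e, he, hmin⟩ := Finset.exists_min_image Γ.toFinset (fun e => e.1 + e.2)
    (by obtain ⟨x, hx⟩ := Multiset.exists_mem_of_ne_zero h0; exact ⟨x, by simpa using hx⟩)
  rw [Multiset.mem_toFinset] at he
  refine ⟨e, he, fun e' he' => ?_⟩
  have h1 := hmin e' (by simpa using he')
  have h2 := h.2 e he e' he'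
  have h3 := h.2 e' he' e he
  omega

lemma NN.of_cons {e : ℕ × ℕ} {Γ : Multiset (ℕ × ℕ)} (h : NN (e ::ₘ Γ)) : NN Γ :=
  ⟨fun e' he' => h.1 e' (Multiset.mem_cons_of_mem he'), fun a ha b hb =>
    h.2 a (Multiset.mem_cons_of_mem ha) b (Multiset.mem_cons_of_mem hb)⟩

lemma NN.unique (n : ℕ) : ∀ Γ Γ' : Multiset (ℕ × ℕ), Multiset.card Γ = n → NN Γ → NN Γ' →
    Γ.map Prod.fst = Γ'.map Prod.fst → Γ.map Prod.snd = Γ'.map Prod.snd → Γ = Γ' := by
  induction n with
  | zero =>
    intro Γ Γ' hc _ _ h1 _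
    have := congrArg Multiset.card h1
    rw [Multiset.card_map, Multiset.card_map] at this
    have hc' : Multiset.card Γ' = 0 := by omega
    rw [Multiset.card_eq_zero.1 hc, Multiset.card_eq_zero.1 hc']
  | succ n ih =>
    intro Γ Γ' hc h h' h1 h2
    have hc' := congrArg Multiset.card h1
    rw [Multiset.card_map, Multiset.card_map] at hc'
    have h0 : Γ ≠ 0 := by rintro rfl; simp at hc
    have h0' : Γ' ≠ 0 := by rintro rfl; rw [hc] at hc'; simp at hc'
    obtain ⟨e, he, hm⟩ := h.exists_min h0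
    obtain ⟨e', he', hm'⟩ := h'.exists_min h0'
    have a1 : e.1 ∈ Γ'.map Prod.fst := h1 ▸ Multiset.mem_map_of_mem _ he
    have a2 : e.2 ∈ Γ'.map Prod.snd := h2 ▸ Multiset.mem_map_of_mem _ he
    have a3 : e'.1 ∈ Γ.map Prod.fst := h1 ▸ Multiset.mem_map_of_mem _ he'
    have a4 : e'.2 ∈ Γ.map Prod.snd := h2 ▸ Multiset.mem_map_of_mem _ he'
    obtain ⟨x1, hx1, e1⟩ := Multiset.mem_map.1 a1
    obtain ⟨x2, hx2, e2⟩ := Multiset.mem_map.1 a2
    obtain ⟨x3, hx3, e3⟩ := Multiset.mem_map.1 a3
    obtain ⟨x4, hx4, e4⟩ := Multiset.mem_map.1 a4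
    have b1 := (hm' x1 hx1).1
    have b2 := (hm' x2 hx2).2
    have b3 := (hm x3 hx3).1
    have b4 := (hm x4 hx4).2
    have hee : e = e' := Prod.ext (by omega) (by omega)
    subst hee
    obtain ⟨Δ, rfl⟩ := Multiset.exists_cons_of_mem he
    obtain ⟨Δ', rfl⟩ := Multiset.exists_cons_of_mem he'
    rw [Multiset.map_cons, Multiset.map_cons, Multiset.cons_inj_right] at h1 h2
    rw [ih Δ Δ' (by simpa using hc) h.of_cons h'.of_cons h1 h2]

lemma mexp_inj {Γ Γ' : Multiset (ℕ × ℕ)} (h : NN Γ) (h' : NN Γ') (he : mexp Γ = mexp Γ') :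
    Γ = Γ' := by
  refine NN.unique _ Γ Γ' rfl h h' ?_ ?_
  · ext p; rw [← mexp_false, ← mexp_false, he]
  · ext p; rw [← mexp_true, ← mexp_true, he]

theorem omG_linearIndependent :
    LinearIndependent K (fun Γ : {Γ : Multiset (ℕ × ℕ) // NN Γ} => omG K Γ.1) := by
  classical
  rw [linearIndependent_iff']
  intro s c hs i hi
  by_contra hne
  obtain ⟨j, hj, hmax⟩ := Finset.exists_max_image (s.filter fun j => c j ≠ 0)
    (fun j => wt (mexp j.1)) ⟨i, by simp [hi, hne]⟩
  rw [Finset.mem_filter] at hj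
  have h0 := congrArg (coeff (mexp j.1)) hs
  rw [coeff_sum, coeff_zero, Finset.sum_eq_single j] at h0
  · have h1 := omG_lower (K := K) j.1 j.2.1
    have h2 : coeff (mexp j.1) (omG K j.1 - monomial (mexp j.1) 1) = 0 := by
      by_contra h3
      exact lt_irrefl _ (h1 _ (mem_support_iff.2 h3))
    rw [coeff_sub, coeff_monomial, if_pos rfl, sub_eq_zero] at h2
    rw [coeff_smul, h2] at h0
    exact hj.2 (by simpa using h0)
  · intro b hb hbj
    by_cases hcb : c b = 0
    · simp [hcb]
    have hle := hmax b (by simp [hb, hcb])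
    have h1 := omG_lower (K := K) b.1 b.2.1
    have h2 : coeff (mexp j.1) (omG K b.1 - monomial (mexp b.1) 1) = 0 := by
      by_contra h3
      have := h1 _ (mem_support_iff.2 h3)
      omega
    have hne' : mexp b.1 ≠ mexp j.1 := fun h => hbj (Subtype.ext (mexp_inj b.2 j.2 h))
    rw [coeff_sub, coeff_monomial, if_neg hne', sub_zero] at h2
    rw [coeff_smul, h2, smul_zero]
  · intro h; exact absurd hj.1 h

end Pool.Agent.Work.MP_228e0c_al.H45
end

-- merged part: Pool.Agent.Work.MP_228e0c_al.H45.Straighten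
section
/-! Straightening of configurations to non-nesting graphs. -/

set_option autoImplicit false

namespace Pool.Agent.Work.MP_228e0c_al.H45

def phi1 (e : ℕ × ℕ) : ℕ := (e.2 - e.1) ^ 2

def Phi (Γ : Multiset (ℕ × ℕ)) : ℕ := (Γ.map phi1).sum

lemma Phi_cons (e : ℕ × ℕ) (Γ : Multiset (ℕ × ℕ)) : Phi (e ::ₘ Γ) = phi1 e + Phi Γ := by
  simp [Phi]

lemma phi1_mke (p q : ℕ) : (phi1 (mke p q) : ℤ) = ((p : ℤ) - q) ^ 2 := by
  rcases le_total p q with h | h
  · simp only [phi1, mke, min_eq_left h, max_eq_right h]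
    push_cast [Nat.cast_sub h]; ring
  · simp only [phi1, mke, min_eq_right h, max_eq_left h]
    push_cast [Nat.cast_sub h]; ring

/-- The two edges `{p,q}` and `{p',q'}` are strictly nested. -/
def Nested (e e' : ℕ × ℕ) : Prop := e.1 < e'.1 ∧ e'.1 < e'.2 ∧ e'.2 < e.2

lemma phi_lt {p q p' q' : ℕ} (h : Nested (mke p q) (mke p' q') ∨ Nested (mke p' q') (mke p q)) :
    phi1 (mke p q') + phi1 (mke p' q) < phi1 (mke p q) + phi1 (mke p' q') ∧
    phi1 (mke p p') + phi1 (mke q q') < phi1 (mke p q) + phi1 (mke p' q') := by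
  have key : ((p : ℤ) - p') * ((q : ℤ) - q') < 0 ∧ ((p : ℤ) - q') * ((q : ℤ) - p') < 0 := by
    have aux : ∀ a b c d : ℕ, Nested (mke a b) (mke c d) →
        ((a : ℤ) - c) * ((b : ℤ) - d) < 0 ∧ ((a : ℤ) - d) * ((b : ℤ) - c) < 0 := by
      intro a b c d ⟨h1, h2, h3⟩
      simp only [mke] at h1 h2 h3
      rcases le_total a b with h | h
      · rw [min_eq_left h, lt_min_iff] at h1
        rw [max_eq_right h, max_lt_iff] at h3
        exact ⟨mul_neg_of_neg_of_pos (by omega) (by omega),
          mul_neg_of_neg_of_pos (by omega) (by omega)⟩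
      · rw [min_eq_right h, lt_min_iff] at h1
        rw [max_eq_left h, max_lt_iff] at h3
        exact ⟨mul_neg_of_pos_of_neg (by omega) (by omega),
          mul_neg_of_pos_of_neg (by omega) (by omega)⟩
    rcases h with h | h
    · exact aux _ _ _ _ h
    · obtain ⟨a, b⟩ := aux _ _ _ _ h
      exact ⟨by linarith only [a], by linarith only [b]⟩
  constructor
  · zify
    rw [phi1_mke, phi1_mke, phi1_mke, phi1_mke]
    linarith only [key.1]
  · zify
    rw [phi1_mke, phi1_mke, phi1_mke, phi1_mke]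
    linarith only [key.2]

namespace StdInv

variable {K A : Type} [Field K] [Ring A] [Algebra K A] (S : StdInv K A)

/-- `c` resolves into two configurations with smaller potential. -/
def Res (c : Cfg) : Prop :=
  ∃ c₁ c₂ : Cfg, c₁.Ok ∧ c₂.Ok ∧ c₁.size = c.size ∧ c₂.size = c.size ∧
    Phi c₁.E < Phi c.E ∧ Phi c₂.E < Phi c.E ∧ ∃ ε : K, S.val c = ε • S.val c₁ + S.val c₂

lemma res_of {c c₁ c₂ : Cfg} (h : c.Ok) (h₁ : c₁.Ok) (h₂ : c₂.Ok) {p q p' q' : ℕ}
    {Γ : Multiset (ℕ × ℕ)} (hE : c.E = mke p q ::ₘ mke p' q' ::ₘ Γ)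
    (hE' : (c₁.E = mke p q' ::ₘ mke p' q ::ₘ Γ ∧ c₂.E = mke p p' ::ₘ mke q q' ::ₘ Γ) ∨
      (c₂.E = mke p q' ::ₘ mke p' q ::ₘ Γ ∧ c₁.E = mke p p' ::ₘ mke q q' ::ₘ Γ))
    (hn : Nested (mke p q) (mke p' q') ∨ Nested (mke p' q') (mke p q))
    (ε : K) (hv : S.val c = ε • S.val c₁ + S.val c₂) : S.Res c := by
  have k0 := Cfg.card_E h
  have k1 := Cfg.card_E h₁
  have k2 := Cfg.card_E h₂
  have hp := phi_lt hn
  rcases hE' with ⟨e1, e2⟩ | ⟨e2, e1⟩
  all_goals
    refine ⟨c₁, c₂, h₁, h₂, ?_, ?_, ?_, ?_, ε, hv⟩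
    · rw [hE] at k0; rw [e1] at k1; simp only [Multiset.card_cons] at k0 k1; omega
    · rw [hE] at k0; rw [e2] at k2; simp only [Multiset.card_cons] at k0 k2; omega
    · rw [hE, e1]; simp only [Phi_cons]; omega
    · rw [hE, e2]; simp only [Phi_cons]; omega

lemma res_pp (a b c : List L) (hb : b ≠ []) (cs : Multiset (List L)) (hok : ∀ b ∈ cs, b ≠ [])
    (hn : Nested (mke (lstE 0 a) (first b)) (mke (fin b) (fstE c 1)) ∨
      Nested (mke (fin b) (fstE c 1)) (mke (lstE 0 a) (first b))) :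
    S.Res ⟨a ++ (b ++ c), cs⟩ := by
  have e1 : ∀ b : List L, b ≠ [] → (⟨a ++ (b ++ c), cs⟩ : Cfg).E =
      mke (lstE 0 a) (first b) ::ₘ mke (fin b) (fstE c 1) ::ₘ
        (pre 0 a + inner b + suf c 1 + cs.bind cyc) := by
    intro b hb
    simp only [Cfg.E]
    rw [path_append, path_cut, lstE_eq hb, pre_eq hb]
    simp only [Multiset.add_cons, Multiset.cons_add, add_assoc]
    rw [Multiset.cons_swap]
  refine S.res_of (c₁ := ⟨a ++ (wstar b ++ c), cs⟩) (c₂ := ⟨a ++ c, b ::ₘ cs⟩) hok hok ?_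
    (e1 b hb) (Or.inr ⟨?_, ?_⟩) hn (-1) ?_
  · intro x hx
    rcases Multiset.mem_cons.1 hx with rfl | hx
    · exact hb
    · exact hok x hx
  · simp only [Cfg.E]
    rw [path_cut, Multiset.cons_bind, cyc]
    simp only [Multiset.add_cons, Multiset.cons_add]
    rw [Multiset.cons_swap]
    congr 2
    abel
  · rw [e1 _ (wstar_ne_nil hb), first_wstar hb, fin_wstar hb, inner_wstar hb]
  · simp only [val, wd_append, T_cons, ← st_wd, neg_smul, one_smul]
    have : S.wd a * S.wd c * (S.tr (S.wd b) * S.T cs) =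
        S.wd a * (S.tr (S.wd b) * S.wd c) * S.T cs := by
      rw [S.tr_comm' _ (S.wd c)]; noncomm_ring
    rw [this, tr]; noncomm_ring

lemma res_pc (a c b : List L) (hb : b ≠ []) (cs : Multiset (List L)) (hok : ∀ b ∈ cs, b ≠ [])
    (hn : Nested (mke (lstE 0 a) (fstE c 1)) (mke (fin b) (first b)) ∨
      Nested (mke (fin b) (first b)) (mke (lstE 0 a) (fstE c 1))) :
    S.Res ⟨a ++ c, b ::ₘ cs⟩ := by
  have e1 : ∀ b : List L, b ≠ [] → (⟨a ++ (b ++ c), cs⟩ : Cfg).E =
      mke (lstE 0 a) (first b) ::ₘ mke (fin b) (fstE c 1) ::ₘ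
        (pre 0 a + inner b + suf c 1 + cs.bind cyc) := by
    intro b hb
    simp only [Cfg.E]
    rw [path_append, path_cut, lstE_eq hb, pre_eq hb]
    simp only [Multiset.add_cons, Multiset.cons_add, add_assoc]
    rw [Multiset.cons_swap]
  refine S.res_of (c₁ := ⟨a ++ (b ++ c), cs⟩) (c₂ := ⟨a ++ (wstar b ++ c), cs⟩) ?_ hok hok
    (Γ := pre 0 a + inner b + suf c 1 + cs.bind cyc) ?_ (Or.inl ⟨e1 b hb, ?_⟩) hn 1 ?_
  · intro x hx
    rcases Multiset.mem_cons.1 hx with rfl | hx
    · exact hb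
    · exact hok x hx
  · simp only [Cfg.E]
    rw [path_cut, Multiset.cons_bind, cyc]
    simp only [Multiset.add_cons, Multiset.cons_add]
    rw [Multiset.cons_swap]
    congr 2
    abel
  · rw [e1 _ (wstar_ne_nil hb), first_wstar hb, fin_wstar hb, inner_wstar hb,
      mke_comm (first b)]
  · simp only [val, wd_append, T_cons, ← st_wd, one_smul]
    have : S.wd a * S.wd c * (S.tr (S.wd b) * S.T cs) =
        S.wd a * (S.tr (S.wd b) * S.wd c) * S.T cs := by
      rw [S.tr_comm' _ (S.wd c)]; noncomm_ring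
    rw [this, tr]; noncomm_ring

lemma tr_mul_tr (a b : A) : S.tr a * S.tr b = S.tr (a * b) + S.tr (a * S.st b) := by
  rw [← tr_add, ← mul_add, ← S.tr_mul_central _ _ (S.tr_comm' b) (S.st_tr b)]; rfl

lemma res_cc1 (w a b : List L) (ha : a ≠ []) (hb : b ≠ []) (cs : Multiset (List L))
    (hok : ∀ b ∈ cs, b ≠ [])
    (hn : Nested (mke (fin b) (first a)) (mke (fin a) (first b)) ∨
      Nested (mke (fin a) (first b)) (mke (fin b) (first a))) :
    S.Res ⟨w, (a ++ b) ::ₘ cs⟩ := by
  have e1 : ∀ b : List L, b ≠ [] → (⟨w, (a ++ b) ::ₘ cs⟩ : Cfg).E =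
      mke (fin b) (first a) ::ₘ mke (fin a) (first b) ::ₘ
        (path 0 w 1 + inner a + inner b + cs.bind cyc) := by
    intro b hb
    simp only [Cfg.E]
    rw [Multiset.cons_bind, cyc_append ha hb]
    simp only [Multiset.add_cons, Multiset.cons_add, add_assoc]
  have hok1 : ∀ b : List L, b ≠ [] → (⟨w, (a ++ b) ::ₘ cs⟩ : Cfg).Ok := by
    intro b hb x hx
    rcases Multiset.mem_cons.1 hx with rfl | hx
    · simp [hb]
    · exact hok x hx
  refine S.res_of (c₁ := ⟨w, (a ++ wstar b) ::ₘ cs⟩) (c₂ := ⟨w, a ::ₘ b ::ₘ cs⟩) (hok1 b hb)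
    (hok1 _ (wstar_ne_nil hb)) ?_ (e1 b hb) (Or.inr ⟨?_, ?_⟩) hn (-1) ?_
  · intro x hx
    simp only [Multiset.mem_cons] at hx
    rcases hx with rfl | rfl | hx
    · exact ha
    · exact hb
    · exact hok x hx
  · simp only [Cfg.E]
    rw [Multiset.cons_bind, Multiset.cons_bind, cyc, cyc]
    simp only [Multiset.add_cons, Multiset.cons_add, add_assoc]
  · rw [e1 _ (wstar_ne_nil hb), first_wstar hb, fin_wstar hb, inner_wstar hb,
      Multiset.cons_swap, mke_comm (fin a), mke_comm (first b)]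
  · simp only [val, wd_append, T_cons, ← st_wd, neg_smul, one_smul]
    rw [← mul_assoc (S.tr (S.wd a)), tr_mul_tr]; noncomm_ring

lemma res_cc2 (w a b : List L) (ha : a ≠ []) (hb : b ≠ []) (cs : Multiset (List L))
    (hok : ∀ b ∈ cs, b ≠ [])
    (hn : Nested (mke (fin a) (first a)) (mke (fin b) (first b)) ∨
      Nested (mke (fin b) (first b)) (mke (fin a) (first a))) :
    S.Res ⟨w, a ::ₘ b ::ₘ cs⟩ := by
  have e1 : ∀ b : List L, b ≠ [] → (⟨w, (a ++ b) ::ₘ cs⟩ : Cfg).E =
      mke (fin b) (first a) ::ₘ mke (fin a) (first b) ::ₘ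
        (path 0 w 1 + inner a + inner b + cs.bind cyc) := by
    intro b hb
    simp only [Cfg.E]
    rw [Multiset.cons_bind, cyc_append ha hb]
    simp only [Multiset.add_cons, Multiset.cons_add, add_assoc]
  have hok1 : ∀ b : List L, b ≠ [] → (⟨w, (a ++ b) ::ₘ cs⟩ : Cfg).Ok := by
    intro b hb x hx
    rcases Multiset.mem_cons.1 hx with rfl | hx
    · simp [hb]
    · exact hok x hx
  refine S.res_of (c₁ := ⟨w, (a ++ b) ::ₘ cs⟩) (c₂ := ⟨w, (a ++ wstar b) ::ₘ cs⟩) ?_ (hok1 b hb)
    (hok1 _ (wstar_ne_nil hb)) (Γ := path 0 w 1 + inner a + inner b + cs.bind cyc) ?_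
    (Or.inl ⟨?_, ?_⟩) hn 1 ?_
  · intro x hx
    simp only [Multiset.mem_cons] at hx
    rcases hx with rfl | rfl | hx
    · exact ha
    · exact hb
    · exact hok x hx
  · simp only [Cfg.E]
    rw [Multiset.cons_bind, Multiset.cons_bind, cyc, cyc]
    simp only [Multiset.add_cons, Multiset.cons_add, add_assoc]
    rw [Multiset.cons_swap]
  · rw [e1 b hb, Multiset.cons_swap]
  · rw [e1 _ (wstar_ne_nil hb), first_wstar hb, fin_wstar hb, inner_wstar hb,
      Multiset.cons_swap, mke_comm (first b)]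
  · simp only [val, wd_append, T_cons, ← st_wd, one_smul]
    rw [← mul_assoc (S.tr (S.wd a)), tr_mul_tr]; noncomm_ring

lemma res_congr {w : List L} {b b' : List L} {cs : Multiset (List L)}
    (htr : S.tr (S.wd b') = S.tr (S.wd b)) (hc : cyc b' = cyc b) (hl : b'.length = b.length)
    (h : S.Res ⟨w, b' ::ₘ cs⟩) : S.Res ⟨w, b ::ₘ cs⟩ := by
  obtain ⟨c₁, c₂, h1, h2, h3, h4, h5, h6, ε, h7⟩ := h
  have hs : (⟨w, b' ::ₘ cs⟩ : Cfg).size = (⟨w, b ::ₘ cs⟩ : Cfg).size := by simp [Cfg.size, hl]
  have hE : (⟨w, b' ::ₘ cs⟩ : Cfg).E = (⟨w, b ::ₘ cs⟩ : Cfg).E := by simp [Cfg.E, hc]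
  have hv : S.val ⟨w, b' ::ₘ cs⟩ = S.val ⟨w, b ::ₘ cs⟩ := by simp [val, T_cons, htr]
  exact ⟨c₁, c₂, h1, h2, hs ▸ h3, hs ▸ h4, hE ▸ h5, hE ▸ h6, ε, hv ▸ h7⟩

lemma res_path_cyc (w : List L) (cs : Multiset (List L)) (hok : ∀ b ∈ cs, b ≠ [])
    {e e' : ℕ × ℕ} (he : e ∈ path 0 w 1) (he' : e' ∈ cs.bind cyc)
    (hn : Nested e e' ∨ Nested e' e) : S.Res ⟨w, cs⟩ := by
  obtain ⟨a, c, rfl, rfl⟩ := mem_path he
  obtain ⟨b, hb, hm⟩ := Multiset.mem_bind.1 he'
  obtain ⟨ds, rfl⟩ := Multiset.exists_cons_of_mem hb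
  obtain ⟨x, y, -, hxy⟩ := mem_cyc hm
  obtain ⟨v, hv, htr, hcyc, hlen, hfin, hfirst⟩ := S.normalize_cyc (hok b hb) hm hxy
  refine S.res_congr htr hcyc hlen (S.res_pc a c v hv ds
    (fun b hb => hok b (Multiset.mem_cons_of_mem hb)) ?_)
  rw [hfin, hfirst, ← hxy]; exact hn

theorem res_of_nested (c : Cfg) (hok : c.Ok) {e e' : ℕ × ℕ} (he : e ∈ c.E) (he' : e' ∈ c.E)
    (hn : Nested e e') : S.Res c := by
  have hne : e' ≠ e := by
    rintro rfl
    exact lt_irrefl _ hn.1
  obtain ⟨w, cs⟩ := c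
  simp only [Cfg.E, Multiset.mem_add] at he he'
  rcases he with he | he
  · rcases he' with he' | he'
    · obtain ⟨a, b, rfl, h1⟩ := mem_path he
      rw [path_cut, ← h1, Multiset.mem_cons, Multiset.mem_add] at he'
      rcases he'.resolve_left hne with h2 | h2
      · obtain ⟨a₁, a₂, h3, rfl, h4⟩ := mem_pre h2
        rw [List.append_assoc]
        refine S.res_pp a₁ a₂ b h3 cs hok (Or.inr ?_)
        rw [lstE_append, lstE_eq h3] at h1
        rw [← h1, ← h4]; exact hn
      · obtain ⟨b₁, b₂, h3, rfl, h4⟩ := mem_suf h2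
        refine S.res_pp a b₁ b₂ h3 cs hok (Or.inl ?_)
        rw [fstE_append, fstE_eq h3] at h1
        rw [← h1, ← h4]; exact hn
    · exact S.res_path_cyc w cs hok he he' (Or.inl hn)
  · rcases he' with he' | he'
    · exact S.res_path_cyc w cs hok he' he (Or.inr hn)
    · obtain ⟨b, hb, hm⟩ := Multiset.mem_bind.1 he
      obtain ⟨ds, rfl⟩ := Multiset.exists_cons_of_mem hb
      obtain ⟨x, y, -, hxy⟩ := mem_cyc hm
      obtain ⟨v, hv, htr, hcyc, hlen, hfin, hfirst⟩ := S.normalize_cyc (hok b hb) hm hxy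
      have hds : ∀ b ∈ ds, b ≠ [] := fun b hb => hok b (Multiset.mem_cons_of_mem hb)
      refine S.res_congr htr hcyc hlen ?_
      rw [← hfin, ← hfirst] at hxy
      rw [Multiset.cons_bind, ← hcyc, cyc, ← hxy, Multiset.cons_add, Multiset.mem_cons,
        Multiset.mem_add] at he'
      rcases he'.resolve_left hne with h2 | h2
      · obtain ⟨a₁, a₂, h3, h4, rfl, h5⟩ := mem_inner h2
        refine S.res_cc1 w a₁ a₂ h3 h4 ds hds (Or.inl ?_)
        rw [fin_append _ h4, first_append h3] at hxy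
        rw [← hxy, ← h5]; exact hn
      · obtain ⟨b', hb', hm'⟩ := Multiset.mem_bind.1 h2
        obtain ⟨ds', rfl⟩ := Multiset.exists_cons_of_mem hb'
        obtain ⟨x', y', -, hxy'⟩ := mem_cyc hm'
        obtain ⟨v', hv', htr', hcyc', hlen', hfin', hfirst'⟩ :=
          S.normalize_cyc (hds b' hb') hm' hxy'
        rw [Multiset.cons_swap]
        refine S.res_congr htr' hcyc' hlen' ?_
        refine S.res_cc2 w v' v hv' hv ds' (fun b hb => hds b (Multiset.mem_cons_of_mem hb))
          (Or.inr ?_)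
        rw [hfin', hfirst', ← hxy, ← hxy']; exact hn

lemma mke_loop {p q : ℕ} (h : ¬ (mke p q).1 < (mke p q).2) : p = q := by
  simp only [mke] at h; omega

theorem loop_mem_D (c : Cfg) (hok : c.Ok) {e : ℕ × ℕ} (he : e ∈ c.E) (hl : ¬ e.1 < e.2) :
    S.val c ∈ S.D c.size := by
  obtain ⟨w, cs⟩ := c
  simp only [Cfg.E, Multiset.mem_add] at he
  rcases he with he | he
  · obtain ⟨a, b, rfl, rfl⟩ := mem_path he
    have h := mke_loop hl
    have ha : a ≠ [] := by
      rintro rfl
      have := one_le_fstE b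
      simp only [lstE] at h; omega
    have hb : b ≠ [] := by
      rintro rfl
      have := two_le_fin ha
      rw [lstE_eq ha] at h
      simp only [fstE] at h; omega
    rw [lstE_eq ha, fstE_eq hb] at h
    obtain ⟨a', l, rfl, h1⟩ := exists_fin ha
    obtain ⟨m, b', rfl, h2⟩ := exists_first hb
    have hm : lstar l = m := code_inj (h1.symm.trans (h.trans h2))
    subst hm
    have : S.val ⟨a' ++ [l] ++ lstar l :: b', cs⟩ = S.d l.1 * (S.wd a' * S.wd b' * S.T cs) := by
      simp only [val, wd_append, wd_cons, wd_nil, mul_one]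
      rw [← mul_assoc, mul_assoc (S.wd a'), S.g_mul_star, ← S.d_comm']
      noncomm_ring
    rw [this]
    refine S.d_mul_mem _ (S.Ale_mul (S.Ale_mul (S.wd_mem a' le_rfl) (S.wd_mem b' le_rfl))
      (S.T_mem cs)) ?_
    simp only [Cfg.size, List.length_append, List.length_cons, List.length_nil]; omega
  · obtain ⟨b, hb, hm⟩ := Multiset.mem_bind.1 he
    obtain ⟨ds, rfl⟩ := Multiset.exists_cons_of_mem hb
    obtain ⟨x, y, -, hxy⟩ := mem_cyc hm
    obtain ⟨v, hv, htr, hcyc, hlen, hfin, hfirst⟩ := S.normalize_cyc (hok b hb) hm hxy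
    rw [hxy, ← hfin, ← hfirst] at hl
    have h := mke_loop hl
    obtain ⟨a', l, rfl, h1⟩ := exists_fin hv
    have ha : a' ≠ [] := by
      rintro rfl
      exact lstar_ne l (code_inj (h1.symm.trans h))
    obtain ⟨m, b', rfl, h2⟩ := exists_first ha
    have hm : lstar l = m := code_inj (h1.symm.trans h)
    subst hm
    have : S.val ⟨w, b ::ₘ ds⟩ = S.d l.1 * (S.wd w * S.tr (S.wd b') * S.T ds) := by
      simp only [val, T_cons, ← htr]
      rw [S.tr_wd_rot, wd_append, wd_single, wd_cons, ← mul_assoc (S.g l), S.g_mul_star,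
        S.d_comm', S.tr_mul_central _ _ (S.d_comm' _) (S.st_d _), S.d_comm' _ (_ * _ * _),
        mul_assoc (S.tr _), S.d_comm']
      noncomm_ring
    rw [this]
    refine S.d_mul_mem _ (S.Ale_mul (S.Ale_mul (S.wd_mem w le_rfl)
      (S.tr_mem_Ale (S.wd_mem b' le_rfl))) (S.T_mem ds)) ?_
    simp only [Cfg.size, Multiset.map_cons, Multiset.sum_cons, ← hlen, List.length_append,
      List.length_cons, List.length_nil]
    omega

/-- Span of the values of normal configurations of size at most `n`. -/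
def Nrm (n : ℕ) : Submodule K A :=
  Submodule.span K {x | ∃ c : Cfg, c.Ok ∧ c.size ≤ n ∧ NN c.E ∧ x = S.val c}

theorem val_mem_Nrm (n k : ℕ) : ∀ c : Cfg, c.Ok → c.size ≤ n → Phi c.E = k →
    S.val c ∈ S.Nrm n ⊔ S.D n := by
  induction k using Nat.strong_induction_on with
  | _ k ih =>
  intro c hok hs hk
  by_cases h1 : ∀ e ∈ c.E, e.1 < e.2
  · by_cases h2 : ∀ e ∈ c.E, ∀ e' ∈ c.E, e.1 < e'.1 → e.2 ≤ e'.2
    · exact Submodule.mem_sup_left (Submodule.subset_span ⟨c, hok, hs, ⟨h1, h2⟩, rfl⟩)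
    · push Not at h2
      obtain ⟨e, he, e', he', h3, h4⟩ := h2
      obtain ⟨c₁, c₂, k1, k2, k3, k4, k5, k6, ε, hv⟩ :=
        S.res_of_nested c hok he he' ⟨h3, h1 e' he', h4⟩
      rw [hv]
      exact add_mem (Submodule.smul_mem _ _ (ih _ (hk ▸ k5) c₁ k1 (k3 ▸ hs) rfl))
        (ih _ (hk ▸ k6) c₂ k2 (k4 ▸ hs) rfl)
  · push Not at h1
    obtain ⟨e, he, h3⟩ := h1
    exact Submodule.mem_sup_right (S.D_mono hs (S.loop_mem_D c hok he (not_lt.2 h3)))

theorem Ale_le (n : ℕ) : S.Ale n ≤ S.Nrm n ⊔ S.D n := by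
  refine Submodule.span_le.2 ?_
  rintro _ ⟨w, hw, rfl⟩
  have := S.val_mem_Nrm n _ ⟨w, 0⟩ (by simp [Cfg.Ok]) (by simpa [Cfg.size] using hw) rfl
  simpa [val] using this

end StdInv

end Pool.Agent.Work.MP_228e0c_al.H45
end

-- merged part: Pool.Agent.Work.MP_228e0c_al.H45.Basic
section
/-! Two-sided ideals generated by a set, as subspaces. -/

set_option autoImplicit false

namespace Pool.Agent.Work.MP_228e0c_al.H45

section
variable (K : Type) [Field K] {R : Type} [Ring R] [Algebra K R]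

/-- The two-sided ideal generated by a set, as a subspace. -/
def bi (s : Set R) : Submodule K R := Submodule.span K {y | ∃ a x b, x ∈ s ∧ y = a * x * b}

variable {K}

lemma mem_bi {s : Set R} {x : R} (hx : x ∈ s) (a b : R) : a * x * b ∈ bi K s :=
  Submodule.subset_span ⟨a, x, b, hx, rfl⟩

lemma subset_bi {s : Set R} {x : R} (hx : x ∈ s) : x ∈ bi K s := by
  simpa using mem_bi (K := K) hx 1 1

lemma bi_induction {s : Set R} {p : R → Prop} (mem : ∀ a x b, x ∈ s → p (a * x * b))
    (zero : p 0) (add : ∀ x y, p x → p y → p (x + y)) (smul : ∀ (c : K) x, p x → p (c • x))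
    {y : R} (hy : y ∈ bi K s) : p y := by
  induction hy using Submodule.span_induction with
  | mem x hx => obtain ⟨a, x, b, hx, rfl⟩ := hx; exact mem a x b hx
  | zero => exact zero
  | add x y _ _ h1 h2 => exact add x y h1 h2
  | smul c x _ h => exact smul c x h

lemma bi_mul_left {s : Set R} (a : R) {y : R} (hy : y ∈ bi K s) : a * y ∈ bi K s := by
  refine bi_induction (p := fun y => a * y ∈ bi K s) ?_ (by simp) ?_ ?_ hy
  · intro a' x b hx
    rw [← mul_assoc, ← mul_assoc]; exact mem_bi hx _ _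
  · intro x y h1 h2; rw [mul_add]; exact add_mem h1 h2
  · intro c x h; rw [mul_smul_comm]; exact Submodule.smul_mem _ _ h

lemma bi_mul_right {s : Set R} (a : R) {y : R} (hy : y ∈ bi K s) : y * a ∈ bi K s := by
  refine bi_induction (p := fun y => y * a ∈ bi K s) ?_ (by simp) ?_ ?_ hy
  · intro a' x b hx
    rw [mul_assoc]; exact mem_bi hx _ _
  · intro x y h1 h2; rw [add_mul]; exact add_mem h1 h2
  · intro c x h; rw [smul_mul_assoc]; exact Submodule.smul_mem _ _ h

lemma bi_le {s : Set R} {p : Submodule K R} (h : ∀ a x b, x ∈ s → a * x * b ∈ p) : bi K s ≤ p :=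
  Submodule.span_le.2 fun _ ⟨a, x, b, hx, e⟩ => e ▸ h a x b hx

lemma bi_mono {s t : Set R} (h : s ⊆ t) : bi K s ≤ bi K t :=
  bi_le fun a _ b hx => mem_bi (h hx) a b

lemma map_bi {R' : Type} [Ring R'] [Algebra K R'] (f : R →ₐ[K] R') {s : Set R} {t : Set R'}
    (h : ∀ x ∈ s, f x ∈ bi K t) {y : R} (hy : y ∈ bi K s) : f y ∈ bi K t := by
  refine bi_induction (p := fun y => f y ∈ bi K t) ?_ (by simp) ?_ ?_ hy
  · intro a x b hx
    rw [map_mul, map_mul]; exact bi_mul_right _ (bi_mul_left _ (h x hx))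
  · intro x y h1 h2; rw [map_add]; exact add_mem h1 h2
  · intro c x h; rw [map_smul]; exact Submodule.smul_mem _ _ h

lemma map_bi_zero {R' : Type} [Ring R'] [Algebra K R'] (f : R →ₐ[K] R') {s : Set R}
    (h : ∀ x ∈ s, f x = 0) {y : R} (hy : y ∈ bi K s) : f y = 0 := by
  refine bi_induction (p := fun y => f y = 0) ?_ (by simp) ?_ ?_ hy
  · intro a x b hx
    rw [map_mul, map_mul, h x hx, mul_zero, zero_mul]
  · intro x y h1 h2; rw [map_add, h1, h2, add_zero]
  · intro c x h; rw [map_smul, h, smul_zero]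

variable (K)

/-- The same, as an ideal. -/
def biI (s : Set R) : Ideal R where
  carrier := bi K s
  add_mem' := add_mem
  zero_mem' := zero_mem _
  smul_mem' := fun a _ hy => bi_mul_left a hy

instance biI_twoSided (s : Set R) : (biI K s).IsTwoSided := ⟨fun b h => bi_mul_right b h⟩

variable {K}

lemma mk_eq_zero_iff {s : Set R} {x : R} :
    Ideal.Quotient.mkₐ K (biI K s) x = 0 ↔ x ∈ bi K s :=
  Ideal.Quotient.eq_zero_iff_mem

end

section
variable {K : Type} [Field K] {X : Type}

/-- The word in a free algebra. -/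
noncomputable def wdF (K : Type) [Field K] {X : Type} (w : List X) : FreeAlgebra K X :=
  (w.map (FreeAlgebra.ι K)).prod

lemma wdF_nil : wdF K ([] : List X) = 1 := rfl

lemma wdF_cons (l : X) (w : List X) : wdF K (l :: w) = FreeAlgebra.ι K l * wdF K w := by
  simp [wdF]

lemma wdF_append (a b : List X) : wdF K (a ++ b) = wdF K a * wdF K b := by simp [wdF]

lemma map_wdF {R : Type} [Ring R] [Algebra K R] (f : FreeAlgebra K X →ₐ[K] R) (w : List X) :
    f (wdF K w) = (w.map fun l => f (FreeAlgebra.ι K l)).prod := by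
  simp [wdF, map_list_prod, Function.comp_def]

lemma word_induction {p : FreeAlgebra K X → Prop} (mem : ∀ w, p (wdF K w)) (zero : p 0)
    (add : ∀ x y, p x → p y → p (x + y)) (smul : ∀ (c : K) x, p x → p (c • x))
    (y : FreeAlgebra K X) : p y := by
  have h : y ∈ Submodule.span K (Set.range (wdF K (X := X))) := by
    induction y using FreeAlgebra.induction with
    | grade0 r =>
      rw [Algebra.algebraMap_eq_smul_one]
      exact Submodule.smul_mem _ _ (Submodule.subset_span ⟨[], rfl⟩)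
    | grade1 x => exact Submodule.subset_span ⟨[x], by simp [wdF]⟩
    | add a b ha hb => exact add_mem ha hb
    | mul a b ha hb =>
      induction ha using Submodule.span_induction with
      | mem x hx =>
        obtain ⟨w, rfl⟩ := hx
        induction hb using Submodule.span_induction with
        | mem y hy =>
          obtain ⟨w', rfl⟩ := hy
          exact Submodule.subset_span ⟨w ++ w', wdF_append _ _⟩
        | zero => simp
        | add y z _ _ h1 h2 => rw [mul_add]; exact add_mem h1 h2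
        | smul c y _ h1 => rw [mul_smul_comm]; exact Submodule.smul_mem _ _ h1
      | zero => simp
      | add y z _ _ h1 h2 => rw [add_mul]; exact add_mem h1 h2
      | smul c y _ h1 => rw [smul_mul_assoc]; exact Submodule.smul_mem _ _ h1
  induction h using Submodule.span_induction with
  | mem x hx => obtain ⟨w, rfl⟩ := hx; exact mem w
  | zero => exact zero
  | add x y _ _ h1 h2 => exact add x y h1 h2
  | smul c x _ h => exact smul c x h

lemma commute_of_letters {R : Type} [Ring R] [Algebra K R] (f : FreeAlgebra K X →ₐ[K] R) {t : R}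
    (h : ∀ l, Commute t (f (FreeAlgebra.ι K l))) (y : FreeAlgebra K X) : Commute t (f y) := by
  induction y using FreeAlgebra.induction with
  | grade0 r => rw [AlgHom.commutes]; exact (Algebra.commutes r t).symm
  | grade1 x => exact h x
  | add a b ha hb => rw [map_add]; exact ha.add_right hb
  | mul a b ha hb => rw [map_mul]; exact ha.mul_right hb

end

end Pool.Agent.Work.MP_228e0c_al.H45
end

-- merged part: Pool.Agent.Work.MP_228e0c_al.H45.Higman
section
/-! Families of multisets of letters: a well-quasi-order and a compatible well-order; an abstract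
leading term argument. -/

set_option autoImplicit false

namespace Pool.Agent.Work.MP_228e0c_al.H45

/-- Renaming of letters. -/
def rl (σ : ℕ → ℕ) (l : L) : L := (σ l.1, l.2)

lemma rl_inj {σ : ℕ → ℕ} (h : Function.Injective σ) : Function.Injective (rl σ) := by
  rintro ⟨a, b⟩ ⟨a', b'⟩ e
  simp only [rl, Prod.mk.injEq] at e
  rw [h e.1, e.2]

section
variable {T : Type} [Fintype T]

lemma exists_bound (A : T → Multiset L) : ∃ n, ∀ t, ∀ l ∈ A t, l.1 < n := by
  classical
  refine ⟨(Finset.univ.sup fun t => (A t).toFinset.sup Prod.fst) + 1, fun t l hl => ?_⟩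
  refine Nat.lt_succ_of_le (le_trans ?_ (Finset.le_sup (f := fun t => (A t).toFinset.sup Prod.fst)
    (Finset.mem_univ t)))
  exact Finset.le_sup (f := Prod.fst) (Multiset.mem_toFinset.2 hl)

theorem higman_family (f : ℕ → T → Multiset L) :
    ∃ i j, i < j ∧ ∃ σ : ℕ → ℕ, StrictMono σ ∧ ∀ t, (f i t).map (rl σ) ≤ f j t := by
  classical
  choose n hn using fun i => exists_bound (f i)
  let vec : ℕ → ℕ → (T × Bool → ℕ) := fun i k y => (f i y.1).count (k, y.2)
  have hW := (Set.isPWO_of_wellQuasiOrderedLE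
    (Set.univ : Set (T × Bool → ℕ))).partiallyWellOrderedOn_sublistForall₂ (· ≤ ·)
  obtain ⟨i, j, hij, h⟩ := Set.partiallyWellOrderedOn_iff_exists_lt.1 hW
    (fun i => (List.range (n i)).map (vec i)) (by simp)
  obtain ⟨l, h1, h2⟩ := List.sublistForall₂_iff.1 h
  obtain ⟨σ, hσ⟩ := List.sublist_iff_exists_orderEmbedding_getElem?_eq.1 h2
  refine ⟨i, j, hij, σ, σ.strictMono, fun t => Multiset.le_iff_count.2 fun x => ?_⟩
  by_cases hx : x ∈ (f i t).map (rl σ)
  · obtain ⟨y, hy, rfl⟩ := Multiset.mem_map.1 hx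
    rw [Multiset.count_map_eq_count' _ _ (rl_inj σ.injective)]
    have hk := hn i t y hy
    have hl := h1.length_eq
    simp only [List.length_map, List.length_range] at hl
    have h3 := h1.get (i := y.1) (by simpa using hk) (by omega)
    have h4 := hσ y.1
    rw [List.getElem?_eq_getElem (by omega)] at h4
    obtain ⟨h5, h6⟩ := List.getElem?_eq_some_iff.1 h4.symm
    simp only [List.get_eq_getElem, List.getElem_map, List.getElem_range] at h3 h6
    rw [← h6] at h3
    exact h3 (t, y.2)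
  · rw [Multiset.count_eq_zero_of_notMem hx]; exact Nat.zero_le _

/-- The index set of the order key. -/
abbrev XT (T : Type) [Fintype T] : Type := ℕ ×ₗ Fin (Fintype.card (T × Bool))

noncomputable def cnt (A : T → Multiset L) (x : XT T) : ℕ :=
  (A ((Fintype.equivFin (T × Bool)).symm (ofLex x).2).1).count
    ((ofLex x).1, ((Fintype.equivFin (T × Bool)).symm (ofLex x).2).2)

lemma cnt_finite (A : T → Multiset L) : (Function.support (cnt A)).Finite := by
  obtain ⟨n, hn⟩ := exists_bound A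
  refine (((Set.finite_lt_nat n).prod (Set.finite_univ
    (α := Fin (Fintype.card (T × Bool))))).image toLex).subset fun x hx => ?_
  refine ⟨ofLex x, ⟨?_, trivial⟩, rfl⟩
  exact hn _ _ (Multiset.count_ne_zero.1 hx)

/-- The order key of a family. -/
noncomputable def okey (A : T → Multiset L) : Colex (XT T →₀ ℕ) :=
  toColex (Finsupp.ofSupportFinite (cnt A) (cnt_finite A))

lemma okey_lt {A B : T → Multiset L} :
    okey A < okey B ↔ ∃ i, (∀ j, i < j → cnt A j = cnt B j) ∧ cnt A i < cnt B i := Iff.rfl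

lemma okey_inj {A B : T → Multiset L} (h : okey A = okey B) : A = B := by
  funext t
  ext l
  have := congrArg (fun g : Colex (XT T →₀ ℕ) =>
    ofColex g (toLex (l.1, Fintype.equivFin (T × Bool) (t, l.2)))) h
  simpa [okey, Finsupp.ofSupportFinite_coe, cnt] using this

lemma okey_mono {A B : T → Multiset L} (C : T → Multiset L) {σ : ℕ → ℕ} (hσ : StrictMono σ)
    (h : okey A < okey B) :
    okey (fun t => (A t).map (rl σ) + C t) < okey (fun t => (B t).map (rl σ) + C t) := by
  obtain ⟨i, h1, h2⟩ := okey_lt.1 h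
  have key : ∀ (D : T → Multiset L) (x : XT T),
      cnt (fun t => (D t).map (rl σ) + C t) (toLex (σ (ofLex x).1, (ofLex x).2)) =
        cnt D x + cnt C (toLex (σ (ofLex x).1, (ofLex x).2)) := by
    intro D x
    simp only [cnt, ofLex_toLex, Multiset.count_add]
    congr 1
    exact Multiset.count_map_eq_count' _ _ (rl_inj hσ.injective) ((ofLex x).1, _)
  refine okey_lt.2 ⟨toLex (σ (ofLex i).1, (ofLex i).2), fun j hj => ?_, ?_⟩
  · by_cases hr : (ofLex j).1 ∈ Set.range σ
    · obtain ⟨k, hk⟩ := hr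
      have e : j = toLex (σ (ofLex (toLex (k, (ofLex j).2) : XT T)).1,
          (ofLex (toLex (k, (ofLex j).2) : XT T)).2) := by
        simp only [ofLex_toLex, hk]; rfl
      rw [e, key, key, h1]
      rw [e] at hj
      simp only [ofLex_toLex, Prod.Lex.toLex_lt_toLex, hσ.lt_iff_lt, hσ.injective.eq_iff] at hj
      exact Prod.Lex.toLex_lt_toLex.2 hj
    · have : ∀ (s : Multiset L) (b : Bool), (s.map (rl σ)).count ((ofLex j).1, b) = 0 := by
        intro s b
        refine Multiset.count_eq_zero_of_notMem fun hm => hr ?_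
        obtain ⟨y, -, hy⟩ := Multiset.mem_map.1 hm
        exact ⟨y.1, congrArg Prod.fst hy⟩
      simp only [cnt, Multiset.count_add, this]
  · rw [key, key]; omega

end

section AL
variable {K V Λ W O : Type} [Field K] [AddCommGroup V] [Module K V] [LinearOrder W]

/-- The part below a key. -/
def below (Q : Submodule K V) (κ : Λ → W) (m : Λ → V) (w : W) : Submodule K V :=
  Q ⊔ Submodule.span K (m '' {μ | κ μ < w})

theorem leading_term [WellFoundedLT W] (Q : Submodule K V) (κ : Λ → W) (m : Λ → V)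
    (op : O → V →ₗ[K] V) (act : O → Λ → Λ)
    (h1 : ∀ μ l, κ μ = κ l → ∃ c : K, m μ - c • m l ∈ below Q κ m (κ l))
    (h2 : ∀ o l, op o (m l) - m (act o l) ∈ Q) (h3 : ∀ o, ∀ x ∈ Q, op o x ∈ Q)
    (h4 : ∀ o μ l, κ μ < κ l → κ (act o μ) < κ (act o l))
    (h5 : ∀ f : ℕ → Λ, ∃ i j, i < j ∧ ∃ o, κ (act o (f i)) = κ (f j))
    (Z : Submodule K V) (hZ : Z ≤ Q ⊔ Submodule.span K (Set.range m))
    (hO : ∀ o, ∀ z ∈ Z, op o z ∈ Z) :
    ∃ G0 : Set V, G0.Finite ∧ G0 ⊆ Z ∧
      Z ≤ Q ⊔ Submodule.span K {y | ∃ o, ∃ z ∈ G0, y = op o z} := by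
  classical
  let LT : Λ → Prop := fun l => ∃ z ∈ Z, z - m l ∈ below Q κ m (κ l)
  have hfin : ∃ s : Finset Λ, (∀ x ∈ s, LT x) ∧
      ∀ y, LT y → ∃ x ∈ s, ∃ o, κ (act o x) = κ y := by
    by_contra hc
    obtain ⟨f, -, hf⟩ := exists_seq_of_forall_finset_exists LT
      (fun x y => ¬ ∃ o, κ (act o x) = κ y) (fun s hs => by
        by_contra hc'
        refine hc ⟨s, hs, fun y hy => ?_⟩
        by_contra hc''
        exact hc' ⟨y, hy, fun x hx ho => hc'' ⟨x, hx, ho⟩⟩)
    obtain ⟨i, j, hij, ho⟩ := h5 f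
    exact hf i j hij ho
  obtain ⟨s, hs1, hs2⟩ := hfin
  choose! g hg1 hg2 using hs1
  refine ⟨g '' s, s.finite_toSet.image g, ?_, ?_⟩
  · rintro _ ⟨x, hx, rfl⟩; exact hg1 x hx
  set Z' := Q ⊔ Submodule.span K {y | ∃ o, ∃ z ∈ g '' s, y = op o z} with hZ'
  have hop : ∀ o l, ∀ x ∈ below Q κ m (κ l), op o x ∈ below Q κ m (κ (act o l)) := by
    intro o l x hx
    have : below Q κ m (κ l) ≤ (below Q κ m (κ (act o l))).comap (op o) := by
      refine sup_le (fun y hy => Submodule.mem_sup_left (h3 o y hy)) (Submodule.span_le.2 ?_)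
      rintro _ ⟨μ, hμ, rfl⟩
      have e : op o (m μ) = (op o (m μ) - m (act o μ)) + m (act o μ) := by abel
      show op o (m μ) ∈ below Q κ m (κ (act o l))
      rw [e]
      exact add_mem (Submodule.mem_sup_left (h2 o μ))
        (Submodule.mem_sup_right (Submodule.subset_span ⟨_, h4 o _ _ hμ, rfl⟩))
    exact this hx
  have hsplit : ∀ (p : Λ → Prop), ∀ x ∈ Q ⊔ Submodule.span K (m '' {μ | p μ}),
      x ∈ Q ∨ ∃ l, p l ∧ ∃ c : K, x - c • m l ∈ below Q κ m (κ l) := by
    intro p x hx
    obtain ⟨q, hq, y, hy, rfl⟩ := Submodule.mem_sup.1 hx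
    have hmono : ∀ μ l, κ μ < κ l → ∀ (c : K) x, x - c • m μ ∈ below Q κ m (κ μ) →
        x ∈ below Q κ m (κ l) := by
      intro μ l h c x hx
      have e : x = (x - c • m μ) + c • m μ := by abel
      rw [e]
      refine add_mem ((sup_le_sup_left (Submodule.span_mono (Set.image_mono
        fun ν (hν : κ ν < κ μ) => hν.trans h)) Q) hx) ?_
      exact Submodule.mem_sup_right (Submodule.smul_mem _ _ (Submodule.subset_span ⟨μ, h, rfl⟩))
    have hadd : ∀ x y, (x ∈ Q ∨ ∃ l, p l ∧ ∃ c : K, x - c • m l ∈ below Q κ m (κ l)) →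
        (y ∈ Q ∨ ∃ l, p l ∧ ∃ c : K, y - c • m l ∈ below Q κ m (κ l)) →
        (x + y ∈ Q ∨ ∃ l, p l ∧ ∃ c : K, x + y - c • m l ∈ below Q κ m (κ l)) := by
      rintro x y (hx | ⟨l, hl, c, hx⟩) (hy | ⟨l', hl', c', hy⟩)
      · exact Or.inl (add_mem hx hy)
      · refine Or.inr ⟨l', hl', c', ?_⟩
        rw [add_sub_assoc]; exact add_mem (Submodule.mem_sup_left hx) hy
      · refine Or.inr ⟨l, hl, c, ?_⟩
        rw [add_sub_right_comm]; exact add_mem hx (Submodule.mem_sup_left hy)
      · rcases lt_trichotomy (κ l) (κ l') with h | h | h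
        · refine Or.inr ⟨l', hl', c', ?_⟩
          rw [add_sub_assoc]; exact add_mem (hmono _ _ h c x hx) hy
        · obtain ⟨d, hd⟩ := h1 l l' h
          refine Or.inr ⟨l', hl', c * d + c', ?_⟩
          have e : x + y - (c * d + c') • m l' =
              (x - c • m l) + c • (m l - d • m l') + (y - c' • m l') := by
            rw [add_smul, mul_smul, smul_sub]; abel
          rw [e]
          exact add_mem (add_mem (h ▸ hx) (Submodule.smul_mem _ _ hd)) hy
        · refine Or.inr ⟨l, hl, c, ?_⟩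
          rw [add_sub_right_comm]; exact add_mem hx (hmono _ _ h c' y hy)
    refine hadd _ _ (Or.inl hq) ?_
    clear hx
    induction hy using Submodule.span_induction with
    | mem y hy =>
      obtain ⟨μ, hμ, rfl⟩ := hy
      exact Or.inr ⟨μ, hμ, 1, by simp⟩
    | zero => exact Or.inl (zero_mem _)
    | add x y _ _ h h' => exact hadd _ _ h h'
    | smul a x _ h =>
      rcases h with h | ⟨l, hl, c, h⟩
      · exact Or.inl (Submodule.smul_mem _ _ h)
      · refine Or.inr ⟨l, hl, a * c, ?_⟩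
        rw [mul_smul, ← smul_sub]; exact Submodule.smul_mem _ _ h
  have main : ∀ w : W, ∀ l, κ l = w → ∀ z ∈ Z, ∀ c : K, z - c • m l ∈ below Q κ m (κ l) →
      z ∈ Z' := by
    intro w
    induction w using WellFoundedLT.induction with
    | ind w ih =>
    intro l hl z hz c hc
    have low : ∀ z ∈ Z, z ∈ below Q κ m (κ l) → z ∈ Z' := by
      intro z hz h
      rcases hsplit _ z h with h | ⟨l', hl', c', h⟩
      · exact Submodule.mem_sup_left h
      · exact ih _ (hl ▸ hl') l' rfl z hz c' h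
    by_cases hc0 : c = 0
    · exact low z hz (by simpa [hc0] using hc)
    · obtain ⟨x, hx, o, ho⟩ := hs2 l ⟨c⁻¹ • z, Z.smul_mem _ hz, by
        have := Submodule.smul_mem _ c⁻¹ hc
        rwa [smul_sub, smul_smul, inv_mul_cancel₀ hc0, one_smul] at this⟩
      obtain ⟨d, hd⟩ := h1 l (act o x) ho.symm
      have h6 := hop o x _ (hg2 x hx)
      rw [ho] at hd h6
      have e : z - (c * d) • op o (g x) = (z - c • m l) + c • (m l - d • m (act o x)) -
          (c * d) • (op o (g x - m x) + (op o (m x) - m (act o x))) := by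
        simp only [map_sub, smul_sub, smul_add, mul_smul]; abel
      have h7 : z - (c * d) • op o (g x) ∈ Z' := by
        refine low _ (sub_mem hz (Z.smul_mem _ (hO o _ (hg1 x hx)))) ?_
        rw [e]
        exact sub_mem (add_mem hc (Submodule.smul_mem _ _ hd))
          (Submodule.smul_mem _ _ (add_mem h6 (Submodule.mem_sup_left (h2 o x))))
      have e2 : z = (z - (c * d) • op o (g x)) + (c * d) • op o (g x) := by abel
      rw [e2]
      exact add_mem h7 (Submodule.mem_sup_right (Submodule.smul_mem _ _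
        (Submodule.subset_span ⟨o, g x, ⟨x, hx, rfl⟩, rfl⟩)))
  intro z hz
  have := hZ hz
  rw [← Set.image_univ] at this
  rcases hsplit (fun _ => True) z this with h | ⟨l, -, c, h⟩
  · exact Submodule.mem_sup_left h
  · exact main _ l rfl z hz c h

end AL

end Pool.Agent.Work.MP_228e0c_al.H45
end

-- merged part: Pool.Agent.Work.MP_228e0c_al.H45.Noeth
section
/-! A finiteness theorem for free bimodules on tuple-indexed symbols, modulo the ideal generated
by the double commutators of letters and one more family of relations. -/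

set_option autoImplicit false

namespace Pool.Agent.Work.MP_228e0c_al.H45

open FreeAlgebra TensorProduct

variable {K : Type} [Field K]

/-- Renaming of the letters. -/
noncomputable def renG (K : Type) [Field K] (σ : ℕ → ℕ) : FreeAlgebra K L →ₐ[K] FreeAlgebra K L :=
  FreeAlgebra.lift K fun l => ι K (rl σ l)

lemma renG_ι (σ : ℕ → ℕ) (l : L) : renG K σ (ι K l) = ι K (rl σ l) := by simp [renG]

lemma renG_wdF (σ : ℕ → ℕ) (w : List L) : renG K σ (wdF K w) = wdF K (w.map (rl σ)) := by
  induction w with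
  | nil => simp [wdF_nil]
  | cons l w ih => rw [wdF_cons, map_mul, ih, renG_ι, List.map_cons, wdF_cons]

noncomputable def cm (K : Type) [Field K] (a b : L) : FreeAlgebra K L :=
  ι K a * ι K b - ι K b * ι K a

lemma renG_cm (σ : ℕ → ℕ) (a b : L) : renG K σ (cm K a b) = cm K (rl σ a) (rl σ b) := by
  simp [cm, renG_ι]

def I0set (K : Type) [Field K] : Set (FreeAlgebra K L) :=
  {x | (∃ a b c : L, x = cm K a b * ι K c - ι K c * cm K a b) ∨
    ∃ u a b y : L, x = cm K u a * cm K b y + cm K u b * cm K a y}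

abbrev I0 (K : Type) [Field K] : Submodule K (FreeAlgebra K L) := bi K (I0set K)

lemma renG_I0 (σ : ℕ → ℕ) {x : FreeAlgebra K L} (hx : x ∈ I0 K) : renG K σ x ∈ I0 K := by
  refine map_bi _ ?_ hx
  rintro _ (⟨a, b, c, rfl⟩ | ⟨u, a, b, y, rfl⟩)
  · exact subset_bi (Or.inl ⟨rl σ a, rl σ b, rl σ c, by simp [renG_cm, renG_ι]⟩)
  · exact subset_bi (Or.inr ⟨rl σ u, rl σ a, rl σ b, rl σ y, by simp [renG_cm]⟩)

/-- Products of commutators of consecutive letters. -/
noncomputable def Om (K : Type) [Field K] : List L → FreeAlgebra K L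
  | [] => 1
  | [_] => 0
  | a :: b :: t => cm K a b * Om K t

lemma renG_Om (σ : ℕ → ℕ) : ∀ b : List L, renG K σ (Om K b) = Om K (b.map (rl σ))
  | [] => by simp [Om]
  | [_] => by simp [Om]
  | a :: b :: t => by simp [Om, renG_cm, renG_Om σ t]

lemma Om_append : ∀ (d : List L), Even d.length → ∀ b : List L, Om K (d ++ b) = Om K d * Om K b
  | [], _, b => by simp [Om]
  | [_], h, _ => by simp at h
  | x :: y :: t, h, b => by
    have : Even t.length := by
      simp only [List.length_cons, Nat.even_add_one, not_not] at h; exact h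
    simp [Om, Om_append t this b, mul_assoc]

noncomputable def q0 (K : Type) [Field K] : FreeAlgebra K L →ₐ[K] FreeAlgebra K L ⧸ biI K (I0set K) :=
  Ideal.Quotient.mkₐ K _

lemma q0_eq {x y : FreeAlgebra K L} : q0 K x = q0 K y ↔ x - y ∈ I0 K := by
  rw [← sub_eq_zero, ← map_sub]; exact mk_eq_zero_iff

lemma cm_central (a b : L) (x : FreeAlgebra K L) : Commute (q0 K (cm K a b)) (q0 K x) := by
  refine commute_of_letters _ (fun c => ?_) x
  have := q0_eq.2 (subset_bi (K := K) (s := I0set K) (Or.inl ⟨a, b, c, rfl⟩))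
  rw [map_mul, map_mul] at this
  exact this

lemma Om_central : ∀ (b : List L) (x : FreeAlgebra K L), Commute (q0 K (Om K b)) (q0 K x)
  | [], x => by simp [Om]
  | [_], x => by simp [Om]
  | a :: b :: t, x => by
    rw [Om, map_mul]; exact (cm_central a b x).mul_left (Om_central t x)

lemma Om_perm {b b' : List L} (h : b.Perm b') : ∃ ε : K, q0 K (Om K b) = ε • q0 K (Om K b') ∧
    ∀ x, q0 K (Om K (x :: b)) = ε • q0 K (Om K (x :: b')) := by
  induction h with
  | nil => exact ⟨1, by simp, by simp⟩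
  | cons y _ ih =>
    obtain ⟨ε, h1, h2⟩ := ih
    exact ⟨ε, h2 y, fun x => by simp [Om, h1]⟩
  | swap a b l =>
    refine ⟨-1, ?_, fun x => ?_⟩
    · have : cm K b a = - cm K a b := by simp [cm]
      simp [Om, this]
    · cases l with
      | nil => simp [Om]
      | cons y t =>
        have h : q0 K (cm K x b * cm K a y + cm K x a * cm K b y) = q0 K 0 :=
          q0_eq.2 (by rw [sub_zero]; exact subset_bi (Or.inr ⟨x, b, a, y, rfl⟩))
        rw [map_zero, map_add, add_eq_zero_iff_eq_neg] at h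
        simp only [Om, ← mul_assoc]
        rw [map_mul, h, map_mul _ _ (Om K t)]
        simp
  | trans _ _ ih1 ih2 =>
    obtain ⟨ε, h1, h2⟩ := ih1
    obtain ⟨ε', h3, h4⟩ := ih2
    exact ⟨ε * ε', by rw [h1, h3, mul_smul], fun x => by rw [h2, h4, mul_smul]⟩

/-- The basic monomials. -/
noncomputable def mon (K : Type) [Field K] (w b : List L) : FreeAlgebra K L := wdF K w * Om K b

lemma mon_mul (w w' : List L) {b : List L} (b' : List L) (hb : Even b.length) :
    mon K w b * mon K w' b' - mon K (w ++ w') (b ++ b') ∈ I0 K := by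
  rw [← q0_eq, mon, mon, mon, wdF_append, Om_append _ hb]
  simp only [map_mul, mul_assoc]
  rw [← mul_assoc (q0 K (Om K b)), (Om_central b _).eq, mul_assoc]

lemma renG_mon (σ : ℕ → ℕ) (w b : List L) :
    renG K σ (mon K w b) = mon K (w.map (rl σ)) (b.map (rl σ)) := by
  rw [mon, map_mul, renG_wdF, renG_Om, mon]

/-- The part of word length less than `n`. -/
noncomputable def Wlt (K : Type) [Field K] (n : ℕ) : Submodule K (FreeAlgebra K L) :=
  I0 K ⊔ Submodule.span K {x | ∃ w b : List L, w.length < n ∧ Even b.length ∧ x = mon K w b}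

lemma Wlt_mul (l : L) {n : ℕ} {x : FreeAlgebra K L} (hx : x ∈ Wlt K n) :
    ι K l * x ∈ Wlt K (n + 1) := by
  have : Wlt K n ≤ (Wlt K (n + 1)).comap (LinearMap.mulLeft K (ι K l)) := by
    refine sup_le (fun y hy => Submodule.mem_sup_left (bi_mul_left _ hy)) (Submodule.span_le.2 ?_)
    rintro _ ⟨w, b, h1, h2, rfl⟩
    refine Submodule.mem_sup_right (Submodule.subset_span ⟨l :: w, b, by simpa using h1, h2, ?_⟩)
    simp [mon, wdF_cons, mul_assoc]
  exact this hx

lemma mon_perm_word {w w' : List L} (h : w.Perm w') {b : List L} (hb : Even b.length) :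
    mon K w b - mon K w' b ∈ Wlt K w.length := by
  induction h with
  | nil => simp
  | cons l _ ih =>
    have := Wlt_mul l ih
    simpa [mon, wdF_cons, mul_sub, mul_assoc] using this
  | swap x y l =>
    have e : mon K (y :: x :: l) b - mon K (x :: y :: l) b = mon K [] [y, x] * mon K l b := by
      simp [mon, wdF_cons, wdF_nil, Om, cm, sub_mul, mul_assoc]
    have h := mon_mul (K := K) [] l (b := [y, x]) b (by simp)
    rw [e, ← sub_add_cancel (mon K [] [y, x] * mon K l b) (mon K ([] ++ l) ([y, x] ++ b))]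
    refine add_mem (Submodule.mem_sup_left h) (Submodule.mem_sup_right (Submodule.subset_span
      ⟨_, _, by simp, ?_, rfl⟩))
    simp only [List.cons_append, List.nil_append, List.length_cons, Nat.even_add_one, not_not]
    exact hb
  | trans h1 _ ih1 ih2 =>
    rw [← h1.length_eq] at ih2
    simpa using add_mem ih1 ih2

lemma mon_perm {w w' b b' : List L} (h : w.Perm w') (h' : b.Perm b') (hb : Even b.length) :
    ∃ ε : K, mon K w b - ε • mon K w' b' ∈ Wlt K w.length := by
  obtain ⟨ε, h1, -⟩ := Om_perm (K := K) h'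
  refine ⟨ε, ?_⟩
  have h2 : mon K w' b - ε • mon K w' b' ∈ I0 K := by
    rw [← q0_eq, mon, mon, map_smul, map_mul, map_mul, h1, mul_smul_comm]
  simpa using add_mem (mon_perm_word h hb) (Submodule.mem_sup_left h2)

section bimod

/-- The free bimodule on a set of symbols. -/
def FB (K : Type) [Field K] (S : Type) : Type := S →₀ (FreeAlgebra K L ⊗[K] FreeAlgebra K L)

variable {S : Type}

noncomputable instance : AddCommGroup (FB K S) :=
  inferInstanceAs (AddCommGroup (S →₀ (FreeAlgebra K L ⊗[K] FreeAlgebra K L)))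

noncomputable instance : Module K (FB K S) :=
  inferInstanceAs (Module K (S →₀ (FreeAlgebra K L ⊗[K] FreeAlgebra K L)))

noncomputable def tm (K : Type) [Field K] (s : S) :
    FreeAlgebra K L →ₗ[K] FreeAlgebra K L →ₗ[K] FB K S :=
  (TensorProduct.mk K _ _).compr₂
    (Finsupp.lsingle s : _ →ₗ[K] S →₀ (FreeAlgebra K L ⊗[K] FreeAlgebra K L))

noncomputable def mkV {W : Type} [AddCommGroup W] [Module K W]
    (f : S → FreeAlgebra K L →ₗ[K] FreeAlgebra K L →ₗ[K] W) : FB K S →ₗ[K] W :=
  (Finsupp.lsum K fun s => TensorProduct.lift (f s) :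
    (S →₀ (FreeAlgebra K L ⊗[K] FreeAlgebra K L)) →ₗ[K] W)

lemma mkV_tm {W : Type} [AddCommGroup W] [Module K W]
    (f : S → FreeAlgebra K L →ₗ[K] FreeAlgebra K L →ₗ[K] W) (s : S) (p q : FreeAlgebra K L) :
    mkV f (tm K s p q) = f s p q := by
  show Finsupp.lsum K (fun s => TensorProduct.lift (f s)) (Finsupp.single s (p ⊗ₜ[K] q)) = _
  simp

lemma FB_induction {P : FB K S → Prop} (h : ∀ s p q, P (tm K s p q)) (zero : P 0)
    (add : ∀ x y, P x → P y → P (x + y)) (x : FB K S) : P x := by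
  induction x using Finsupp.induction_linear with
  | zero => exact zero
  | add x y h1 h2 => exact add x y h1 h2
  | single s t =>
    induction t using TensorProduct.induction_on with
    | zero => rw [Finsupp.single_zero]; exact zero
    | tmul p q => exact h s p q
    | add x y h1 h2 => rw [Finsupp.single_add]; exact add _ _ h1 h2

end bimod

abbrev Sy (J : Type) (N : ℕ) : Type := J × (Fin N → ℕ)

variable {J : Type} {N : ℕ}

/-- Renaming, followed by multiplication on both sides. -/
noncomputable def opV (g : FreeAlgebra K L) (σ : ℕ → ℕ) (g' : FreeAlgebra K L) :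
    FB K (Sy J N) →ₗ[K] FB K (Sy J N) :=
  mkV fun s : Sy J N => (tm K (s.1, σ ∘ s.2)).compl₁₂ (LinearMap.mulLeft K g ∘ₗ (renG K σ).toLinearMap)
    (LinearMap.mulRight K g' ∘ₗ (renG K σ).toLinearMap)

lemma opV_tm (g : FreeAlgebra K L) (σ : ℕ → ℕ) (g' : FreeAlgebra K L) (s : Sy J N)
    (p q : FreeAlgebra K L) :
    opV g σ g' (tm K s p q) = tm K (s.1, σ ∘ s.2) (g * renG K σ p) (renG K σ q * g') := by
  simp [opV, mkV_tm]

noncomputable def Q0 (K : Type) [Field K] (S : Type) : Submodule K (FB K S) :=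
  Submodule.span K {x | ∃ s p q, (p ∈ I0 K ∨ q ∈ I0 K) ∧ x = tm K s p q}

structure Idx (J : Type) (N : ℕ) where
  s : Sy J N
  w : Fin 4 → List L
  e1 : Even (w 1).length
  e3 : Even (w 3).length

structure Opr where
  σ : ℕ → ℕ
  mono : StrictMono σ
  zero : σ 0 = 0
  w : Fin 4 → List L
  e1 : Even (w 1).length
  e3 : Even (w 3).length

def Opr.act (o : Opr) (l : Idx J N) : Idx J N where
  s := (l.s.1, o.σ ∘ l.s.2)
  w k := if k.1 < 2 then o.w k ++ (l.w k).map (rl o.σ) else (l.w k).map (rl o.σ) ++ o.w k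
  e1 := by simpa using o.e1.add l.e1
  e3 := by simpa using l.e3.add o.e3

open Classical in
noncomputable def Idx.fam (l : Idx J N) : Fin 4 ⊕ (Fin N ⊕ J) → Multiset L
  | Sum.inl k => (l.w k : Multiset L)
  | Sum.inr (Sum.inl t) => {(l.s.2 t, false)}
  | Sum.inr (Sum.inr j) => if j = l.s.1 then {(0, false)} else 0

noncomputable def Opr.fam (o : Opr) : Fin 4 ⊕ (Fin N ⊕ J) → Multiset L
  | Sum.inl k => (o.w k : Multiset L)
  | Sum.inr _ => 0

lemma fam_act (o : Opr) (l : Idx J N) :
    (o.act l).fam = fun t => (l.fam t).map (rl o.σ) + o.fam t := by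
  funext t
  rcases t with k | t | j
  · simp only [Idx.fam, Opr.fam, Opr.act, Multiset.map_coe, Multiset.coe_add]
    split_ifs
    · exact Multiset.coe_eq_coe.2 List.perm_append_comm
    · rfl
  · simp [Idx.fam, Opr.fam, Opr.act, rl]
  · simp only [Idx.fam, Opr.fam, Opr.act]
    split_ifs <;> simp [rl, o.zero]

noncomputable def Idx.mv (K : Type) [Field K] (l : Idx J N) : FB K (Sy J N) :=
  tm K l.s (mon K (l.w 0) (l.w 1)) (mon K (l.w 2) (l.w 3))

noncomputable def Idx.key [Fintype J] (l : Idx J N) :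
    ℕ ×ₗ Colex (XT (Fin 4 ⊕ (Fin N ⊕ J)) →₀ ℕ) :=
  toLex ((l.w 0).length + (l.w 2).length, okey l.fam)

lemma tm_left [Fintype J] (l : Idx J N) {x : FreeAlgebra K L} (hx : x ∈ Wlt K (l.w 0).length)
    {w b : List L} (hw : w.length = (l.w 2).length) (hb : Even b.length) :
    tm K l.s x (mon K w b) ∈ below (Q0 K _) Idx.key (Idx.mv K) l.key := by
  have : Wlt K (l.w 0).length ≤ (below (Q0 K _) Idx.key (Idx.mv K) l.key).comap
      ((tm K l.s).flip (mon K w b)) := by
    refine sup_le (fun y hy => Submodule.mem_sup_left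
      (Submodule.subset_span ⟨_, _, _, Or.inl hy, rfl⟩)) (Submodule.span_le.2 ?_)
    rintro _ ⟨w', b', h1, h2, rfl⟩
    refine Submodule.mem_sup_right (Submodule.subset_span
      ⟨⟨l.s, ![w', b', w, b], h2, hb⟩, ?_, rfl⟩)
    exact Prod.Lex.toLex_lt_toLex.2 (Or.inl (by simp; omega))
  exact this hx

lemma tm_right [Fintype J] (l : Idx J N) {x : FreeAlgebra K L} (hx : x ∈ Wlt K (l.w 2).length) :
    tm K l.s (mon K (l.w 0) (l.w 1)) x ∈ below (Q0 K _) Idx.key (Idx.mv K) l.key := by
  have : Wlt K (l.w 2).length ≤ (below (Q0 K _) Idx.key (Idx.mv K) l.key).comap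
      (tm K l.s (mon K (l.w 0) (l.w 1))) := by
    refine sup_le (fun y hy => Submodule.mem_sup_left
      (Submodule.subset_span ⟨_, _, _, Or.inr hy, rfl⟩)) (Submodule.span_le.2 ?_)
    rintro _ ⟨w', b', h1, h2, rfl⟩
    refine Submodule.mem_sup_right (Submodule.subset_span
      ⟨⟨l.s, ![l.w 0, l.w 1, w', b'], l.e1, h2⟩, ?_, rfl⟩)
    exact Prod.Lex.toLex_lt_toLex.2 (Or.inl (by simp; omega))
  exact this hx

theorem noeth [Finite J] (Z : Submodule K (FB K (Sy J N)))
    (hZ : ∀ g σ g', ∀ z ∈ Z, opV g σ g' z ∈ Z) :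
    ∃ G0 : Set (FB K (Sy J N)), G0.Finite ∧ G0 ⊆ Z ∧
      Z ≤ Q0 K _ ⊔ Submodule.span K {y | ∃ g σ g', ∃ z ∈ G0, y = opV g σ g' z} := by
  classical
  have := Fintype.ofFinite J
  refine Exists.imp (fun G0 h => ⟨h.1, h.2.1,
    h.2.2.trans (sup_le_sup_left (Submodule.span_mono
      (by rintro _ ⟨o, z, hz, rfl⟩; exact ⟨_, _, _, z, hz, rfl⟩)) _)⟩)
    (leading_term (Q0 K (Sy J N)) Idx.key (Idx.mv K)
    (fun o : Opr => opV (mon K (o.w 0) (o.w 1)) o.σ (mon K (o.w 2) (o.w 3))) Opr.act
    ?_ ?_ ?_ ?_ ?_ Z ?_ (fun o z hz => hZ _ _ _ z hz))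
  · intro μ l h
    have hf : μ.fam = l.fam := okey_inj (congrArg (fun x => (ofLex x).2) h)
    have hp : ∀ k, (μ.w k).Perm (l.w k) := fun k =>
      Multiset.coe_eq_coe.1 (congrFun hf (Sum.inl k))
    have hs : μ.s = l.s := by
      refine Prod.ext ?_ (funext fun t => ?_)
      · have := congrFun hf (Sum.inr (Sum.inr μ.s.1))
        by_contra hne
        simp [Idx.fam, hne] at this
      · simpa [Idx.fam] using congrFun hf (Sum.inr (Sum.inl t))
    obtain ⟨ε, hε⟩ := mon_perm (K := K) (hp 0) (hp 1) μ.e1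
    obtain ⟨ε', hε'⟩ := mon_perm (K := K) (hp 2) (hp 3) μ.e3
    rw [(hp 0).length_eq] at hε
    rw [(hp 2).length_eq] at hε'
    refine ⟨ε * ε', ?_⟩
    have := add_mem (tm_left l hε (hp 2).length_eq μ.e3)
      (Submodule.smul_mem _ ε (tm_right l hε'))
    simpa [Idx.mv, hs, smul_sub, mul_smul] using this
  · intro o l
    have ha := mon_mul (K := K) (o.w 0) ((l.w 0).map (rl o.σ)) ((l.w 1).map (rl o.σ)) o.e1
    have hb := mon_mul (K := K) ((l.w 2).map (rl o.σ)) (o.w 2) (b := (l.w 3).map (rl o.σ)) (o.w 3)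
      (by simpa using l.e3)
    have := add_mem (Submodule.subset_span (R := K) (s := {x | ∃ s p q, (p ∈ I0 K ∨ q ∈ I0 K) ∧
      x = tm K s p q}) ⟨(o.act l).s, _, mon K ((l.w 2).map (rl o.σ)) ((l.w 3).map (rl o.σ)) *
        mon K (o.w 2) (o.w 3), Or.inl ha, rfl⟩) (Submodule.subset_span ⟨(o.act l).s,
        mon K (o.w 0 ++ (l.w 0).map (rl o.σ)) (o.w 1 ++ (l.w 1).map (rl o.σ)), _, Or.inr hb, rfl⟩)
    simpa [Idx.mv, opV_tm, renG_mon, Opr.act, Q0] using this
  · intro o x hx
    have : Q0 K (Sy J N) ≤ (Q0 K _).comap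
        (opV (mon K (o.w 0) (o.w 1)) o.σ (mon K (o.w 2) (o.w 3))) := by
      refine Submodule.span_le.2 ?_
      rintro _ ⟨s, p, q, h, rfl⟩
      refine Submodule.subset_span ⟨_, _, _, ?_, opV_tm _ _ _ _ _ _⟩
      exact h.imp (fun h => bi_mul_left _ (renG_I0 _ h)) (fun h => bi_mul_right _ (renG_I0 _ h))
    exact this hx
  · intro o μ l h
    rcases Prod.Lex.toLex_lt_toLex.1 h with h | ⟨h, h'⟩
    · exact Prod.Lex.toLex_lt_toLex.2 (Or.inl (by simp [Opr.act] at h ⊢; omega))
    · refine Prod.Lex.toLex_lt_toLex.2 (Or.inr ⟨by simp [Opr.act] at h ⊢; omega, ?_⟩)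
      simp only [fam_act]
      exact okey_mono _ o.mono h'
  · intro f
    obtain ⟨i, j, hij, σ, hσ, h⟩ := higman_family fun n => (f n).fam
    have hj : (f i).s.1 = (f j).s.1 ∧ σ 0 = 0 := by
      have := h (Sum.inr (Sum.inr (f i).s.1))
      by_cases hne : (f i).s.1 = (f j).s.1
      · simpa [Idx.fam, hne, rl] using this
      · simp [Idx.fam, hne] at this
    have hlen : ∀ k, ((f j).w k : Multiset L).card = ((f i).w k).length +
        (((f j).w k : Multiset L) - (((f i).w k : Multiset L)).map (rl σ)).toList.length := by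
      intro k
      have h0 : (((f i).w k : Multiset L)).map (rl σ) ≤ (f j).w k := h (Sum.inl k)
      have h1 := Multiset.card_le_card h0
      rw [Multiset.length_toList, Multiset.card_sub h0]
      simp only [Multiset.card_map, Multiset.coe_card] at h1 ⊢
      omega
    let o : Opr := ⟨σ, hσ, hj.2,
      fun k => (((f j).w k : Multiset L) - (((f i).w k : Multiset L)).map (rl σ)).toList,
      by
        have h1 := (f j).e1
        rw [← Multiset.coe_card, hlen, Nat.even_add] at h1
        exact h1.1 (f i).e1,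
      by
        have h1 := (f j).e3
        rw [← Multiset.coe_card, hlen, Nat.even_add] at h1
        exact h1.1 (f i).e3⟩
    have hf : (o.act (f i)).fam = (f j).fam := by
      rw [fam_act]
      funext t
      rcases t with k | t | j'
      · have h0 : (((f i).w k : Multiset L)).map (rl σ) ≤ (f j).w k := h (Sum.inl k)
        simp only [Idx.fam, Opr.fam, o, Multiset.coe_toList]
        exact add_tsub_cancel_of_le h0
      · simpa [Idx.fam, Opr.fam, o, rl] using h (Sum.inr (Sum.inl t))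
      · simp only [Idx.fam, Opr.fam, o, hj.1]
        split_ifs <;> simp [rl, hj.2]
    refine ⟨i, j, hij, o, ?_⟩
    have hp : ∀ k, ((o.act (f i)).w k).length = ((f j).w k).length := fun k =>
      (Multiset.coe_eq_coe.1 (congrFun hf (Sum.inl k))).length_eq
    simp only [Idx.key, hf, hp]
  · intro z hz
    clear hz
    refine Submodule.mem_sup_right ?_
    induction z using FB_induction with
    | h s p q =>
      induction p using word_induction with
      | mem w =>
        induction q using word_induction with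
        | mem w' =>
          exact Submodule.subset_span ⟨⟨s, ![w, [], w', []], by simp, by simp⟩,
            by simp [Idx.mv, mon, Om]⟩
        | zero => simp
        | add x y h1 h2 => rw [map_add]; exact add_mem h1 h2
        | smul c x h => rw [map_smul]; exact Submodule.smul_mem _ _ h
      | zero => simp
      | add x y h1 h2 => rw [map_add, LinearMap.add_apply]; exact add_mem h1 h2
      | smul c x h => rw [map_smul, LinearMap.smul_apply]; exact Submodule.smul_mem _ _ h
    | zero => simp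
    | add x y h1 h2 => exact add_mem h1 h2

end Pool.Agent.Work.MP_228e0c_al.H45
end
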